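import Pool.Agent.Lib.MP_f99268_lc_X.Jop

/-!
# Properties of the sets `U(f)`
-/

namespace Pool.Agent.MP_f99268_lc

open Equiv Classical

variable {D : Type} [Countable D] {X : Ctx D}

/-- A copy in canonical position is a copy. -/
theorem CanC.copy {G : Subgroup (Perm D)} {A c : Finset D} {e : {a // a ∈ A} → D}
    (h : CanC G A c e) : IsCopy G A e := by
  obtain ⟨u, hu, -, he⟩ := h
  obtain ⟨g, hg, hA⟩ := hu A
  exact ⟨g, hg, fun a => (he a).trans (hA a a.2)⟩

/-- The group `G_c` moves canonical positions over `c` to such positions. -/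
theorem CanC.move {G : Subgroup (Perm D)} {A c : Finset D} {e : {a // a ∈ A} → D}
    (h : CanC G A c e) {g : Perm D} (hg : g ∈ G) :
    CanC G A (c.image g) (fun a => g (e a)) := by
  obtain ⟨u, hu, hcu, he⟩ := h
  refine ⟨fun x => g (u x), ?_, ?_, fun a => congrArg g (he a)⟩
  · intro B
    obtain ⟨g0, hg0, hB⟩ := hu B
    exact ⟨g * g0, G.mul_mem hg hg0, fun a ha => congrArg g (hB a ha)⟩
  · intro m x y hxy
    obtain ⟨k, hk, hkx⟩ := hcu m x y hxy
    refine ⟨g * k * g⁻¹, ?_, fun i => ?_⟩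
    · rw [mem_st] at hk ⊢
      refine ⟨G.mul_mem (G.mul_mem hg hk.1) (G.inv_mem hg), fun a ha => ?_⟩
      obtain ⟨b, hb, rfl⟩ := Finset.mem_image.1 ha
      simp [hk.2 b hb]
    · have h1 : k (u (x i)) = u (y i) := hkx i
      simp [h1]

variable {r : ℕ} {A : Finset D} {J : D → D → D}

/-- `FamM` is finite. -/
theorem IsJ.fin (hJ : IsJ X r A J) : Finite (FamM X.G {a // a ∈ A}) :=
  finite_famM X.hO hJ.lo hJ.rich

/-- Membership in `U(f)` depends only on the types of `f(s, e a)` for `s ∈ A`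
(`FEq.of_rich`, `cls_eq`). -/
theorem IsJ.congr (hJ : IsJ X r A J) {f f' : D → D → D} (hf : EE X f) (hf' : EE X f')
    {e e' : {a // a ∈ A} → D}
    (h : Orb X.G ∅ (fun p : {a // a ∈ A} × {a // a ∈ A} => f p.1 (e p.2))
      (fun p => f' p.1 (e' p.2))) : e ∈ US X A J f ↔ e' ∈ US X A J f' := by
  have h1 : cls X.G (fam f e) = cls X.G (fam f' e') :=
    (cls_eq (hf.sc _ e) (hf'.sc _ e')).2
      (FEq.of_rich hJ.lo hJ.rich (hf.sc _ e) (hf'.sc _ e') h)
  unfold US
  rw [Set.mem_ofPred_eq, Set.mem_ofPred_eq, h1]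

/-- `U(f * J * g) = U(f) ∩ U(g)` on copies (`idem_pow_iff`; the class of
`fam (bmul f (bmul J g)) e` is `cls (fam f e) * cls (fam J e) * cls (fam g e)`, and
`cls (fam J e) = cls (fam J (inc A))` by `cls_copy`). -/
theorem IsJ.mul (hJ : IsJ X r A J) {f g : D → D → D} (hf : EE X f) (hg : EE X g)
    {e : {a // a ∈ A} → D} (he : IsCopy X.G A e) :
    e ∈ US X A J (bmul f (bmul J g)) ↔ e ∈ US X A J f ∧ e ∈ US X A J g := by
  have hJE : EE X J := EE.of_can hJ.mem hJ.can
  have h1 : cls X.G (fam (bmul f (bmul J g)) e) =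
      cls X.G (fam f e) * cls X.G (fam J (inc A)) * cls X.G (fam g e) := by
    have e1 : fam (bmul f (bmul J g)) e = fcomp (fam f e) (fcomp (fam J e) (fam g e)) := rfl
    rw [e1, cls_mul (hf.sc _ e) ((hJE.sc _ e).comp (hg.sc _ e)),
      cls_mul (hJE.sc _ e) (hg.sc _ e), cls_copy hJ.mem hJ.can he, mul_assoc]
  have := hJ.fin
  unfold US
  rw [Set.mem_ofPred_eq, Set.mem_ofPred_eq, Set.mem_ofPred_eq, h1]
  exact idem_pow_iff hJ.idem

/-- (U2) For canonical `h` and a copy `e`: `e ∈ U(h)` if and only if `h` has the value `0`.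
By `cls_copy` we may take `e = inc A`. If the value is `0` this is `hJ.max`. Conversely
`(J * h * J) ^ n = J` in `FamM` means (`cls_mul`, induction on `n`) that the `n`-fold `bmul`-power
`k` of `bmul J (bmul h J)` satisfies `FEq (fam k (inc A)) (fam J (inc A))`; both `k` and `J` are
canonical, so `orb_of_feq` and `X.val_congr` give `val k = val J = 0`; by `val_bmul` the value of
`h` is `0` (as `n ≥ 1`). -/
theorem IsJ.can_iff (hJ : IsJ X r A J) {h : D → D → D} (hC : bin h ∈ X.C 2)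
    (hcan : Can X.G ∅ ∅ (bin h)) {e : {a // a ∈ A} → D} (he : IsCopy X.G A e) :
    e ∈ US X A J h ↔ X.val 1 (bin h) = 0 := by
  have hJE : EE X J := EE.of_can hJ.mem hJ.can
  have hE : EE X h := EE.of_can hC hcan
  have h0 : e ∈ US X A J h ↔ inc A ∈ US X A J h := by
    unfold US
    rw [Set.mem_ofPred_eq, Set.mem_ofPred_eq, cls_copy hC hcan he]
  rw [h0]
  refine ⟨fun h1 => ?_, hJ.max h hC hcan⟩
  have hhJ : EE X (bmul h J) := hE.mul hJE
  have hM : EE X (bmul J (bmul h J)) := hJE.mul hhJ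
  have cM : Can X.G ∅ ∅ (bin (bmul J (bmul h J))) := can_bmul hJ.can (can_bmul hcan hJ.can)
  have vM : X.val 1 (bin (bmul J (bmul h J))) = 0 ↔ X.val 1 (bin h) = 0 := by
    rw [val_bmul hJ.mem hJ.can hhJ.mem (can_bmul hcan hJ.can), val_bmul hC hcan hJ.mem hJ.can]
    exact ⟨fun h => h.2.1, fun h => ⟨hJ.val, h, hJ.val⟩⟩
  have lM : cls X.G (fam (bmul J (bmul h J)) (inc A)) =
      cls X.G (fam J (inc A)) * cls X.G (fam h (inc A)) * cls X.G (fam J (inc A)) := by
    have e1 : fam (bmul J (bmul h J)) (inc A) =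
        fcomp (fam J (inc A)) (fcomp (fam h (inc A)) (fam J (inc A))) := rfl
    rw [e1, cls_mul (hJE.sc _ _) ((hE.sc _ _).comp (hJE.sc _ _)),
      cls_mul (hE.sc _ _) (hJE.sc _ _), mul_assoc]
  obtain ⟨n, hn, h2⟩ := h1
  rw [← lM] at h2
  have key : ∀ n : ℕ, ∃ k : D → D → D, bin k ∈ X.C 2 ∧ Can X.G ∅ ∅ (bin k) ∧
      cls X.G (fam k (inc A)) = cls X.G (fam (bmul J (bmul h J)) (inc A)) ^ (n + 1) ∧
      (X.val 1 (bin k) = 0 ↔ X.val 1 (bin h) = 0) := by
    intro n
    induction n with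
    | zero => exact ⟨_, hM.mem, cM, by rw [zero_add, pow_one], vM⟩
    | succ n ih =>
      obtain ⟨k, k1, k2, k3, k4⟩ := ih
      have hk : EE X k := EE.of_can k1 k2
      refine ⟨bmul k (bmul J (bmul h J)), (hk.mul hM).mem, can_bmul k2 cM, ?_, ?_⟩
      · have e1 : fam (bmul k (bmul J (bmul h J))) (inc A) =
            fcomp (fam k (inc A)) (fam (bmul J (bmul h J)) (inc A)) := rfl
        rw [e1, cls_mul (hk.sc _ _) (hM.sc _ _), k3, ← pow_succ]
      · rw [val_bmul k1 k2 hM.mem cM, k4, vM, and_self_iff]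
  obtain ⟨k, k1, k2, k3, k4⟩ := key (n - 1)
  rw [Nat.sub_add_cancel hn, h2] at k3
  have hk : EE X k := EE.of_can k1 k2
  have h3 : FEq X.G (fam k (inc A)) (fam J (inc A)) := (cls_eq (hk.sc _ _) (hJE.sc _ _)).1 k3
  rw [← k4, ← hJ.val]
  exact X.val_congr k1 hJ.mem k2 hJ.can (orb_of_feq hJ.lo hJ.rich k2 hJ.can h3)

/-- (U3) Let `f ∈ 𝔼` be canonical over `c`, let `e = u|A` be in canonical position over `c`. Then
`e ∈ U(f)` if and only if `f` has the value `0`. Let `h s t = f s (u t)`. It is canonical by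
`EE.can_left` and `hu : CanU ∅ c u`; `val h = val f` by `X.val_box` (with `u 0 = id`, `u 1 = u`,
`c₀ = c`, the condition for the identity is `CanU c c`); `e ∈ U(f)` iff `inc A ∈ U(h)`
(`US_shift`), and `can_iff`. -/
theorem IsJ.far_iff (hJ : IsJ X r A J) {f : D → D → D} (hf : EE X f) {c : Finset D}
    (hcan : Can X.G c ∅ (bin f)) {e : {a // a ∈ A} → D} (he : CanC X.G A c e) :
    e ∈ US X A J f ↔ X.val 1 (bin f) = 0 := by
  obtain ⟨u, hu, hcu, heu⟩ := he
  have hE : EE X (fun s t => f s (u t)) := hf.shift_emb hu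
  have hC : Can X.G ∅ ∅ (bin fun s t => f s (u t)) := by
    intro m x y hxy
    exact hf.can_left hcan (hxy 0) (hcu m _ _ (hxy 1))
  have hid : CanU X.G c c (id : D → D) := fun _ _ _ h => h
  have hu2 : CanU X.G c c u := fun m x y h => hcu m x y h.to_empty
  have hv : X.val 1 (bin fun s t => f s (u t)) = X.val 1 (bin f) := by
    have h1 := X.val_box (k := 1) (c₀ := c) (c := c) (h := bin f) (u := ![id, u]) hf.mem hcan
      (by
        intro j
        refine Fin.cases ?_ (fun j => ?_) j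
        · exact Emb.of_mem X.G.one_mem
        · rw [Subsingleton.elim j 0]
          exact hu)
      (by
        intro j
        refine Fin.cases ?_ (fun j => ?_) j
        · exact hid
        · rw [Subsingleton.elim j 0]
          exact hu2)
    rw [← h1]
    rfl
  have h2 : (fun a => u (inc A a)) = e := by
    funext a
    exact (heu a).symm
  have h3 := US_shift (X := X) (J := J) (f := f) u (inc A)
  rw [h2] at h3
  rw [← h3, hJ.can_iff hE.mem hC (e := inc A) ⟨1, X.G.one_mem, fun _ => rfl⟩, hv]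

end Pool.Agent.MP_f99268_lc
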