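import Pool.Agent.Lib.MP_f99268_lc_X.Defs

/-!
# Canonical copies in large sets
-/

namespace Pool.Agent.MP_f99268_lc

open Equiv Classical

variable {D : Type} [Countable D]

/-- (TEST) For every finite `c` there is a finite `T` such that every image `h T`, `h ∈ G`,
contains a copy of `A` in canonical position over `c`.

Proof. Suppose not; take an exhaustion `B n`; for every `n` some `h n ∈ G` is bad for `B n`, that
is, no `e` with `CanC G A c e` has all its values in `(B n).image (h n)`. If `h` is bad for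
`B (n + 1)` it is bad for `B n`. Apply `compactness` with `X := D`, the group `st G c` and
`P n f := ∃ h ∈ G, bad n h ∧ ∃ η ∈ st G c, ∀ x ∈ B n, f x = η (h x)`; let `f` be the limit, it is
in `Emb G`. Let `K` be the result of `canonise_one hR hO ∅ c (fun x : Fin 1 → D => f (x 0))`, and
`u a = K (fun _ => a)`; then `Emb G u` (as in `exists_emb`), `CanU G ∅ c u`, and there are
`β ∈ G`, `η ∈ st G c` with `u a = η (f (β a))` for `a ∈ A`. Choose `n` with `β a ∈ B n` for
`a ∈ A`. Then `f (β a) = η' (h (β a))` with `h` bad for `B n`, `η' ∈ st G c`. The copy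
`e a = h (β a) = η'⁻¹ (η⁻¹ (u a))` has its values in `(B n).image h` and is in canonical position
over `c` (the map `η'⁻¹ ∘ η⁻¹ ∘ u`), a contradiction. -/
theorem exists_test {G : Subgroup (Perm D)} (hR : FR G Bool) (hO : Olig G) (A c : Finset D) :
    ∃ T : Finset D, ∀ h ∈ G, ∃ e : {a // a ∈ A} → D, CanC G A c e ∧ ∀ a, e a ∈ T.image h := by
  by_contra hcon
  push Not at hcon
  obtain ⟨B, hB1, hB2⟩ := exists_exhaustion D
  obtain ⟨f, hf⟩ := compactness B hB1
    (fun x => by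
      obtain ⟨n, hn⟩ := hB2 {x}
      exact ⟨n, hn (Finset.mem_singleton_self x)⟩)
    (st G c) (hO.st c)
    (fun n f => ∃ h ∈ G, (∀ e : {a // a ∈ A} → D, CanC G A c e → ∃ a, e a ∉ (B n).image h) ∧
      ∃ η ∈ st G c, ∀ x ∈ B n, f x = η (h x))
    (fun n f f' hff' ⟨h, hh, hbad, η, hη, h1⟩ =>
      ⟨h, hh, hbad, η, hη, fun x hx => by rw [← hff' x hx]; exact h1 x hx⟩)
    (fun n f ⟨h, hh, hbad, η, hη, h1⟩ => ⟨h, hh, fun e he => by
      obtain ⟨a, ha⟩ := hbad e he
      exact ⟨a, fun h' => ha (Finset.image_subset_image (hB1 n) h')⟩,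
      η, hη, fun x hx => h1 x (hB1 n hx)⟩)
    (fun n f g hg ⟨h, hh, hbad, η, hη, h1⟩ => ⟨h, hh, hbad, g * η, Subgroup.mul_mem _ hg hη,
      fun x hx => congrArg g (h1 x hx)⟩)
    (fun n => by
      obtain ⟨h, hh, hbad⟩ := hcon (B n)
      exact ⟨h, h, hh, hbad, 1, Subgroup.one_mem _, fun x _ => rfl⟩)
  have hfE : Emb G f := by
    intro S
    obtain ⟨n, hn⟩ := hB2 S
    obtain ⟨h, hh, -, η, hη, h1⟩ := hf n
    exact ⟨η * h, G.mul_mem (st_le hη) hh, fun a ha => h1 a (hn ha)⟩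
  obtain ⟨K, hK1, hK2⟩ := canonise_one hR hO ∅ c (fun x : Fin 1 → D => f (x 0))
  have huE : Emb G (fun a => K (fun _ => a)) := by
    intro S
    obtain ⟨β, hβ, η, hη, h1⟩ := hK1 S
    obtain ⟨g, hg, hgS⟩ := hfE (S.image (β 0))
    refine ⟨η * g * β 0, G.mul_mem (G.mul_mem (st_le hη) hg) (st_le (hβ 0)), fun a ha => ?_⟩
    refine (h1 (fun _ => a) (fun _ => ha)).trans ?_
    exact congrArg η (hgS _ (Finset.mem_image_of_mem _ ha))
  have huC : CanU G ∅ c (fun a => K (fun _ => a)) := fun m x y hxy =>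
    hK2 m (fun _ => x) (fun _ => y) (fun _ => hxy)
  obtain ⟨β, hβ, η, hη, h1⟩ := hK1 A
  obtain ⟨n, hn⟩ := hB2 (A.image (β 0))
  obtain ⟨h, hh, hbad, η', hη', h2⟩ := hf n
  have hinv : (η * η')⁻¹ ∈ st G c := (st G c).inv_mem ((st G c).mul_mem hη hη')
  have hcan : CanC G A c (fun a => h (β 0 a)) := by
    refine ⟨fun x => (η * η')⁻¹ (K (fun _ => x)), ?_, ?_, ?_⟩
    · intro S
      obtain ⟨g, hg, hgS⟩ := huE S
      exact ⟨(η * η')⁻¹ * g, G.mul_mem (st_le hinv) hg, fun x hx =>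
        congrArg (fun z => (η * η')⁻¹ z) (hgS x hx)⟩
    · intro m x y hxy
      exact ((Orb.of_mem hinv _).symm.trans (huC m x y hxy)).trans (Orb.of_mem hinv _)
    · intro a
      have e1 : K (fun _ => (a : D)) = η (η' (h (β 0 a))) := by
        refine (h1 (fun _ => (a : D)) (fun _ => a.2)).trans ?_
        exact congrArg η (h2 _ (hn (Finset.mem_image_of_mem _ a.2)))
      show h (β 0 a) = (η * η')⁻¹ (K (fun _ => (a : D)))
      rw [e1]
      simp
  obtain ⟨a, ha⟩ := hbad _ hcan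
  exact ha (Finset.mem_image_of_mem _ (hn (Finset.mem_image_of_mem _ a.2)))

end Pool.Agent.MP_f99268_lc
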