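import Pool.Agent.Lib.MP_f99268_lc_X.T2
import Pool.Agent.Lib.MP_f99268_lc_X.TestB

/-!
# Operations of value zero accept all copies
-/

namespace Pool.Agent.MP_f99268_lc

open Equiv Classical Filter

variable {D : Type} [Countable D] {X : Ctx D} {r : ℕ} {A : Finset D} {J : D → D → D}

/-- T1: if `f ∈ 𝔼` is canonical over `c` and of value `0` then `U(f)` contains all copies.
Suppose that the copy `b` is not in `U(f)`. Let `B` be the set `T` of `exists_test` for `c`, let
`S` be the set of `T2`. For every copy `e` inside `S` choose `g_e ∈ G` with `g_e ∘ e = b` and let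
`f_e s t = f s (g_e t)` (`EE.shift`); so `e ∉ U(f_e)` (`US_shift`). Let `l` be the list of the
`f_e` (finitely many copies `e` inside `S`). For every `e` and `h ∈ G` there is a copy `e'` inside
`(g_e * h) B` in canonical position over `c`, it is in `U(f)` by `IsJ.far_iff`, so
`g_e⁻¹ ∘ e'`, which is inside `h B`, is in `U(f_e)`. So `l` witnesses `NoT2`. -/
theorem IsJ.T1 (hJ : IsJ X r A J) {f : D → D → D} (hf : EE X f) {c : Finset D}
    (hcan : Can X.G c ∅ (bin f)) (hv : X.val 1 (bin f) = 0) {b : {a // a ∈ A} → D}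
    (hb : IsCopy X.G A b) : b ∈ US X A J f := by
  by_contra hbf
  obtain ⟨B, hB⟩ := exists_test X.hR X.hO A c
  obtain ⟨S, hS⟩ := hJ.T2 B
  apply hS
  have hg : ∀ e : {a // a ∈ A} → D, IsCopy X.G A e →
      ∃ g : Perm D, g ∈ X.G ∧ ∀ a, g (e a) = b a := by
    rintro e ⟨g, hg, hge⟩
    obtain ⟨g', hg', hgb⟩ := hb
    refine ⟨g' * g⁻¹, mul_mem hg' (inv_mem hg), fun a => ?_⟩
    have h1 : g⁻¹ (e a) = a := Perm.inv_eq_iff_eq.2 (hge a)
    rw [Perm.mul_apply, h1, hgb]
  choose! g hgG hge using hg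
  refine ⟨(((Fintype.piFinset fun _ : {a // a ∈ A} => S).filter
    (IsCopy X.G A)).toList).map fun e s t => f s (g e t), ?_, ?_, ?_⟩
  · intro f' hf'
    obtain ⟨e, he, rfl⟩ := List.mem_map.1 hf'
    rw [Finset.mem_toList, Finset.mem_filter] at he
    exact hf.shift (hgG e he.2)
  · intro f' hf' h hh _
    obtain ⟨e, he, rfl⟩ := List.mem_map.1 hf'
    rw [Finset.mem_toList, Finset.mem_filter] at he
    have hge' := hgG e he.2
    obtain ⟨e', he', hB'⟩ := hB (g e * h) (mul_mem hge' hh)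
    refine ⟨fun a => (g e)⁻¹ (e' a), ?_, fun a => ?_, ?_⟩
    · obtain ⟨k, hk, hke⟩ := he'.copy
      exact ⟨(g e)⁻¹ * k, mul_mem (inv_mem hge') hk, fun a => congrArg _ (hke a)⟩
    · obtain ⟨x, hx, hxe⟩ := Finset.mem_image.1 (hB' a)
      refine Finset.mem_image.2 ⟨x, hx, ?_⟩
      show h x = (g e)⁻¹ (e' a)
      rw [← hxe, Perm.mul_apply]
      exact (Perm.eq_inv_iff_eq.2 rfl)
    · rw [US_shift]
      have h1 : (fun a => g e ((g e)⁻¹ (e' a))) = e' := by
        funext a
        exact Perm.eq_inv_iff_eq.1 rfl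
      rw [h1]
      exact (hJ.far_iff hf hcan he').2 hv
  · intro e he heS
    refine ⟨fun s t => f s (g e t), ?_, ?_⟩
    · apply List.mem_map.2
      refine ⟨e, ?_, rfl⟩
      rw [Finset.mem_toList, Finset.mem_filter, Fintype.mem_piFinset]
      exact ⟨heS, he⟩
    · rw [US_shift]
      simp only [hge e he]
      exact hbf

end Pool.Agent.MP_f99268_lc
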