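import Pool.Agent.Lib.MP_f99268_lc_X.C2D
import Pool.Agent.Lib.MP_f99268_lc_X.T1
import Pool.Agent.Lib.MP_f99268_lc_X.Jop2

/-!
# The value of the limit operation
-/

namespace Pool.Agent.MP_f99268_lc

open Equiv Classical Filter

variable {D : Type} [Countable D] {X : Ctx D} {r : ℕ} {A : Finset D} {J : D → D → D}

omit [Countable D] in
private theorem C2B_comp {G : Subgroup (Perm D)} {u v : D → D} (hu : Emb G u) (hv : Emb G v) :
    Emb G (fun x => u (v x)) := by
  intro S
  obtain ⟨g, hg, h1⟩ := hv S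
  obtain ⟨g', hg', h2⟩ := hu (S.image v)
  refine ⟨g' * g, G.mul_mem hg' hg, fun a ha => ?_⟩
  show u (v a) = g' (g a)
  rw [h2 _ (Finset.mem_image_of_mem v ha), h1 a ha]

/-- The value of `L` is `1`. Suppose that it is `0`. Let `u` be an embedding with `CanU ∅ c u`
(`X.w c`), `h s t = L (u s) (u t)`: canonical (`∅ → ∅`) of value `val L = 0` (`X.val_box`).
Apply `hL.adh` to `S = (A.image u)`: we get `β₀, β₁, B, w, η`. Let `γ` be an embedding with
`CanU A B γ` and `γ a = β₀ (u a)` for `a ∈ A`: `u` agrees on `A` with some `g ∈ G`, use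
`exists_emb X.hR X.hO A B (β₀ * g)` (the values are in `B`). Let `w₀ = w ∘ β₁ ∘ u`, this is an
embedding with `CanU ∅ B w₀`. Let `F s t = K B (γ t) (w₀ s)`. Then `F ∈ 𝔼` (for constant `t` the
type of `F (s_l, t_a)` depends only on the type of `w₀ s_l` over `B`, and this on the type of
`s_l`: apply `hb.canK B` to `γ t_a` and `w₀ s_l`), `F` is canonical over `A`, and its value is `0`:
`F = K B (γ t, w₀ s)`; by `X.val_comp` with the outer operation `bin (K B)` (constants `B`) and the
inner operations `x ↦ γ (x 1)`, `x ↦ w₀ (x 0)` (canonical from `A` to `B`) the value of `F` is the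
value of the inner operation of index `val (K B) = 1`, that is of `x ↦ w₀ (x 0)`, which is `0`
(`X.val_emb_proj`). By T1 `inc A ∈ U(F)`. For `s, a ∈ A`:
`F s a = K B (β₀ (u a)) (w (β₁ (u s))) = η⁻¹ (L (u a) (u s)) = η⁻¹ (h a s)`. So by `IsJ.congr`
`inc A ∈ U(h')` for `h' s t = h t s`. But `h'` is canonical of value `1` (`X.val_comp` with the
projections), in contradiction to `IsJ.can_iff`. -/
theorem IsL.val_eq (hJ : IsJ X r A J) {H : D → D → D} {K : Finset D → D → D → D}
    (hb : Bad X H K) {c : Finset D} {L : D → D → D} (hL : IsL X H K c L) :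
    X.val 1 (bin L) = 1 := by
  by_contra hne
  have hv0 : X.val 1 (bin L) = 0 := by
    generalize X.val 1 (bin L) = i at hne
    fin_cases i
    · rfl
    · exact absurd rfl hne
  obtain ⟨u, hu, huc⟩ : ∃ u : D → D, Emb X.G u ∧ CanU X.G ∅ c u :=
    ⟨X.w c, X.w_emb c, X.w_can c⟩
  -- the operation with the variables exchanged
  let h : D → D → D := fun s t => L (u s) (u t)
  have hmem : bin h ∈ X.C 2 := X.hC.comp_emb hL.mem (u := fun _ => u) (fun _ => hu)
  have hcan : Can X.G ∅ ∅ (bin h) := hL.can.comp_canU (u := fun _ => u) (fun _ => huc)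
  have hval : X.val 1 (bin h) = 0 := by
    rw [← hv0]
    exact X.val_box (k := 1) (u := fun _ => u) hL.mem hL.can (fun _ => hu) (fun _ => huc)
  let sw : Fin 2 → (Fin 2 → D) → D := fun i x => x (1 - i)
  let h' : D → D → D := fun s t => L (u t) (u s)
  have e' : bin h' = fun x => bin h (fun i => sw i x) := rfl
  have hmem' : bin h' ∈ X.C 2 := by
    rw [e']
    exact X.hC.comp 2 2 (bin h) sw hmem (fun i => X.hC.proj 2 (1 - i))
  have hcan' : Can X.G ∅ ∅ (bin h') := by
    rw [e']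
    exact hcan.comp_can (K := sw) (fun i => Can.proj X.G ∅ (1 - i))
  have hval' : X.val 1 (bin h') = 1 := by
    rw [e']
    have h1 := X.val_comp (n := 1) (m := 1) (h := bin h) (K := sw) (c₀ := ∅) (c := ∅) hmem hcan
      (fun i => X.hC.proj 2 (1 - i)) (fun i => Can.proj X.G ∅ (1 - i))
    rw [h1, hval]
    exact X.val_emb_proj (k := 1) (c₀ := ∅) (c := ∅) (u := fun x => x)
      (fun _ => ⟨1, X.G.one_mem, fun _ _ => rfl⟩) (fun _ _ _ hxy => hxy) 1
  -- the operation of value zero
  obtain ⟨β₀, hβ₀, β₁, hβ₁, B, hcB, hSB, w, hw, hwc, -, η, hη, hLK⟩ := hL.adh (A.image u)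
  obtain ⟨g, hg, hgu⟩ := hu A
  obtain ⟨γ, hγ, hγc, hγA⟩ := exists_emb X.hR X.hO A B (β₀ * g)
    (X.G.mul_mem (st_le hβ₀) hg) (fun a ha => by
      show β₀ (g a) ∈ B
      rw [← hgu a ha]
      exact hSB _ (Finset.mem_image_of_mem u ha))
  let w₀ : D → D := fun s => w (β₁ (u s))
  have hw₀ : Emb X.G w₀ :=
    C2B_comp hw (C2B_comp (Emb.of_mem (st_le hβ₁)) hu)
  have hw₀c : CanU X.G ∅ B w₀ := by
    intro m x y hxy
    apply hwc
    exact ((Orb.of_mem hβ₁ _).symm.trans (huc m x y hxy)).trans (Orb.of_mem hβ₁ _)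
  let F : D → D → D := fun s t => K B (γ t) (w₀ s)
  let Q : Fin 2 → (Fin 2 → D) → D := fun i x => if i = 0 then γ (x 1) else w₀ (x 0)
  have eF : bin F = fun x => bin (K B) (fun i => Q i x) := rfl
  have hQ : ∀ i, Q i ∈ X.C 2 := by
    intro i
    fin_cases i
    · exact X.hC.emb_comp (X.hC.proj 2 1) hγ
    · exact X.hC.emb_comp (X.hC.proj 2 0) hw₀
  have hQc : ∀ i, Can X.G A B (Q i) := by
    intro i
    fin_cases i
    · exact hγc.can (k := 2) 1
    · exact (hw₀c.can (k := 2) 0).mono (Finset.empty_subset _) subset_rfl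
  have hFm : bin F ∈ X.C 2 := by
    rw [eF]
    exact X.hC.comp 2 2 (bin (K B)) Q (hb.memK B) hQ
  have hFc : Can X.G A ∅ (bin F) := by
    rw [eF]
    exact (hb.canK B).comp_can hQc
  have hFv : X.val 1 (bin F) = 0 := by
    rw [eF]
    have h1 := X.val_comp (n := 1) (m := 1) (h := bin (K B)) (K := Q) (c₀ := A) (c := B)
      (hb.memK B) (hb.canK B) hQ hQc
    rw [h1, hb.valK B]
    exact X.val_emb_proj (k := 1) (c₀ := ∅) (c := B) (u := w₀) hw₀ hw₀c 0
  have hFE : EE X F := by
    refine ⟨hFm, ?_⟩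
    intro α _ t m s s' hss
    have h1 := (hb.canK B).fin (α := Fin m × α)
      (fun i p => if i = 0 then γ (t p.2) else w₀ (s p.1))
      (fun i p => if i = 0 then γ (t p.2) else w₀ (s' p.1)) (by
        intro i
        fin_cases i
        · exact Orb.refl _
        · exact (hw₀c m s s' hss).comp (fun p : Fin m × α => p.1))
    exact h1
  have hinc : IsCopy X.G A (inc A) := ⟨1, X.G.one_mem, fun _ => rfl⟩
  have hU : inc A ∈ US X A J F := hJ.T1 hFE hFc hFv hinc
  have hU' : inc A ∈ US X A J h' := by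
    refine (hJ.congr hFE (EE.of_can hmem' hcan') ?_).1 hU
    refine ⟨η, by rwa [st_empty], fun p => ?_⟩
    show η (K B (γ p.2) (w (β₁ (u p.1)))) = L (u p.2) (u p.1)
    have h2 : γ p.2 = β₀ (u p.2) := by
      rw [hγA _ p.2.2, hgu _ p.2.2]
      rfl
    rw [hLK _ (Finset.mem_image_of_mem u p.2.2) _ (Finset.mem_image_of_mem u p.1.2), h2]
  have h3 := (hJ.can_iff hmem' hcan' hinc).1 hU'
  rw [hval'] at h3
  exact absurd h3 (by decide)

end Pool.Agent.MP_f99268_lc
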