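import Pool.Agent.Lib.MP_f99268_lc_X.C2A
import Pool.Agent.Lib.MP_f99268_lc_X.C2B

/-!
# Operations that separate inner copies from far copies
-/

namespace Pool.Agent.MP_f99268_lc

open Equiv Classical Filter

variable {D : Type} [Countable D] {X : Ctx D} {r : ℕ} {A : Finset D} {J : D → D → D}

/-- The index version of `IsL.near`. -/
private theorem C2_near_fin {H : D → D → D} {K : Finset D → D → D → D} {c : Finset D}
    {L : D → D → D} (hL : IsL X H K c L) {β α : Type} [Finite β] [Finite α] (x : β → D)
    (y : α → D) (hy : ∀ a, y a ∈ c) :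
    Orb X.G ∅ (fun p : β × α => L (x p.1) (y p.2)) (fun p => H (x p.1) (y p.2)) := by
  obtain ⟨n, ⟨f⟩⟩ := Finite.exists_equiv_fin β
  have := (hL.near n (fun l => x (f.symm l)) α y hy).comp (fun p : β × α => (f p.1, p.2))
  simpa using this

/-- C2: in the bad situation for every finite `c` there is `g ∈ 𝔼` such that `U(g)` contains all
copies inside `c` and no copy in canonical position over `c`. Let `g s t = L (u s) t` where
`u = X.w c` is an embedding with `CanU ∅ c u`. `g ∈ 𝔼`: `hL.can` and `CanU ∅ c u`. It is canonical
over `c`, and `val g = val L = 1` (`X.val_box` with `u 0 = u`, `u 1 = id`, `c₀ = c`). The last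
statement is `IsJ.far_iff`. For a copy `e` inside `c` the family `g (s, e a) = L (u s, e a)` has
the type of `H (u s, e a)` (`hL.near`), which has the type of `H (s, e a)` (`H` is canonical, `u`
an embedding), so `e ∈ U(g) ↔ e ∈ U(H)` (`IsJ.congr`), and `e ∈ U(H)` by `IsJ.can_iff`. -/
theorem Bad.C2 (hJ : IsJ X r A J) {H : D → D → D} {K : Finset D → D → D → D}
    (hb : Bad X H K) (c : Finset D) : ∃ g, EE X g ∧
      (∀ e, IsCopy X.G A e → (∀ a, e a ∈ c) → e ∈ US X A J g) ∧
      ∀ e, CanC X.G A c e → e ∉ US X A J g := by
  obtain ⟨L, hL⟩ := hb.exists_L c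
  have hval := hL.val_eq hJ hb
  obtain ⟨u, hu, huc⟩ : ∃ u : D → D, Emb X.G u ∧ CanU X.G ∅ c u := X.exists_w c
  have hEu : ∀ j : Fin 2, Emb X.G ((fun j : Fin 2 => if j = 0 then u else id) j) := by
    intro j
    by_cases hj : j = 0
    · simp only [hj, if_true]
      exact hu
    · simp only [hj, if_false]
      exact Emb.of_mem (g := 1) X.G.one_mem
  have hCu : ∀ j : Fin 2, CanU X.G c c ((fun j : Fin 2 => if j = 0 then u else id) j) := by
    intro j
    by_cases hj : j = 0
    · simp only [hj, if_true]
      intro m x y hxy
      exact huc m x y (hxy.mono (Finset.empty_subset _))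
    · simp only [hj, if_false]
      intro m x y hxy
      exact hxy
  have hfun : (fun x : Fin 2 → D => bin L (fun j => (fun j : Fin 2 => if j = 0 then u else id) j
      (x j))) = bin (fun s t => L (u s) t) := by
    funext x
    simp [bin]
  have hmem : bin (fun s t => L (u s) t) ∈ X.C 2 := by
    rw [← hfun]
    exact X.hC.comp_emb hL.mem hEu
  have hcan : Can X.G c ∅ (bin (fun s t => L (u s) t)) := by
    rw [← hfun]
    exact hL.can.comp_canU hCu
  have hvg : X.val 1 (bin (fun s t => L (u s) t)) = 1 := by
    rw [← hfun, ← hval]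
    exact X.val_box hL.mem hL.can hEu hCu
  have hE : EE X (fun s t => L (u s) t) := by
    refine ⟨hmem, ?_⟩
    intro α _ t m s s' hs
    have h1 : Orb X.G c (fun l => u (s l)) (fun l => u (s' l)) := huc m s s' hs
    have h2 := hL.can.fin (α := Fin m × α)
      (fun j p => if j = 0 then u (s p.1) else t p.2)
      (fun j p => if j = 0 then u (s' p.1) else t p.2) (by
        intro j
        by_cases hj : j = 0
        · simp only [hj, if_true]
          exact h1.comp (fun p : Fin m × α => p.1)
        · simp only [hj, if_false]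
          exact Orb.refl _)
    simpa [bin, fam] using h2
  refine ⟨fun s t => L (u s) t, hE, ?_, ?_⟩
  · intro e he hec
    have hEH : EE X H := EE.of_can hb.mem hb.can
    refine (hJ.congr hE hEH (e' := e) ?_).2 ((hJ.can_iff hb.mem hb.can he).2 hb.val)
    have h1 := C2_near_fin hL (fun a : {a // a ∈ A} => u a) e hec
    refine h1.trans ?_
    have h2 := hb.can.fin (α := {a // a ∈ A} × {a // a ∈ A})
      (fun j p => if j = 0 then u p.1 else e p.2)
      (fun j p => if j = 0 then (p.1 : D) else e p.2) (by
        intro j
        by_cases hj : j = 0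
        · simp only [hj, if_true]
          exact (hu.orb (fun p : {a // a ∈ A} × {a // a ∈ A} => (p.1 : D))).symm
        · simp only [hj, if_false]
          exact Orb.refl _)
    simpa [bin] using h2
  · intro e he hmem'
    have := (hJ.far_iff hE hcan he).1 hmem'
    rw [hvg] at this
    exact absurd this (by decide)

end Pool.Agent.MP_f99268_lc
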