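import Pool.Agent.Lib.MP_f99268_lc_X.C2D

/-!
# Existence of the limit operation
-/

namespace Pool.Agent.MP_f99268_lc

open Equiv Classical Filter

variable {D : Type} [Countable D] {X : Ctx D} {r : ℕ} {A : Finset D} {J : D → D → D}

private theorem C2A_eta (x : Fin 2 → D) : (![x 0, x 1] : Fin 2 → D) = x := by
  funext j
  fin_cases j <;> rfl

private theorem C2A_id (G : Subgroup (Perm D)) : Emb G (id : D → D) :=
  fun _ => ⟨1, G.one_mem, fun _ _ => rfl⟩

/-- The limit of the operations `K B (x, w B y)`. -/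
private theorem C2A_lim {K : Finset D → D → D → D} (c : Finset D) :
    ∃ F : (Fin 2 → D) → D, ∀ S : Finset D, ∃ B : Finset D, c ⊆ B ∧ S ⊆ B ∧
      ∃ w : D → D, Emb X.G w ∧ CanU X.G c B w ∧ (∀ y ∈ c, w y = y) ∧ ∃ η ∈ X.G,
        ∀ x : Fin 2 → D, (∀ j, x j ∈ S) → F x = η (K B (x 0) (w (x 1))) := by
  obtain ⟨E, hE1, hE2⟩ := exists_exhaustion D
  let P : ℕ → ((Fin 2 → D) → D) → Prop := fun n F => ∃ B : Finset D, c ⊆ B ∧ E n ⊆ B ∧
    ∃ w : D → D, Emb X.G w ∧ CanU X.G c B w ∧ (∀ y ∈ c, w y = y) ∧ ∃ η ∈ X.G,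
      ∀ x : Fin 2 → D, (∀ j, x j ∈ E n) → F x = η (K B (x 0) (w (x 1)))
  obtain ⟨F, hF⟩ := compactness (fun n => Fintype.piFinset fun _ : Fin 2 => E n)
    (fun n x hx => by
      rw [Fintype.mem_piFinset] at hx ⊢
      exact fun i => hE1 n (hx i))
    (fun x => by
      obtain ⟨n, hn⟩ := hE2 (Finset.univ.image x)
      refine ⟨n, ?_⟩
      rw [Fintype.mem_piFinset]
      exact fun i => hn (Finset.mem_image_of_mem _ (Finset.mem_univ _)))
    X.G X.hO P
    (by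
      rintro n f f' hff' ⟨B, hc, hB, w, hw1, hw2, hw3, η, hη, h⟩
      refine ⟨B, hc, hB, w, hw1, hw2, hw3, η, hη, fun x hx => ?_⟩
      rw [← hff' x (by rw [Fintype.mem_piFinset]; exact hx)]
      exact h x hx)
    (by
      rintro n f ⟨B, hc, hB, w, hw1, hw2, hw3, η, hη, h⟩
      exact ⟨B, hc, (hE1 n).trans hB, w, hw1, hw2, hw3, η, hη,
        fun x hx => h x (fun j => hE1 n (hx j))⟩)
    (by
      rintro n f g hg ⟨B, hc, hB, w, hw1, hw2, hw3, η, hη, h⟩
      exact ⟨B, hc, hB, w, hw1, hw2, hw3, g * η, X.G.mul_mem hg hη,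
        fun x hx => congrArg g (h x hx)⟩)
    (by
      intro n
      obtain ⟨w, hw1, hw2, hw3⟩ := exists_emb X.hR X.hO c (c ∪ E n) 1 X.G.one_mem
        (fun a ha => Finset.mem_union_left _ ha)
      exact ⟨fun x => K (c ∪ E n) (x 0) (w (x 1)), c ∪ E n, Finset.subset_union_left,
        Finset.subset_union_right, w, hw1, hw2, hw3, 1, X.G.one_mem, fun x _ => rfl⟩)
  refine ⟨F, fun S => ?_⟩
  obtain ⟨n, hn⟩ := hE2 S
  obtain ⟨B, hc, hB, w, hw1, hw2, hw3, η, hη, h⟩ := hF n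
  exact ⟨B, hc, hn.trans hB, w, hw1, hw2, hw3, η, hη, fun x hx => h x (fun j => hn (hx j))⟩

/-- Existence of `L`. Take an exhaustion `E n` of `D` and apply `compactness` to the functions
`F : (Fin 2 → D) → D`, the group `X.G` and `P n F := ∃ B, c ⊆ B ∧ E n ⊆ B ∧ ∃ w, Emb X.G w ∧
CanU X.G c B w ∧ (∀ y ∈ c, w y = y) ∧ ∃ η ∈ X.G, ∀ x, (∀ j, x j ∈ E n) →
F x = η (K B (x 0) (w (x 1)))`; it is satisfiable with `B = c ∪ E n` and `w` from `exists_emb`.
Let `F` be the limit and let `L` be its canonisation over `c`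
(`canonise_one X.hR X.hO c ∅ F`): for finite `S` there are `β 0, β 1 ∈ st X.G c`, `η ∈ G` with
`L (x, y) = η (F (β 0 x, β 1 y))` for `x, y ∈ S`. Membership in `X.C 2` as usual
(`X.hC.closed`, `X.hC.local`, `comp_emb`). `adh`: apply `P n` for an `E n` that contains
`β 0 '' S ∪ β 1 '' S ∪ c`. `near`: by `adh` for a finite set `S` that contains the values of `x`
and `c` the family `L (x_l, y_a)` has the type of `K B (β₀ x_l, w (β₁ y_a))`, and
`w (β₁ y_a) = y_a ∈ c ⊆ B`, `β₀ x_l ∈ B`, so this is `H (β₀ x_l, y_a)`, which has the type of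
`H (x_l, y_a)` as `H` is canonical. -/
theorem Bad.exists_L {H : D → D → D} {K : Finset D → D → D → D} (hb : Bad X H K) (c : Finset D) :
    ∃ L, IsL X H K c L := by
  obtain ⟨F, hF⟩ := C2A_lim (X := X) (K := K) c
  have hFC : F ∈ X.C 2 := by
    apply X.hC.closed
    intro S
    obtain ⟨B, hc, hB, w, hw1, hw2, hw3, η, hη, h⟩ := hF S
    have h1 : (fun x : Fin 2 → D => bin (K B) (fun j => (![id, w] : Fin 2 → D → D) j (x j))) ∈
        X.C 2 := by
      apply X.hC.comp_emb (hb.memK B)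
      intro j
      fin_cases j
      · exact C2A_id X.G
      · exact hw1
    exact ⟨_, X.hC.aut_comp h1 hη, h⟩
  obtain ⟨L, hL1, hL2⟩ := canonise_one X.hR X.hO c ∅ F
  have hLC : L ∈ X.C 2 := by
    apply X.hC.local hFC
    intro S
    obtain ⟨β, hβ, η, hη, h⟩ := hL1 S
    exact ⟨β, fun i => st_le (hβ i), η, st_le hη, h⟩
  have hbin : bin (fun s t => L ![s, t]) = L := by
    funext x
    show L ![x 0, x 1] = L x
    rw [C2A_eta]
  have hadh : ∀ S : Finset D, ∃ β₀ ∈ st X.G c, ∃ β₁ ∈ st X.G c, ∃ B : Finset D, c ⊆ B ∧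
      (∀ s ∈ S, β₀ s ∈ B) ∧ ∃ w : D → D, Emb X.G w ∧ CanU X.G c B w ∧ (∀ y ∈ c, w y = y) ∧
        ∃ η ∈ X.G, ∀ x ∈ S, ∀ y ∈ S, L ![x, y] = η (K B (β₀ x) (w (β₁ y))) := by
    intro S
    obtain ⟨β, hβ, η₁, hη₁, h₁⟩ := hL1 S
    obtain ⟨B, hc, hB, w, hw1, hw2, hw3, η, hη, h⟩ := hF (S.image (β 0) ∪ S.image (β 1))
    refine ⟨β 0, hβ 0, β 1, hβ 1, B, hc, fun s hs => hB (Finset.mem_union_left _
      (Finset.mem_image_of_mem _ hs)), w, hw1, hw2, hw3, η₁ * η, X.G.mul_mem (st_le hη₁) hη, ?_⟩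
    intro x hx y hy
    have e1 := h₁ ![x, y] (fun j => by
      fin_cases j
      · exact hx
      · exact hy)
    have e2 := h (fun j => β j ((![x, y] : Fin 2 → D) j)) (fun j => by
      fin_cases j
      · exact Finset.mem_union_left _ (Finset.mem_image_of_mem _ hx)
      · exact Finset.mem_union_right _ (Finset.mem_image_of_mem _ hy))
    rw [e1, e2]
    rfl
  refine ⟨fun s t => L ![s, t], ⟨?_, ?_, ?_, hadh⟩⟩
  · rw [hbin]
    exact hLC
  · rw [hbin]
    exact hL2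
  · intro m x α _ y hy
    obtain ⟨β₀, hβ₀, β₁, hβ₁, B, hc, hS, w, hw1, hw2, hw3, η, hη, h⟩ :=
      hadh (Finset.univ.image x ∪ c)
    have e : (fun p : Fin m × α => L ![x p.1, y p.2]) =
        fun p => η (H (β₀ (x p.1)) (y p.2)) := by
      funext p
      have hx : x p.1 ∈ Finset.univ.image x ∪ c := Finset.mem_union_left _
        (Finset.mem_image_of_mem _ (Finset.mem_univ _))
      rw [h _ hx _ (Finset.mem_union_right _ (hy p.2)), (mem_st.1 hβ₁).2 _ (hy p.2),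
        hw3 _ (hy p.2), hb.eqK B _ (hS _ hx) _ (hc (hy p.2))]
    show Orb X.G ∅ (fun p : Fin m × α => L ![x p.1, y p.2]) (fun p => H (x p.1) (y p.2))
    rw [e]
    refine (Orb.of_mem (by rw [st_empty]; exact hη) _).symm.trans ?_
    exact hb.can.fin (α := Fin m × α) (fun j p => (![β₀ (x p.1), y p.2] : Fin 2 → D) j)
      (fun j p => (![x p.1, y p.2] : Fin 2 → D) j) (fun j => by
        fin_cases j
        · exact (Orb.of_mem (by rw [st_empty]; exact st_le hβ₀) (fun p : Fin m × α => x p.1)).symm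
        · exact Orb.refl _)

end Pool.Agent.MP_f99268_lc
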