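import Pool.Agent.Lib.MP_f99268_lc_X.Jop

/-!
# Discontinuity of the value gives operations that separate inner copies from far copies
-/

namespace Pool.Agent.MP_f99268_lc

open Equiv Classical Filter

variable {D : Type} [Countable D] {X : Ctx D} {r : ℕ} {A : Finset D} {J : D → D → D}

/-- The bad situation: `H` is canonical of value `0`, `K B` is canonical over `B`, equal to `H` on
`B`, of value `1`. -/
structure Bad (X : Ctx D) (H : D → D → D) (K : Finset D → D → D → D) : Prop where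
  mem : bin H ∈ X.C 2
  can : Can X.G ∅ ∅ (bin H)
  val : X.val 1 (bin H) = 0
  memK : ∀ B, bin (K B) ∈ X.C 2
  canK : ∀ B, Can X.G B ∅ (bin (K B))
  eqK : ∀ B, ∀ x ∈ B, ∀ y ∈ B, K B x y = H x y
  valK : ∀ B, X.val 1 (bin (K B)) = 1

/-- The limit operation `L` for a finite set `c`: for every finite `B ⊇ c` let `w B` be an
embedding with `CanU c B (w B)`, the identity on `c` (`exists_emb` with `1`). -/
structure IsL (X : Ctx D) (H : D → D → D) (K : Finset D → D → D → D) (c : Finset D)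
    (L : D → D → D) : Prop where
  mem : bin L ∈ X.C 2
  can : Can X.G c ∅ (bin L)
  near : ∀ (m : ℕ) (x : Fin m → D) (α : Type) [Finite α] (y : α → D), (∀ a, y a ∈ c) →
    Orb X.G ∅ (fun p : Fin m × α => L (x p.1) (y p.2)) (fun p => H (x p.1) (y p.2))
  adh : ∀ S : Finset D, ∃ β₀ ∈ st X.G c, ∃ β₁ ∈ st X.G c, ∃ B : Finset D, c ⊆ B ∧
    (∀ s ∈ S, β₀ s ∈ B) ∧ ∃ w : D → D, Emb X.G w ∧ CanU X.G c B w ∧ (∀ y ∈ c, w y = y) ∧
      ∃ η ∈ X.G, ∀ x ∈ S, ∀ y ∈ S, L x y = η (K B (β₀ x) (w (β₁ y)))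

end Pool.Agent.MP_f99268_lc
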