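import Pool.Agent.Lib.MP_f99268_lc_X.T1

/-!
# Every copy is generated by finitely many far copies
-/

namespace Pool.Agent.MP_f99268_lc

open Equiv Classical Filter

variable {D : Type} [Countable D] {X : Ctx D} {r : ℕ} {A : Finset D} {J : D → D → D}

/-- C3: let `u` be a canonical position over `c`, let `b` be a copy. Then there are finitely many
copies `z` in the position of `u A` over `c` such that `b` is in every `U(f)`, `f ∈ 𝔼`, that
contains them.

Suppose not. Let `c' = c ∪ rng b`, `P e` iff `Orb X.G c (u|A) e`, `Q e` iff `e = b`; these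
conditions are invariant under `st X.G c'`. For every finite `S` the finite set of the `e` inside
`S` with `P e` is contained in some `U(f)` with `b ∉ U(f)`. `IsJ.exists_lim` gives `f ∈ 𝔼`
canonical over `c'` with `b ∉ U(f)` and `e ∈ U(f)` for all copies `e` with `P e`. Let `v` be the
result of `exists_emb X.hR X.hO c c' 1`: `v` is the identity on `c`, `CanU c c' v`. Then `v ∘ u` is
an embedding, canonical over `c'`, and `(v ∘ u)|A` is in the position of `u A` over `c` (`v` agrees
on the finite set `c ∪ u A` with an element of `G`, which fixes `c`). So it is in `U(f)`, and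
`IsJ.far_iff` gives `val f = 0`. By T1 `b ∈ U(f)`, a contradiction. -/
theorem IsJ.C3 (hJ : IsJ X r A J) {c : Finset D} {u : D → D} (hu : Emb X.G u)
    (huc : CanU X.G ∅ c u) {b : {a // a ∈ A} → D} (hb : IsCopy X.G A b) :
    ∃ F : Finset ({a // a ∈ A} → D), (∀ z ∈ F, Orb X.G c (fun a : {a // a ∈ A} => u a) z) ∧
      ∀ f, EE X f → (∀ z ∈ F, z ∈ US X A J f) → b ∈ US X A J f := by
  by_contra hcon
  push Not at hcon
  have hbr : ∀ a, b a ∈ rng b := fun a => Finset.mem_image_of_mem _ (Finset.mem_univ a)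
  have key := hJ.exists_lim (c ∪ rng b)
    (fun e => Orb X.G c (fun a : {a // a ∈ A} => u a) e) (fun e => e = b)
    (fun β hβ e he => he.trans (Orb.of_mem (st_mono Finset.subset_union_left hβ) e))
    (fun β hβ e he => by
      subst he
      funext a
      exact (mem_st.1 hβ).2 _ (Finset.mem_union_right _ (hbr a)))
    (fun S => by
      obtain ⟨f, hf, hf1, hf2⟩ := hcon
        ((Fintype.piFinset fun _ : {a // a ∈ A} => S).filter
          fun e => Orb X.G c (fun a : {a // a ∈ A} => u a) e)
        (fun z hz => (Finset.mem_filter.1 hz).2)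
      refine ⟨f, hf, fun e _ heS => ⟨fun he => hf1 e ?_, fun he => ?_⟩⟩
      · exact Finset.mem_filter.2 ⟨Fintype.mem_piFinset.2 heS, he⟩
      · rw [he]
        exact hf2)
  obtain ⟨f, hf, hcan, hf'⟩ := key
  obtain ⟨v, hv1, hv2, hv3⟩ := exists_emb X.hR X.hO c (c ∪ rng b) 1 X.G.one_mem
    (fun a ha => Finset.mem_union_left _ ha)
  have hE : Emb X.G (fun x => v (u x)) := by
    intro B
    obtain ⟨g, hg, h⟩ := hu B
    obtain ⟨g', hg', h'⟩ := hv1 (B.image u)
    refine ⟨g' * g, X.G.mul_mem hg' hg, fun a ha => ?_⟩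
    show v (u a) = g' (g a)
    rw [h' _ (Finset.mem_image_of_mem _ ha), h a ha]
  have hC : CanC X.G A (c ∪ rng b) (fun a : {a // a ∈ A} => v (u a)) :=
    ⟨fun x => v (u x), hE, fun m x y hxy => hv2 m _ _ (huc m x y hxy), fun _ => rfl⟩
  have hP : Orb X.G c (fun a : {a // a ∈ A} => u a) (fun a : {a // a ∈ A} => v (u a)) := by
    obtain ⟨g, hg, h⟩ := hv1 (c ∪ A.image u)
    refine ⟨g, mem_st.2 ⟨hg, fun a ha => ?_⟩, fun a => ?_⟩
    · rw [← h a (Finset.mem_union_left _ ha), hv3 a ha]
      rfl
    · exact (h _ (Finset.mem_union_right _ (Finset.mem_image_of_mem _ a.2))).symm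
  have h0 := (hJ.far_iff hf hcan hC).1 ((hf' _ hC.copy).1 hP)
  exact (hf' b hb).2 rfl (hJ.T1 hf hcan h0 hb)

end Pool.Agent.MP_f99268_lc
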