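import Pool.Agent.Lib.MP_f99268_lc_X.Jop

/-!
# Doubling: from one good rule to a block over which `A` is canonical
-/

namespace Pool.Agent.MP_f99268_lc

open Equiv Classical

variable {D : Type} [Countable D] {X : Ctx D} {r : ℕ} {A : Finset D} {J : D → D → D}

/-- The copy `b` is in the closure of the copies inside `c` and the copies in `F`. -/
def InCl (X : Ctx D) (A : Finset D) (J : D → D → D) (c : Finset D)
    (F : Finset ({a // a ∈ A} → D)) (b : {a // a ∈ A} → D) : Prop :=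
  ∀ f, EE X f → (∀ e, IsCopy X.G A e → (∀ a, e a ∈ c) → e ∈ US X A J f) →
    (∀ z ∈ F, z ∈ US X A J f) → b ∈ US X A J f

/-- A good rule: `A` is in the closure of the copies inside `c` and the copies in `F`, and some
embedding `v` that is the identity on `A` is canonical over `c ∪ rng z` for every single
`z ∈ F`. -/
def GoodRule (X : Ctx D) (A : Finset D) (J : D → D → D) : Prop :=
  ∃ (c : Finset D) (F : Finset ({a // a ∈ A} → D)), (∀ z ∈ F, IsCopy X.G A z) ∧
    InCl X A J c F (inc A) ∧ ∃ v : D → D, Emb X.G v ∧ (∀ a ∈ A, v a = a) ∧ CanU X.G ∅ c v ∧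
      ∀ z ∈ F, CanU X.G ∅ (c ∪ rng z) v

/-- `A` is in canonical position over `W`. -/
def KK (G : Subgroup (Perm D)) (A W : Finset D) : Prop :=
  ∃ u : D → D, Emb G u ∧ CanU G ∅ W u ∧ ∀ a ∈ A, u a = a

/-- Locality of the canonical position. -/
def Loc (G : Subgroup (Perm D)) (A : Finset D) (r : ℕ) : Prop :=
  ∀ V : Finset D, (∀ V' ⊆ V, V'.card ≤ r → KK G A V') → KK G A V

theorem KK.mono {G : Subgroup (Perm D)} {W W' : Finset D} (h : W' ⊆ W) (hW : KK G A W) :
    KK G A W' := by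
  obtain ⟨u, h1, h2, h3⟩ := hW
  exact ⟨u, h1, fun m x y hxy => (h2 m x y hxy).mono h, h3⟩

theorem KK.empty {G : Subgroup (Perm D)} : KK G A ∅ :=
  ⟨fun a => a, fun _ => ⟨1, G.one_mem, fun _ _ => rfl⟩, fun _ _ _ h => h, fun _ _ => rfl⟩

/-- If `u` is canonical over `W ∪ Y` and `v` is the identity on `W` and canonical from `Y` to
`Z`, then `v ∘ u` is canonical over `W ∪ Z`. Let `x ~ x'`. Then `u x ~ u x'` over `W ∪ Y`, so the
tuples `(w, u x)` and `(w, u x')`, where `w` lists `W`, have the same type over `Y` (index set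
`{w // w ∈ W} ⊕ Fin m`, the same group element works); hence `(v w, v u x) ~ (v w, v u x')` over
`Z` (`CanU.fin`), and `v w = w`. So some `g ∈ st G Z` fixes the points of `W` and maps `v u x` to
`v u x'`. -/
theorem canU_comp {G : Subgroup (Perm D)} {u v : D → D} {W Y Z : Finset D}
    (hu : CanU G ∅ (W ∪ Y) u) (hv : CanU G Y Z v) (hW : ∀ w ∈ W, v w = w) :
    CanU G ∅ (W ∪ Z) (fun a => v (u a)) := by
  intro m x y hxy
  obtain ⟨g, hg, hgx⟩ := hu m x y hxy
  rw [mem_st] at hg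
  have h1 : Orb G Y (Sum.elim (fun w : {w // w ∈ W} => (w : D)) (fun l => u (x l)))
      (Sum.elim (fun w : {w // w ∈ W} => (w : D)) (fun l => u (y l))) := by
    refine ⟨g, mem_st.2 ⟨hg.1, fun a ha => hg.2 a (Finset.mem_union_right _ ha)⟩, ?_⟩
    rintro (w | l)
    · exact hg.2 _ (Finset.mem_union_left _ w.2)
    · exact hgx l
  obtain ⟨k, hk, hkx⟩ := hv.fin _ _ h1
  refine ⟨k, mem_st.2 ⟨(mem_st.1 hk).1, fun a ha => ?_⟩, fun l => hkx (Sum.inr l)⟩
  rcases Finset.mem_union.1 ha with ha | ha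
  · have h2 : k (v a) = v a := hkx (Sum.inl ⟨a, ha⟩)
    rwa [hW a ha] at h2
  · exact (mem_st.1 hk).2 a ha

theorem Emb.comp {G : Subgroup (Perm D)} {u v : D → D} (hv : Emb G v) (hu : Emb G u) :
    Emb G (fun a => v (u a)) := by
  intro B
  obtain ⟨g, hg, h⟩ := hu B
  obtain ⟨g', hg', h'⟩ := hv (B.image u)
  refine ⟨g' * g, G.mul_mem hg' hg, fun a ha => ?_⟩
  show v (u a) = g' (g a)
  rw [h' _ (Finset.mem_image_of_mem _ ha), h a ha]

private theorem ChainA_mono {G : Subgroup (Perm D)} {c₀ c₀' c c' : Finset D} {e : D → D}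
    (h : CanU G c₀ c e) (h₀ : c₀ ⊆ c₀') (h₁ : c' ⊆ c) : CanU G c₀' c' e :=
  fun m x y hxy => (h m x y (hxy.mono h₀)).mono h₁

private theorem ChainA_conj {G : Subgroup (Perm D)} {c₀ c : Finset D} {e : D → D}
    (h : CanU G c₀ c e) {g p : Perm D} (hg : g ∈ G) (hp : p ∈ G) :
    CanU G (c₀.image g) (c.image p) (fun a => p (e (g⁻¹ a))) := by
  intro m x y hxy
  obtain ⟨k, hk, hkx⟩ := hxy
  rw [mem_st] at hk
  have h1 : Orb G c₀ (fun l => g⁻¹ (x l)) (fun l => g⁻¹ (y l)) := by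
    refine ⟨g⁻¹ * k * g, mem_st.2 ⟨G.mul_mem (G.mul_mem (G.inv_mem hg) hk.1) hg,
      fun a ha => ?_⟩, fun l => ?_⟩
    · show g⁻¹ (k (g a)) = a
      rw [hk.2 _ (Finset.mem_image_of_mem _ ha)]
      simp
    · show g⁻¹ (k (g (g⁻¹ (x l)))) = g⁻¹ (y l)
      rw [← hkx l]
      simp
  obtain ⟨q, hq, hqx⟩ := h m _ _ h1
  rw [mem_st] at hq
  refine ⟨p * q * p⁻¹, mem_st.2 ⟨G.mul_mem (G.mul_mem hp hq.1) (G.inv_mem hp),
    fun a ha => ?_⟩, fun l => ?_⟩
  · obtain ⟨b, hb, rfl⟩ := Finset.mem_image.1 ha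
    show p (q (p⁻¹ (p b))) = p b
    have e1 : p⁻¹ (p b) = b := by simp
    rw [e1, hq.2 b hb]
  · show p (q (p⁻¹ (p (e (g⁻¹ (x l)))))) = p (e (g⁻¹ (y l)))
    have e1 : p⁻¹ (p (e (g⁻¹ (x l)))) = e (g⁻¹ (x l)) := by simp
    rw [e1, hqx l]

/-- The good rule in general position. For every copy `y` of `A` and finite `N` there are `c`,
`F`, `v` as in `GoodRule` with `y` in the closure, `v` the identity on `N ∪ rng y`, and `v`
canonical from `rng y` to `rng y ∪ c ∪ ⋃ F`.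

Proof. Let first `y = inc A` and let `c`, `F`, `v` be as in `GoodRule`. Let
`Z = A ∪ c ∪ F.biUnion rng`, let `K` be the result of
`canonise_one X.hR X.hO A Z (fun x : Fin 1 → D => v (x 0))` and `v₁ a = K (fun _ => a)`, so that
`v₁ = η v β` on finite sets, with `β ∈ st G A`, `η ∈ st G Z`. Then `v₁` is an embedding, `v₁ a = a`
for `a ∈ A`, `CanU A Z v₁`, `CanU ∅ c v₁`, `CanU ∅ (c ∪ rng z) v₁` for `z ∈ F` (`η` fixes `c` and
the points of `rng z`, and `v` has these properties). For a finite set `N` let `g ∈ G` agree with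
`v₁` on `N ∪ A` (so `g` fixes the points of `A`); move everything by `g⁻¹`: `v₂ = g⁻¹ ∘ v₁`,
`c₂ = g⁻¹ c`, `F₂ = {g⁻¹ ∘ z | z ∈ F}`. `v₂` is the identity on `N ∪ A`; the closure is
`G`-invariant: if `f ∈ 𝔼` then `fun s t => f s (g⁻¹ t)` is in `𝔼` (`EE.shift`, `US_shift`), and
`g⁻¹ ∘ inc A = inc A`. For a general copy `y = g|A` apply this to `g⁻¹ N` and move everything by
`g` (conjugate `v₂` to `g ∘ v₂ ∘ g⁻¹`). -/
theorem GoodRule.step (h : GoodRule X A J) {y : {a // a ∈ A} → D} (hy : IsCopy X.G A y)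
    (N : Finset D) :
    ∃ (c : Finset D) (F : Finset ({a // a ∈ A} → D)) (v : D → D),
      (∀ z ∈ F, IsCopy X.G A z) ∧ InCl X A J c F y ∧ Emb X.G v ∧ (∀ a ∈ N, v a = a) ∧
      CanU X.G ∅ c v ∧ (∀ z ∈ F, CanU X.G ∅ (c ∪ rng z) v) ∧
      CanU X.G (rng y) (rng y ∪ (c ∪ F.biUnion rng)) v := by
  obtain ⟨c, F, hF, hcl, v, hvE, hvA, hvc, hvF⟩ := h
  obtain ⟨g, hg, hgy⟩ := hy
  obtain ⟨K, hK1, hK2⟩ := canonise_one X.hR X.hO A (A ∪ c ∪ F.biUnion rng)
    (fun x : Fin 1 → D => v (x 0))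
  -- the map `v₁`
  obtain ⟨v₁, hv₁⟩ : ∃ v₁ : D → D, ∀ a, v₁ a = K (fun _ => a) := ⟨_, fun _ => rfl⟩
  have hloc : ∀ B : Finset D, ∃ β ∈ st X.G A, ∃ η ∈ st X.G (A ∪ c ∪ F.biUnion rng),
      ∀ a ∈ B, v₁ a = η (v (β a)) := by
    intro B
    obtain ⟨β, hβ, η, hη, h1⟩ := hK1 B
    exact ⟨β 0, hβ 0, η, hη, fun a ha => (hv₁ a).trans (h1 (fun _ => a) (fun _ => ha))⟩
  have hE₁ : Emb X.G v₁ := by
    intro B
    obtain ⟨β, hβ, η, hη, h1⟩ := hloc B
    obtain ⟨k, hk, hkB⟩ := hvE (B.image β)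
    refine ⟨η * k * β, X.G.mul_mem (X.G.mul_mem (st_le hη) hk) (st_le hβ), fun a ha => ?_⟩
    rw [h1 a ha, hkB _ (Finset.mem_image_of_mem _ ha)]
    rfl
  have hA₁ : ∀ a ∈ A, v₁ a = a := by
    intro a ha
    obtain ⟨β, hβ, η, hη, h1⟩ := hloc A
    rw [h1 a ha, (mem_st.1 hβ).2 a ha, hvA a ha]
    exact (mem_st.1 hη).2 a (Finset.mem_union_left _ (Finset.mem_union_left _ ha))
  have hcan₁ : CanU X.G A (A ∪ c ∪ F.biUnion rng) v₁ := by
    intro m x y hxy
    have h1 := hK2 m (fun _ => x) (fun _ => y) (fun _ => hxy)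
    have e1 : (fun l => v₁ (x l)) = fun l => K (fun _ => x l) := funext fun l => hv₁ (x l)
    have e2 : (fun l => v₁ (y l)) = fun l => K (fun _ => y l) := funext fun l => hv₁ (y l)
    rw [e1, e2]
    exact h1
  have hW₁ : ∀ W : Finset D, W ⊆ A ∪ c ∪ F.biUnion rng → CanU X.G ∅ W v →
      CanU X.G ∅ W v₁ := by
    intro W hW hvW m x y hxy
    obtain ⟨β, hβ, η, hη, h1⟩ := hloc (Finset.univ.image x ∪ Finset.univ.image y)
    have e1 : (fun l => v₁ (x l)) = fun l => η (v (β (x l))) := funext fun l =>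
      h1 _ (Finset.mem_union_left _ (Finset.mem_image_of_mem _ (Finset.mem_univ _)))
    have e2 : (fun l => v₁ (y l)) = fun l => η (v (β (y l))) := funext fun l =>
      h1 _ (Finset.mem_union_right _ (Finset.mem_image_of_mem _ (Finset.mem_univ _)))
    have hβ' : β ∈ st X.G ∅ := st_mono (Finset.empty_subset _) hβ
    have hη' : η ∈ st X.G W := st_mono hW hη
    rw [e1, e2]
    have h2 : Orb X.G ∅ (fun l => β (x l)) (fun l => β (y l)) :=
      ((Orb.of_mem hβ' x).symm.trans hxy).trans (Orb.of_mem hβ' y)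
    exact ((Orb.of_mem hη' _).symm.trans (hvW m _ _ h2)).trans (Orb.of_mem hη' _)
  -- move
  obtain ⟨k, hk, hkB⟩ := hE₁ (N.image (g⁻¹ : Perm D) ∪ A)
  have hkA : ∀ a ∈ A, k⁻¹ a = a := by
    intro a ha
    have h1 := hkB a (Finset.mem_union_right _ ha)
    rw [hA₁ a ha] at h1
    rw [Perm.inv_eq_iff_eq]
    exact h1
  have hp : g * k⁻¹ ∈ X.G := X.G.mul_mem hg (X.G.inv_mem hk)
  obtain ⟨p, hpdef⟩ : ∃ p : Perm D, p = g * k⁻¹ := ⟨_, rfl⟩
  rw [← hpdef] at hp
  have hpA : ∀ a ∈ A, p a = g a := by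
    intro a ha
    rw [hpdef]
    show g (k⁻¹ a) = g a
    rw [hkA a ha]
  have hrng : ∀ z : {a // a ∈ A} → D, rng (fun a => p (z a)) ⊆ (rng z).image p := by
    intro z t ht
    obtain ⟨a, -, rfl⟩ := Finset.mem_image.1 ht
    exact Finset.mem_image_of_mem _ (Finset.mem_image_of_mem _ (Finset.mem_univ _))
  have hempty : (∅ : Finset D).image g = ∅ := Finset.image_empty _
  refine ⟨c.image p, F.image (fun z a => p (z a)), fun a => p (v₁ (g⁻¹ a)), ?_, ?_, ?_, ?_, ?_,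
    ?_, ?_⟩
  · intro z hz
    obtain ⟨z', hz', rfl⟩ := Finset.mem_image.1 hz
    obtain ⟨q, hq, hqz⟩ := hF z' hz'
    refine ⟨p * q, X.G.mul_mem hp hq, fun a => ?_⟩
    show p (z' a) = p (q a)
    rw [hqz a]
  · intro f hf hfc hfF
    have h1 := hcl (fun s t => f s (p t)) (hf.shift hp) ?_ ?_
    · have h2 : (fun a => p (inc A a)) ∈ US X A J f := h1
      have e1 : (fun a : {a // a ∈ A} => p (inc A a)) = y := by
        funext a
        rw [hgy a]
        exact hpA a a.2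
      rwa [e1] at h2
    · intro e he hec
      obtain ⟨q, hq, hqe⟩ := he
      refine hfc (fun a => p (e a)) ⟨p * q, X.G.mul_mem hp hq, fun a => ?_⟩
        (fun a => Finset.mem_image_of_mem _ (hec a))
      show p (e a) = p (q a)
      rw [hqe a]
    · intro z hz
      exact hfF _ (Finset.mem_image_of_mem _ hz)
  · exact (Emb.of_mem hp).comp (hE₁.comp (Emb.of_mem (X.G.inv_mem hg)))
  · intro a ha
    have h1 := hkB (g⁻¹ a) (Finset.mem_union_left _ (Finset.mem_image_of_mem _ ha))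
    show p (v₁ (g⁻¹ a)) = a
    rw [h1, hpdef]
    simp
  · have h1 := ChainA_conj (hW₁ c (fun t ht => Finset.mem_union_left _
      (Finset.mem_union_right _ ht)) hvc) hg hp
    rwa [hempty] at h1
  · intro z hz
    obtain ⟨z', hz', rfl⟩ := Finset.mem_image.1 hz
    have h1 := ChainA_conj (hW₁ (c ∪ rng z') (fun t ht => by
      rcases Finset.mem_union.1 ht with ht | ht
      · exact Finset.mem_union_left _ (Finset.mem_union_right _ ht)
      · exact Finset.mem_union_right _ (Finset.mem_biUnion.2 ⟨z', hz', ht⟩))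
      (hvF z' hz')) hg hp
    rw [hempty] at h1
    refine ChainA_mono h1 subset_rfl (fun t ht => ?_)
    rw [Finset.image_union]
    rcases Finset.mem_union.1 ht with ht | ht
    · exact Finset.mem_union_left _ ht
    · exact Finset.mem_union_right _ (hrng z' ht)
  · refine ChainA_mono (ChainA_conj hcan₁ hg hp) (fun t ht => ?_) (fun t ht => ?_)
    · obtain ⟨a, ha, rfl⟩ := Finset.mem_image.1 ht
      rw [← hgy ⟨a, ha⟩]
      exact Finset.mem_image_of_mem _ (Finset.mem_univ _)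
    · rcases Finset.mem_union.1 ht with ht | ht
      · obtain ⟨a, -, rfl⟩ := Finset.mem_image.1 ht
        rw [hgy a, ← hpA a a.2]
        exact Finset.mem_image_of_mem _ (Finset.mem_union_left _
          (Finset.mem_union_left _ a.2))
      · rcases Finset.mem_union.1 ht with ht | ht
        · obtain ⟨b, hb, rfl⟩ := Finset.mem_image.1 ht
          exact Finset.mem_image_of_mem _ (Finset.mem_union_left _
            (Finset.mem_union_right _ hb))
        · obtain ⟨z, hz, ht⟩ := Finset.mem_biUnion.1 ht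
          obtain ⟨z', hz', rfl⟩ := Finset.mem_image.1 hz
          obtain ⟨b, hb, rfl⟩ := Finset.mem_image.1 (hrng z' ht)
          exact Finset.mem_image_of_mem _ (Finset.mem_union_right _
            (Finset.mem_biUnion.2 ⟨z', hz', hb⟩))

end Pool.Agent.MP_f99268_lc
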