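import Pool.Agent.Lib.MP_f99268_lc.Hom

/-!
# Closure operators on copies: definitions

`G` is a group of permutations of `D`, `A` is a finite set. A copy of `A` is a map from `A` to `D`
that is the restriction of an element of `G`.
-/

namespace Pool.Agent.MP_f99268_lc

open Equiv Classical

variable {D : Type}

/-- Types of tuples are determined by the types of their subtuples of length `r`. -/
def LO (G : Subgroup (Perm D)) (r : ℕ) : Prop :=
  ∀ (α : Type) [Finite α] (x y : α → D),
    (∀ s : Fin r → α, Orb G ∅ (fun k => x (s k)) (fun k => y (s k))) → Orb G ∅ x y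

/-- Every type of `r`-tuples is realised in `A`. -/
def Rich (G : Subgroup (Perm D)) (r : ℕ) (A : Finset D) : Prop :=
  ∀ x : Fin r → D, ∃ g ∈ G, ∀ i, g (x i) ∈ A

/-- Group form of finite boundedness: every consistent assignment of types to the `s`-tuples of a
finite set `M` is realised. -/
def FB (G : Subgroup (Perm D)) (s : ℕ) : Prop :=
  ∀ (M : Type) [Finite M] (τ : (Fin s → M) → Fin s → D),
    (∀ (p : Fin s → M) (σ : Fin s → Fin s),
      Orb G ∅ (τ fun i => p (σ i)) (fun i => τ p (σ i))) →
    ∃ f : M → D, ∀ p : Fin s → M, Orb G ∅ (fun i => f (p i)) (τ p)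

/-- A family of unary operations, indexed by `α`. -/
abbrev Fam (D : Type) (α : Type) : Type := D → α → D

/-- The family is canonical in the first variable. -/
def SCan (G : Subgroup (Perm D)) {α : Type} (φ : Fam D α) : Prop :=
  ∀ (m : ℕ) (s s' : Fin m → D), Orb G ∅ s s' →
    Orb G ∅ (fun p : Fin m × α => φ (s p.1) p.2) (fun p => φ (s' p.1) p.2)

/-- The two families have the same types. -/
def FEq (G : Subgroup (Perm D)) {α : Type} (φ ψ : Fam D α) : Prop :=
  ∀ (m : ℕ) (s : Fin m → D),
    Orb G ∅ (fun p : Fin m × α => φ (s p.1) p.2) (fun p => ψ (s p.1) p.2)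

/-- Composition of families. -/
def fcomp {α : Type} (φ ψ : Fam D α) : Fam D α := fun s a => φ (ψ s a) a

/-- A binary operation as an element of the clone. -/
def bin (f : D → D → D) : (Fin 2 → D) → D := fun x => f (x 0) (x 1)

/-- Composition of binary operations in the first variable. -/
def bmul (f g : D → D → D) : D → D → D := fun s t => f (g s t) t

/-- The family of unary operations `f(s, e a)`. -/
def fam {α : Type} (f : D → D → D) (e : α → D) : Fam D α := fun s a => f s (e a)

/-- Members of the clone that are canonical in the first variable, for all constant second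
variables. -/
structure EE [Countable D] (X : Ctx D) (f : D → D → D) : Prop where
  mem : bin f ∈ X.C 2
  sc : ∀ (α : Type) [Finite α] (t : α → D), SCan X.G (fam f t)

/-- Copies of `A`. -/
def IsCopy (G : Subgroup (Perm D)) (A : Finset D) (e : {a // a ∈ A} → D) : Prop :=
  ∃ g ∈ G, ∀ a, e a = g a

/-- Copies of `A` in canonical position over `c`. -/
def CanC (G : Subgroup (Perm D)) (A c : Finset D) (e : {a // a ∈ A} → D) : Prop :=
  ∃ u : D → D, Emb G u ∧ CanU G ∅ c u ∧ ∀ a : {a // a ∈ A}, e a = u a

/-- The range of a finite family. -/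
noncomputable def rng {A : Finset D} (e : {a // a ∈ A} → D) : Finset D := Finset.univ.image e

/-- Inclusion of `A` as a copy. -/
def inc (A : Finset D) : {a // a ∈ A} → D := fun a => a

/-- Hypothesis (Q**) for the set `A`: for every finite set `Y` there are a finite set `c` and a
canonical position `u` over `c` such that for all finitely many copies `z` of `A` in the position
of `u A` over `c` some self-embedding that fixes `Y` pointwise is canonical over each of these
copies. -/
def QSS (G : Subgroup (Perm D)) (A : Finset D) : Prop :=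
  ∀ Y : Finset D, ∃ (c : Finset D) (u : D → D), Emb G u ∧ CanU G ∅ c u ∧
    ∀ F : Finset ({a // a ∈ A} → D), (∀ z ∈ F, Orb G c (fun a : {a // a ∈ A} => u a) z) →
      ∃ v : D → D, Emb G v ∧ (∀ y ∈ Y, v y = y) ∧ ∀ z ∈ F, CanU G ∅ (rng z) v

end Pool.Agent.MP_f99268_lc
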