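import Pool.Agent.Lib.MP_f99268_lc_X.Defs

/-!
# The finite monoid of canonical families of unary operations
-/

namespace Pool.Agent.MP_f99268_lc

open Equiv Classical

variable {D : Type} {G : Subgroup (Perm D)} {α : Type}

theorem SCan.fin {φ : Fam D α} (h : SCan G φ) {β : Type*} [Finite β] (s s' : β → D)
    (hs : Orb G ∅ s s') :
    Orb G ∅ (fun p : β × α => φ (s p.1) p.2) (fun p => φ (s' p.1) p.2) := by
  obtain ⟨n, ⟨e⟩⟩ := Finite.exists_equiv_fin β
  have := (h n (fun l => s (e.symm l)) (fun l => s' (e.symm l)) (hs.comp e.symm)).comp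
    (fun p : β × α => (e p.1, p.2))
  simpa using this

theorem FEq.fin {φ ψ : Fam D α} (h : FEq G φ ψ) {β : Type*} [Finite β] (s : β → D) :
    Orb G ∅ (fun p : β × α => φ (s p.1) p.2) (fun p => ψ (s p.1) p.2) := by
  obtain ⟨n, ⟨e⟩⟩ := Finite.exists_equiv_fin β
  have := (h n (fun l => s (e.symm l))).comp (fun p : β × α => (e p.1, p.2))
  simpa using this

theorem FEq.rfl' (φ : Fam D α) : FEq G φ φ := fun _ _ => Orb.refl _

theorem FEq.symm {φ ψ : Fam D α} (h : FEq G φ ψ) : FEq G ψ φ := fun m s => (h m s).symm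

theorem FEq.trans {φ ψ χ : Fam D α} (h : FEq G φ ψ) (h' : FEq G ψ χ) : FEq G φ χ :=
  fun m s => (h m s).trans (h' m s)

theorem SCan.one : SCan G (fun s _ => s : Fam D α) :=
  fun m _ _ h => h.comp (fun p : Fin m × α => p.1)

theorem SCan.comp [Finite α] {φ ψ : Fam D α} (hφ : SCan G φ) (hψ : SCan G ψ) :
    SCan G (fcomp φ ψ) := by
  intro m s s' h
  have := (hφ.fin (fun p : Fin m × α => ψ (s p.1) p.2) (fun p => ψ (s' p.1) p.2)
    (hψ m s s' h)).comp (fun p : Fin m × α => (p, p.2))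
  exact this

theorem FEq.comp [Finite α] {φ φ' ψ ψ' : Fam D α} (h : FEq G φ φ')
    (hφ' : SCan G φ') (h' : FEq G ψ ψ') : FEq G (fcomp φ ψ) (fcomp φ' ψ') := by
  intro m s
  have h1 := (h.fin (fun p : Fin m × α => ψ (s p.1) p.2)).comp (fun p : Fin m × α => (p, p.2))
  have h2 := (hφ'.fin (fun p : Fin m × α => ψ (s p.1) p.2) (fun p => ψ' (s p.1) p.2)
    (h' m s)).comp (fun p : Fin m × α => (p, p.2))
  exact h1.trans h2

/-- Having the same types. -/
def famSetoid (G : Subgroup (Perm D)) (α : Type) : Setoid {φ : Fam D α // SCan G φ} where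
  r φ ψ := FEq G φ.1 ψ.1
  iseqv := ⟨fun φ => FEq.rfl' φ.1, fun h => h.symm, fun h h' => h.trans h'⟩

/-- The monoid of canonical families modulo having the same types. -/
def FamM (G : Subgroup (Perm D)) (α : Type) : Type := Quotient (famSetoid G α)

instance [Finite α] : Mul (FamM G α) where
  mul := Quotient.map₂ (fun φ ψ => ⟨fcomp φ.1 ψ.1, φ.2.comp ψ.2⟩)
    (fun _ φ' h _ _ h' => h.comp φ'.2 h')

instance : One (FamM G α) where
  one := Quotient.mk (famSetoid G α) ⟨fun s _ => s, SCan.one⟩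

instance [Finite α] : Monoid (FamM G α) where
  mul_assoc := by
    rintro ⟨x⟩ ⟨y⟩ ⟨z⟩
    rfl
  one_mul := by
    rintro ⟨x⟩
    rfl
  mul_one := by
    rintro ⟨x⟩
    rfl

/-- The class of a family. -/
noncomputable def cls (G : Subgroup (Perm D)) (φ : Fam D α) : FamM G α :=
  if h : SCan G φ then Quotient.mk (famSetoid G α) ⟨φ, h⟩ else 1

theorem cls_def {φ : Fam D α} (h : SCan G φ) :
    cls G φ = Quotient.mk (famSetoid G α) ⟨φ, h⟩ := dif_pos h

theorem cls_eq {φ ψ : Fam D α} (hφ : SCan G φ) (hψ : SCan G ψ) :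
    cls G φ = cls G ψ ↔ FEq G φ ψ := by
  rw [cls_def hφ, cls_def hψ]
  exact Quotient.eq (r := famSetoid G α)

theorem cls_mul [Finite α] {φ ψ : Fam D α} (hφ : SCan G φ) (hψ : SCan G ψ) :
    cls G (fcomp φ ψ) = cls G φ * cls G ψ := by
  rw [cls_def hφ, cls_def hψ, cls_def (hφ.comp hψ)]
  rfl

theorem cls_one : cls G (fun s _ => s : Fam D α) = 1 := cls_def SCan.one

theorem exists_cls (x : FamM G α) : ∃ φ : Fam D α, SCan G φ ∧ cls G φ = x := by
  obtain ⟨⟨φ, h⟩⟩ := x
  exact ⟨φ, h, cls_def h⟩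

/-- The class of a canonical family is determined by a finite part. -/
theorem FEq.of_rich {r : ℕ} (hlo : LO G r) {S : Finset D} (hS : Rich G r S) [Finite α]
    {φ ψ : Fam D α} (hφ : SCan G φ) (hψ : SCan G ψ)
    (h : Orb G ∅ (fun p : {s // s ∈ S} × α => φ p.1 p.2) (fun p => ψ p.1 p.2)) :
    FEq G φ ψ := by
  intro m s
  apply hlo
  intro q
  obtain ⟨g, hg, hgS⟩ := hS (fun k => s (q k).1)
  have hs : Orb G ∅ (fun k => s (q k).1) (fun k => g (s (q k).1)) :=
    Orb.of_mem (by rw [st_empty]; exact hg) _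
  have h1 := (hφ.fin _ _ hs).comp (fun k : Fin r => (k, (q k).2))
  have h2 := (hψ.fin _ _ hs).comp (fun k : Fin r => (k, (q k).2))
  have h3 := h.comp (fun k : Fin r => ((⟨g (s (q k).1), hgS k⟩ : {s // s ∈ S}), (q k).2))
  exact (h1.trans h3).trans h2.symm

/-- Finitely many classes of canonical families. -/
theorem finite_famM (hO : Olig G) {r : ℕ} (hlo : LO G r) {S : Finset D} (hS : Rich G r S)
    [Finite α] : Finite (FamM G α) := by
  obtain ⟨T, hT, hT'⟩ := hO.finite ∅ ({s // s ∈ S} × α)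
  have : Finite T := hT
  choose φ hφ hφx using fun x : FamM G α => exists_cls x
  choose g hg hgT using fun x : FamM G α => hT' (fun p : {s // s ∈ S} × α => φ x p.1 p.2)
  apply Finite.of_injective (fun x : FamM G α => (⟨_, hgT x⟩ : T))
  intro x y hxy
  have h1 : (fun i : {s // s ∈ S} × α => g x (φ x i.1 i.2)) = fun i => g y (φ y i.1 i.2) :=
    congrArg Subtype.val hxy
  rw [← hφx x, ← hφx y, cls_eq (hφ x) (hφ y)]
  apply FEq.of_rich hlo hS (hφ x) (hφ y)
  refine (Orb.of_mem (hg x) _).trans (Orb.trans ?_ (Orb.of_mem (hg y) _).symm)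
  show Orb G ∅ (fun i : {s // s ∈ S} × α => g x (φ x i.1 i.2)) _
  rw [h1]
  exact Orb.refl _

end Pool.Agent.MP_f99268_lc
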