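import Pool.Agent.Lib.MP_f99268_lc_X.Defs

/-!
# From continuity of the value to a homomorphism of the whole clone
-/

namespace Pool.Agent.MP_f99268_lc

open Equiv Classical Filter

variable {D : Type}

/-- Continuity of the value. -/
def ContH [Countable D] (X : Ctx D) : Prop :=
  ∀ (k : ℕ) (H : (Fin (k + 1) → D) → D), H ∈ X.C (k + 1) → Can X.G ∅ ∅ H →
    ∀ K : Finset D → (Fin (k + 1) → D) → D, (∀ B, K B ∈ X.C (k + 1)) →
      (∀ B, Can X.G B ∅ (K B)) →
      (∀ B, ∃ η ∈ X.G, ∀ x : Fin (k + 1) → D, (∀ j, x j ∈ B) → H x = η (K B x)) →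
      ∀ᶠ B in (uf D : Filter (Finset D)), X.val k (K B) = X.val k H

namespace Ctx

variable [Countable D] (X : Ctx D)

theorem val_aux' (hcn : ContH X) {k : ℕ} {f f₀ : (Fin (k + 1) → D) → D}
    (hf₀ : f₀ ∈ X.C (k + 1)) (hcan : Can X.G ∅ ∅ f₀) (hadh : Adh X.G f f₀) :
    ∃ β : Finset D → Fin (k + 1) → Perm D,
      ∀ (c : Finset D → Finset D) (φ : Finset D → (Fin (k + 1) → D) → D),
      (∀ B j, ∀ b ∈ B, β B j b ∈ c B) → (∀ B, φ B ∈ X.C (k + 1)) →
      (∀ B, Can X.G (c B) ∅ (φ B)) →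
      (∀ B, ∃ η ∈ X.G, ∀ y : Fin (k + 1) → D, (∀ j, y j ∈ c B) → φ B y = η (f y)) →
      ∀ᶠ B in (uf D : Filter (Finset D)), X.val k (φ B) = X.val k f₀ := by
  choose β hβ η hη h using hadh
  refine ⟨β, fun c φ hc hφ hφcan hφf => ?_⟩
  choose u hu1 hu2 hu3 using fun B j => exists_emb X.hR X.hO B (c B) (β B j) (hβ B j) (hc B j)
  have := hcn _ _ hf₀ hcan (fun B x => φ B (fun j => u B j (x j)))
    (fun B => X.hC.comp_emb (hφ B) (hu1 B)) (fun B => (hφcan B).comp_canU (hu2 B))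
    (fun B => by
      obtain ⟨η', hη', h'⟩ := hφf B
      refine ⟨η B * η'⁻¹, X.G.mul_mem (hη B) (X.G.inv_mem hη'), fun x hx => ?_⟩
      have e : (fun j => u B j (x j)) = fun j => β B j (x j) := by
        funext j
        exact hu3 B j _ (hx j)
      rw [h B x hx, e, h' _ (fun j => hc B j _ (hx j))]
      simp)
  filter_upwards [this] with B hB
  rw [← hB]
  exact (X.val_box (hφ B) (hφcan B) (hu1 B) (hu2 B)).symm

/-- The value of an adherent canonical function does not depend on the choices. -/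
theorem val_wd' (hcn : ContH X) {k : ℕ} {f f₀ f₁ : (Fin (k + 1) → D) → D}
    (hf : f ∈ X.C (k + 1))
    (hf₀ : f₀ ∈ X.C (k + 1)) (hcan : Can X.G ∅ ∅ f₀) (hadh : Adh X.G f f₀)
    (hf₁ : f₁ ∈ X.C (k + 1)) (hcan₁ : Can X.G ∅ ∅ f₁) (hadh₁ : Adh X.G f f₁) :
    X.val k f₀ = X.val k f₁ := by
  obtain ⟨β, hβ⟩ := X.val_aux' hcn hf₀ hcan hadh
  obtain ⟨β₁, hβ₁⟩ := X.val_aux' hcn hf₁ hcan₁ hadh₁
  let c : Finset D → Finset D := fun B =>
    (Finset.univ.biUnion fun j => B.image (β B j)) ∪ (Finset.univ.biUnion fun j => B.image (β₁ B j))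
  have hφ : ∀ B, ∃ φ : (Fin (k + 1) → D) → D, φ ∈ X.C (k + 1) ∧ Can X.G (c B) ∅ φ ∧
      ∃ η ∈ X.G, ∀ y : Fin (k + 1) → D, (∀ j, y j ∈ c B) → φ y = η (f y) := by
    intro B
    obtain ⟨φ, h1, h2⟩ := canonise_one X.hR X.hO (c B) ∅ f
    refine ⟨φ, ?_, h2, ?_⟩
    · apply X.hC.local hf
      intro A
      obtain ⟨γ, hγ, η, hη, h⟩ := h1 A
      exact ⟨γ, fun j => st_le (hγ j), η, st_le hη, h⟩
    · obtain ⟨γ, hγ, η, hη, h⟩ := h1 (c B)
      refine ⟨η, st_le hη, fun y hy => ?_⟩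
      rw [h y hy]
      congr 2
      funext j
      exact (mem_st.1 (hγ j)).2 _ (hy j)
  choose φ hφ1 hφ2 hφ3 using hφ
  have e1 := hβ c φ (fun B j b hb => Finset.mem_union_left _
    (Finset.mem_biUnion.2 ⟨j, Finset.mem_univ _, Finset.mem_image_of_mem _ hb⟩)) hφ1 hφ2 hφ3
  have e2 := hβ₁ c φ (fun B j b hb => Finset.mem_union_right _
    (Finset.mem_biUnion.2 ⟨j, Finset.mem_univ _, Finset.mem_image_of_mem _ hb⟩)) hφ1 hφ2 hφ3
  obtain ⟨B, h1, h2⟩ := (e1.and e2).exists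
  rw [← h1, h2]

theorem hat_eq' (hcn : ContH X) {k : ℕ} {f f₀ : (Fin (k + 1) → D) → D}
    (hf : f ∈ X.C (k + 1)) (hcan : Can X.G ∅ ∅ f₀) (hadh : Adh X.G f f₀) :
    X.hat k f = X.val k f₀ := by
  have h := (X.exists_adh f).choose_spec
  exact X.val_wd' hcn hf (X.mem_of_adh hf h.2) h.1 h.2 (X.mem_of_adh hf hadh) hcan hadh

theorem hat_proj' (hcn : ContH X) (k : ℕ) (i : Fin (k + 1)) :
    X.hat k (fun x => x i) = i := by
  rw [X.hat_eq' hcn (X.hC.proj _ i) (Can.proj X.G ∅ i)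
    (fun A => ⟨fun _ => 1, fun _ => X.G.one_mem, 1, X.G.one_mem, fun x _ => rfl⟩)]
  exact X.val_emb_proj (u := fun a => a) (c₀ := ∅) (c := ∅)
    (fun A => ⟨1, X.G.one_mem, fun _ _ => rfl⟩) (fun m x y h => h) i

theorem hat_comp' (hcn : ContH X) {n m : ℕ} {f : (Fin (n + 1) → D) → D}
    {g : Fin (n + 1) → (Fin (m + 1) → D) → D} (hf : f ∈ X.C (n + 1))
    (hg : ∀ i, g i ∈ X.C (m + 1)) :
    X.hat m (fun x => f (fun i => g i x)) = X.hat m (g (X.hat n f)) := by
  set h : (Fin (m + 1) → D) → D := fun x => f (fun i => g i x) with hh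
  have hhC : h ∈ X.C (m + 1) := X.hC.comp _ _ _ _ hf hg
  obtain ⟨K, hK1, hK2⟩ := canonisation X.hR X.hO ∅ ∅ (Option (Fin (n + 1))) (m + 1)
    (fun o => Option.elim o h g)
  have hKcan : ∀ o, Can X.G ∅ ∅ (K o) := fun o p x y hxy => (hK2 p x y hxy).comp (fun l => (o, l))
  have hKadh : ∀ o, Adh X.G (Option.elim o h g) (K o) := by
    intro o A
    obtain ⟨β, hβ, η, hη, e⟩ := hK1 A
    exact ⟨β, fun j => st_le (hβ j), η, st_le hη, e o⟩
  have hKC : ∀ o, K o ∈ X.C (m + 1) := by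
    intro o
    apply X.mem_of_adh _ (hKadh o)
    cases o with
    | none => exact hhC
    | some i => exact hg i
  have e0 : X.hat m h = X.val m (K none) := X.hat_eq' hcn hhC (hKcan none) (hKadh none)
  have e1 : ∀ i, X.hat m (g i) = X.val m (K (some i)) := fun i =>
    X.hat_eq' hcn (hg i) (hKcan (some i)) (hKadh (some i))
  choose β hβ η hη hloc using hK1
  let c : Finset D → Finset D := fun B =>
    Finset.univ.biUnion fun i : Fin (n + 1) =>
      (Fintype.piFinset fun _ : Fin (m + 1) => B).image (K (some i))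
  have hc : ∀ B i (x : Fin (m + 1) → D), (∀ j, x j ∈ B) → K (some i) x ∈ c B := by
    intro B i x hx
    exact Finset.mem_biUnion.2 ⟨i, Finset.mem_univ _,
      Finset.mem_image_of_mem _ (Fintype.mem_piFinset.2 hx)⟩
  -- the outer functions
  have hF : ∀ B, ∃ F : (Fin (n + 1) → D) → D, F ∈ X.C (n + 1) ∧ Can X.G (c B) ∅ F ∧
      (∃ ζ ∈ X.G, ∀ y : Fin (n + 1) → D, (∀ j, y j ∈ c B) →
        F y = ζ (f (fun i => (η B)⁻¹ (y i)))) ∧ X.val n F = X.hat n f := by
    intro B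
    obtain ⟨F, h1, h2⟩ := canonise_one X.hR X.hO (c B) ∅
      (fun y : Fin (n + 1) → D => f (fun i => (η B)⁻¹ (y i)))
    have hηG : (η B)⁻¹ ∈ X.G := X.G.inv_mem (st_le (hη B))
    have hFC : F ∈ X.C (n + 1) := by
      apply X.hC.local hf
      intro A
      obtain ⟨γ, hγ, ζ, hζ, h⟩ := h1 A
      exact ⟨fun i => (η B)⁻¹ * γ i, fun i => X.G.mul_mem hηG (st_le (hγ i)), ζ, st_le hζ, h⟩
    refine ⟨F, hFC, h2, ?_, ?_⟩
    · obtain ⟨γ, hγ, ζ, hζ, h⟩ := h1 (c B)
      refine ⟨ζ, st_le hζ, fun y hy => ?_⟩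
      rw [h y hy]
      congr 2
      funext i
      exact congrArg _ ((mem_st.1 (hγ i)).2 _ (hy i))
    · have e2 := X.val_box (c₀ := ∅) hFC h2 (fun _ => X.w_emb (c B)) (fun _ => X.w_can (c B))
      rw [← e2]
      symm
      apply X.hat_eq' hcn hf
      · exact h2.comp_canU (fun _ => X.w_can (c B))
      · intro A
        obtain ⟨g', hg', hA⟩ := X.w_emb (c B) A
        obtain ⟨γ, hγ, ζ, hζ, h⟩ := h1 (A.image (X.w (c B)))
        refine ⟨fun i => (η B)⁻¹ * γ i * g',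
          fun i => X.G.mul_mem (X.G.mul_mem hηG (st_le (hγ i))) hg', ζ, st_le hζ,
          fun x hx => ?_⟩
        refine (h (fun j => X.w (c B) (x j))
          (fun j => Finset.mem_image_of_mem _ (hx j))).trans ?_
        congr 2
        funext i
        show (η B)⁻¹ (γ i (X.w (c B) (x i))) = (η B)⁻¹ (γ i (g' (x i)))
        rw [hA _ (hx i)]
  choose F hFC hFcan hFloc hFval using hF
  -- the inner functions
  have hL : ∀ B i, ∃ L : (Fin (m + 1) → D) → D, L ∈ X.C (m + 1) ∧ Can X.G B (c B) L ∧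
      (∀ x : Fin (m + 1) → D, (∀ j, x j ∈ B) → L x = K (some i) x) ∧
      X.val m L = X.val m (K (some i)) := by
    intro B i
    obtain ⟨L, h1, h2⟩ := canonise_one X.hR X.hO B (c B) (K (some i))
    have hLC : L ∈ X.C (m + 1) := by
      apply X.hC.local (hKC (some i))
      intro A
      obtain ⟨γ, hγ, ζ, hζ, h⟩ := h1 A
      exact ⟨γ, fun i => st_le (hγ i), ζ, st_le hζ, h⟩
    refine ⟨L, hLC, h2, ?_, ?_⟩
    · obtain ⟨γ, hγ, ζ, hζ, h⟩ := h1 B
      intro x hx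
      have e3 : (fun j => γ j (x j)) = x := by
        funext j
        exact (mem_st.1 (hγ j)).2 _ (hx j)
      rw [h x hx, e3]
      exact (mem_st.1 hζ).2 _ (hc B i x hx)
    · apply X.val_congr (c := B) (c' := ∅) hLC (hKC (some i))
        (h2.mono subset_rfl (Finset.empty_subset _)) (hKcan (some i))
      intro p x
      obtain ⟨γ, hγ, ζ, hζ, h⟩ := h1 (Finset.univ.image (fun jl : Fin (m + 1) × Fin p =>
        x jl.1 jl.2))
      have e4 : (fun l => L (fun j => x j l)) =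
          fun l => ζ (K (some i) (fun j => γ j (x j l))) := by
        funext l
        exact h _ (fun j => Finset.mem_image.2 ⟨(j, l), Finset.mem_univ _, rfl⟩)
      rw [e4]
      refine Orb.trans (Orb.of_mem (by rw [st_empty]; exact st_le hζ) _).symm ?_
      refine hKcan (some i) p (fun j l => γ j (x j l)) x (fun j => ?_)
      exact (Orb.of_mem (by rw [st_empty]; exact st_le (hγ j)) _).symm
  choose L hLC hLcan hLext hLval using hL
  have hcont := hcn _ _ (hKC none) (hKcan none)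
    (fun B x => F B (fun i => L B i x))
    (fun B => X.hC.comp _ _ _ _ (hFC B) (hLC B))
    (fun B => (hFcan B).comp_can (hLcan B))
    (fun B => by
      obtain ⟨ζ, hζ, hF1⟩ := hFloc B
      refine ⟨η B * ζ⁻¹, X.G.mul_mem (st_le (hη B)) (X.G.inv_mem hζ), fun x hx => ?_⟩
      have e5 : (fun i => L B i x) = fun i => K (some i) x := by
        funext i
        exact hLext B i x hx
      have e6 : (fun i => (η B)⁻¹ (K (some i) x)) = fun i => g i (fun j => β B j (x j)) := by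
        funext i
        rw [hloc B (some i) x hx]
        simp
      rw [e5, hF1 _ (fun i => hc B i x hx), e6, hloc B none x hx]
      simp [hh])
  obtain ⟨B, hB⟩ := hcont.exists
  have e7 := X.val_comp (hFC B) (hFcan B) (hLC B) (hLcan B)
  rw [e0, e1, ← hB, e7, hFval, hLval]

/-- Main group-level theorem. -/
theorem exists_hom' (hcn : ContH X) :
    ∃ ξ : (k : ℕ) → ((Fin (k + 1) → D) → D) → Fin (k + 1),
      (∀ k (i : Fin (k + 1)), ξ k (fun x => x i) = i) ∧
      ∀ n m (f : (Fin (n + 1) → D) → D) (g : Fin (n + 1) → (Fin (m + 1) → D) → D),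
        f ∈ X.C (n + 1) → (∀ i, g i ∈ X.C (m + 1)) →
        ξ m (fun x => f (fun i => g i x)) = ξ m (g (ξ n f)) :=
  ⟨X.hat, X.hat_proj' hcn, fun _ _ _ _ hf hg => X.hat_comp' hcn hf hg⟩

end Ctx

end Pool.Agent.MP_f99268_lc
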