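import Mathlib

/-!
# Two lemmas on finite monoids
-/

namespace Pool.Agent.MP_f99268_lc

private theorem Mon_idem {M : Type*} [Monoid M] [Finite M] (x : M) :
    ∃ n, 1 ≤ n ∧ x ^ n * x ^ n = x ^ n := by
  obtain ⟨i, j, hne, hij⟩ := Finite.exists_ne_map_eq_of_infinite (fun n : ℕ => x ^ n)
  wlog h : i < j generalizing i j
  · exact this j i hne.symm hij.symm (by omega)
  change x ^ i = x ^ j at hij
  obtain ⟨p, rfl⟩ := Nat.exists_eq_add_of_lt h
  have h1 : ∀ k, i ≤ k → x ^ (k + (p + 1)) = x ^ k := by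
    intro k hk
    obtain ⟨d, rfl⟩ := Nat.exists_eq_add_of_le hk
    rw [show i + d + (p + 1) = (i + p + 1) + d by ring, pow_add, ← hij, ← pow_add]
  have h2 : ∀ c k, i ≤ k → x ^ (k + c * (p + 1)) = x ^ k := by
    intro c
    induction c with
    | zero => intro k _; simp
    | succ c ih =>
      intro k hk
      rw [show k + (c + 1) * (p + 1) = (k + c * (p + 1)) + (p + 1) by ring,
        h1 _ (by omega), ih k hk]
  refine ⟨(i + 1) * (p + 1), Nat.mul_pos (by omega) (by omega), ?_⟩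
  rw [← pow_add]
  exact h2 (i + 1) _ (by nlinarith)

private theorem Mon_right {M : Type*} [Monoid M] [Finite M] {e x z : M} (hx : x * e = x)
    (hz : x * z = e) : ∃ n, 1 ≤ n ∧ x ^ n = e := by
  obtain ⟨l, hl, h⟩ := Mon_idem x
  have hxe : ∀ k, x ^ (k + 1) * e = x ^ (k + 1) := fun k => by
    rw [pow_succ, mul_assoc, hx]
  have hk : ∀ k, x ^ (k + 1) * z ^ (k + 1) = e := by
    intro k
    induction k with
    | zero => simpa using hz
    | succ k ih =>
      rw [pow_succ x (k + 1), pow_succ' z (k + 1), mul_assoc, ← mul_assoc x z, hz,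
        ← mul_assoc, hxe, ih]
  obtain ⟨l, rfl⟩ := Nat.exists_eq_add_of_le' hl
  refine ⟨l + 1, hl, ?_⟩
  calc x ^ (l + 1) = x ^ (l + 1) * e := (hxe l).symm
    _ = x ^ (l + 1) * (x ^ (l + 1) * z ^ (l + 1)) := by rw [hk]
    _ = x ^ (l + 1) * z ^ (l + 1) := by rw [← mul_assoc, h]
    _ = e := hk l

private theorem Mon_left {M : Type*} [Monoid M] [Finite M] {e y w : M} (hy : e * y = y)
    (hw : w * y = e) : ∃ n, 1 ≤ n ∧ y ^ n = e := by
  obtain ⟨l, hl, h⟩ := Mon_idem y
  have hye : ∀ k, e * y ^ (k + 1) = y ^ (k + 1) := fun k => by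
    rw [pow_succ', ← mul_assoc, hy]
  have hk : ∀ k, w ^ (k + 1) * y ^ (k + 1) = e := by
    intro k
    induction k with
    | zero => simpa using hw
    | succ k ih =>
      rw [pow_succ w (k + 1), pow_succ' y (k + 1), mul_assoc, ← mul_assoc w y, hw, hye, ih]
  obtain ⟨l, rfl⟩ := Nat.exists_eq_add_of_le' hl
  refine ⟨l + 1, hl, ?_⟩
  calc y ^ (l + 1) = e * y ^ (l + 1) := (hye l).symm
    _ = w ^ (l + 1) * y ^ (l + 1) * y ^ (l + 1) := by rw [hk]
    _ = w ^ (l + 1) * y ^ (l + 1) := by rw [mul_assoc, h]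
    _ = e := hk l

/-- Take an idempotent `e ∈ S` for which the set `{e * f * e | f ∈ S}` has minimal cardinality
(`1` is an idempotent of `S`). Let `f ∈ S` and let `e' = (e * f * e) ^ n`, `n ≥ 1`, be an
idempotent (every element of a finite monoid has an idempotent power with exponent `≥ 1`). Then
`e' ∈ S`, `e * e' = e' = e' * e`, hence `{e' * h * e' | h ∈ S} ⊆ {e * h * e | h ∈ S}`, and by
minimality the two sets are equal (finite sets, `Set.ncard`). Hence `e = e * 1 * e = e' * h * e'`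
for some `h ∈ S`, and `e' = e' * e = e' * e' * h * e' = e' * h * e' = e`. -/
theorem exists_idem_dom {M : Type*} [Monoid M] [Finite M] (S : Submonoid M) :
    ∃ e ∈ S, e * e = e ∧ ∀ f ∈ S, ∃ n, 1 ≤ n ∧ (e * f * e) ^ n = e := by
  obtain ⟨e, ⟨heS, hee⟩, hmin⟩ := Set.exists_min_image {e : M | e ∈ S ∧ e * e = e}
    (fun e => {g : M | ∃ f ∈ S, g = e * f * e}.ncard) (Set.toFinite _)
    ⟨1, S.one_mem, one_mul 1⟩
  refine ⟨e, heS, hee, fun f hf => ?_⟩
  obtain ⟨n, hn, hid⟩ := Mon_idem (e * f * e)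
  refine ⟨n, hn, ?_⟩
  obtain ⟨e', he'⟩ : ∃ e', e' = (e * f * e) ^ n := ⟨_, rfl⟩
  rw [← he'] at hid ⊢
  have he'S : e' ∈ S := he' ▸ S.pow_mem (S.mul_mem (S.mul_mem heS hf) heS) n
  obtain ⟨k, rfl⟩ := Nat.exists_eq_add_of_le' hn
  have h1 : e * e' = e' := by
    rw [he', pow_succ', ← mul_assoc e, ← mul_assoc e, ← mul_assoc e, hee]
  have h2 : e' * e = e' := by
    rw [he', pow_succ, mul_assoc, mul_assoc (e * f), hee]
  have hsub : {g : M | ∃ h ∈ S, g = e' * h * e'} ⊆ {g : M | ∃ h ∈ S, g = e * h * e} := by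
    rintro g ⟨h, hh, rfl⟩
    refine ⟨e' * h * e', S.mul_mem (S.mul_mem he'S hh) he'S, ?_⟩
    rw [← mul_assoc e, ← mul_assoc e, h1, mul_assoc (e' * h), h2]
  have heq := Set.eq_of_subset_of_ncard_le hsub (hmin e' ⟨he'S, hid⟩) (Set.toFinite _)
  have hmem : e ∈ {g : M | ∃ h ∈ S, g = e * h * e} :=
    ⟨1, S.one_mem, by rw [mul_one, hee]⟩
  rw [← heq] at hmem
  obtain ⟨h, -, hh⟩ := hmem
  calc e' = e' * e := h2.symm
    _ = e' * (e' * h * e') := by rw [← hh]
    _ = e' * h * e' := by rw [← mul_assoc, ← mul_assoc, hid]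
    _ = e := hh.symm

/-- In the finite monoid `e M e` with the unit element `e` write `x = e * m * e`,
`y = e * m' * e`. As `e * e = e` we have `e * (m * e * m') * e = x * y`. If `x ^ n = e` and
`y ^ k = e` with `n, k ≥ 1`, then `x` and `y` are invertible in `e M e`, hence so is `x * y`, and
a finite group argument gives a power `≥ 1` of `x * y` equal to `e` (or: `(x * y) ^ l` is
idempotent for some `l ≥ 1`, and an invertible idempotent of `e M e` is `e`). Conversely let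
`(x * y) ^ n = e`, `n ≥ 1`. Then `x * (y * (x * y) ^ (n - 1)) = e`, so `x` has a right inverse `z`
in `e M e`; let `x ^ l`, `l ≥ 1`, be idempotent; `x ^ l * z ^ l = e`, so
`x ^ l = x ^ l * x ^ l * z ^ l = x ^ l * z ^ l = e`. Same for `y` with left inverses. -/
theorem idem_pow_iff {M : Type*} [Monoid M] [Finite M] {e m m' : M} (he : e * e = e) :
    (∃ n, 1 ≤ n ∧ (e * (m * e * m') * e) ^ n = e) ↔
      (∃ n, 1 ≤ n ∧ (e * m * e) ^ n = e) ∧ ∃ n, 1 ≤ n ∧ (e * m' * e) ^ n = e := by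
  obtain ⟨x, hx⟩ : ∃ x, x = e * m * e := ⟨_, rfl⟩
  obtain ⟨y, hy⟩ : ∃ y, y = e * m' * e := ⟨_, rfl⟩
  have hxe : x * e = x := by rw [hx, mul_assoc, he]
  have hey : e * y = y := by rw [hy, ← mul_assoc, ← mul_assoc, he]
  have hye : y * e = y := by rw [hy, mul_assoc, he]
  have hxy : e * (m * e * m') * e = x * y := by
    rw [hx, hy]
    calc e * (m * e * m') * e = e * m * e * m' * e := by simp only [mul_assoc]
      _ = e * m * (e * e) * m' * e := by rw [he]
      _ = e * m * e * (e * m' * e) := by simp only [mul_assoc]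
  rw [hxy, ← hx, ← hy]
  constructor
  · rintro ⟨n, hn, h⟩
    obtain ⟨k, rfl⟩ := Nat.exists_eq_add_of_le' hn
    constructor
    · exact Mon_right (z := y * (x * y) ^ k) hxe (by rw [← mul_assoc, ← pow_succ', h])
    · exact Mon_left (w := (x * y) ^ k * x) hey (by rw [mul_assoc, ← pow_succ, h])
  · rintro ⟨⟨n, hn, h⟩, k, hk, h'⟩
    obtain ⟨n, rfl⟩ := Nat.exists_eq_add_of_le' hn
    obtain ⟨k, rfl⟩ := Nat.exists_eq_add_of_le' hk
    refine Mon_right (z := y ^ k * e * x ^ n) (by rw [mul_assoc, hye]) ?_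
    calc x * y * (y ^ k * e * x ^ n) = x * (y ^ (k + 1) * e) * x ^ n := by
          rw [pow_succ']; simp only [mul_assoc]
      _ = x * x ^ n := by rw [h', he, hxe]
      _ = e := by rw [← pow_succ', h]

end Pool.Agent.MP_f99268_lc
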