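import Pool.Agent.Lib.MP_f99268_lc_X.Fam
import Pool.Agent.Lib.MP_f99268_lc_X.Mon

/-!
# The operation `J` and the closed sets `U(f)` of copies
-/

namespace Pool.Agent.MP_f99268_lc

open Equiv Classical

variable {D : Type} [Countable D]

/-- The set of the copies `e` such that `J * (f e) * J` has the power `J`. -/
def US (X : Ctx D) (A : Finset D) (J f : D → D → D) : Set ({a // a ∈ A} → D) :=
  {e | ∃ n, 1 ≤ n ∧ (cls X.G (fam J (inc A)) * cls X.G (fam f e) * cls X.G (fam J (inc A))) ^ n =
    cls X.G (fam J (inc A))}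

/-- The standing assumptions: types are determined by `r`-subtuples, `A` contains all types of
`r`-tuples, `J` is an idempotent canonical operation of value `0`, such that `J * h * J` has the
power `J` for all canonical operations `h` of value `0`. -/
structure IsJ (X : Ctx D) (r : ℕ) (A : Finset D) (J : D → D → D) : Prop where
  lo : LO X.G r
  rich : Rich X.G r A
  mem : bin J ∈ X.C 2
  can : Can X.G ∅ ∅ (bin J)
  val : X.val 1 (bin J) = 0
  idem : cls X.G (fam J (inc A)) * cls X.G (fam J (inc A)) = cls X.G (fam J (inc A))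
  max : ∀ h : D → D → D, bin h ∈ X.C 2 → Can X.G ∅ ∅ (bin h) → X.val 1 (bin h) = 0 →
    inc A ∈ US X A J h

section

variable {X : Ctx D}

/-- `J` and other canonical operations: if `s` and `s'` have the same type then so do the families
`h(s_l, t_a)` and `h(s'_l, t_a)` (`Can.fin` for the index set `Fin m × α`, with first components
`s ∘ Prod.fst` and second components `t ∘ Prod.snd`). -/
theorem EE.of_can {h : D → D → D} (hC : bin h ∈ X.C 2) (hcan : Can X.G ∅ ∅ (bin h)) : EE X h := by
  refine ⟨hC, fun α _ t m s s' hs => ?_⟩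
  have := hcan.fin (α := Fin m × α) ![fun p => s p.1, fun p => t p.2]
    ![fun p => s' p.1, fun p => t p.2] (by
      intro j
      fin_cases j
      · exact hs.comp (fun p : Fin m × α => p.1)
      · exact Orb.refl _)
  exact this

/-- `fam (bmul f g) t = fcomp (fam f t) (fam g t)`, `SCan.comp`; membership: `X.hC.comp`. -/
theorem EE.mul {f g : D → D → D} (hf : EE X f) (hg : EE X g) : EE X (bmul f g) := by
  refine ⟨?_, fun α _ t => ?_⟩
  · have := X.hC.comp 2 2 (bin f) ![bin g, fun x => x 1] hf.mem (by
      intro i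
      fin_cases i
      · exact hg.mem
      · exact X.hC.proj 2 1)
    exact this
  · exact (hf.sc α t).comp (hg.sc α t)

/-- Membership: `X.hC.comp_aut` with `β 0 = 1`, `β 1 = g`. `fam (fun s t => f s (g t)) t` is the
family `fam f (g ∘ t)`. -/
theorem EE.shift {f : D → D → D} (hf : EE X f) {g : Perm D} (hg : g ∈ X.G) :
    EE X (fun s t => f s (g t)) := by
  refine ⟨?_, fun α _ t => ?_⟩
  · have := X.hC.comp_aut hf.mem (β := ![1, g]) (by
      intro j
      fin_cases j
      · exact X.G.one_mem
      · exact hg)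
    exact this
  · exact hf.sc α (fun a => g (t a))

/-- The same with a self-embedding (`X.hC.comp_emb`). -/
theorem EE.shift_emb {f : D → D → D} (hf : EE X f) {u : D → D} (hu : Emb X.G u) :
    EE X (fun s t => f s (u t)) := by
  refine ⟨?_, fun α _ t => ?_⟩
  · have := X.hC.comp_emb hf.mem (u := ![id, u]) (by
      intro j
      fin_cases j
      · exact Emb.of_mem (g := 1) X.G.one_mem
      · exact hu)
    exact this
  · exact hf.sc α (fun a => u (t a))

/-- The set `U(f)` is moved by `g` (definition unfolding). -/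
theorem US_shift {A : Finset D} {J f : D → D → D} (g : D → D) (e : {a // a ∈ A} → D) :
    e ∈ US X A J (fun s t => f s (g t)) ↔ (fun a => g (e a)) ∈ US X A J f := Iff.rfl

/-- An operation `f ∈ 𝔼` that is canonical over `c` is canonical from (nothing, `c`) to nothing:
`(f (s_l) (t_l)) ~ (f (s'_l) (t_l))` by `hf.sc` with the constants `t`, restricted to the diagonal,
and `(f (s'_l) (t_l)) ~ (f (s'_l) (t'_l))` by `hcan`. -/
theorem EE.can_left {f : D → D → D} (hf : EE X f) {c : Finset D} (hcan : Can X.G c ∅ (bin f))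
    {β : Type} [Finite β] {s s' t t' : β → D} (hs : Orb X.G ∅ s s') (ht : Orb X.G c t t') :
    Orb X.G ∅ (fun l => f (s l) (t l)) (fun l => f (s' l) (t' l)) := by
  have h1 : Orb X.G ∅ (fun l => f (s l) (t l)) (fun l => f (s' l) (t l)) :=
    ((hf.sc β t).fin s s' hs).comp (fun l : β => (l, l))
  have h2 : Orb X.G ∅ (fun l => f (s' l) (t l)) (fun l => f (s' l) (t' l)) := by
    have := hcan.fin (α := β) ![s', t] ![s', t'] (by
      intro j
      fin_cases j
      · exact Orb.refl _
      · exact ht)
    exact this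
  exact h1.trans h2

/-- The composition of canonical operations is canonical. -/
theorem can_bmul {h h' : D → D → D} (hcan : Can X.G ∅ ∅ (bin h)) (hcan' : Can X.G ∅ ∅ (bin h')) :
    Can X.G ∅ ∅ (bin (bmul h h')) := by
  intro m x y hxy
  have h1 := hcan' m x y hxy
  have := hcan m ![fun l => bin h' (fun j => x j l), x 1] ![fun l => bin h' (fun j => y j l), y 1]
    (by
      intro j
      fin_cases j
      · exact h1
      · exact hxy 1)
  exact this

/-- The value of `h(h'(s, t), t)` is `0` if and only if both values are `0`. Let `v` be a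
self-embedding... here all operations are canonical without constants, so `X.val_comp` applies
with `K 0 = bin h'`, `K 1 = fun x => x 1` and `c₀ = c = ∅`: the value is that of `K (val h)`; if
`val h = 0` this is `val h'`, if `val h = 1` it is the value `1` of the projection
(`X.val_emb_proj` with the identity). -/
theorem val_bmul {h h' : D → D → D} (hC : bin h ∈ X.C 2) (hcan : Can X.G ∅ ∅ (bin h))
    (hC' : bin h' ∈ X.C 2) (hcan' : Can X.G ∅ ∅ (bin h')) :
    X.val 1 (bin (bmul h h')) = 0 ↔ X.val 1 (bin h) = 0 ∧ X.val 1 (bin h') = 0 := by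
  have hid : ∀ i : Fin 2, X.val 1 (fun x : Fin 2 → D => x i) = i := fun i =>
    X.val_emb_proj (u := fun a => a) (c₀ := ∅) (c := ∅)
      (fun _ => ⟨1, X.G.one_mem, fun _ _ => rfl⟩) (fun _ _ _ h => h) i
  have hK : ∀ i : Fin 2, (![bin h', fun x => x 1] : Fin 2 → (Fin 2 → D) → D) i ∈ X.C 2 := by
    intro i
    fin_cases i
    · exact hC'
    · exact X.hC.proj 2 1
  have hKc : ∀ i : Fin 2, Can X.G ∅ ∅ ((![bin h', fun x => x 1] : Fin 2 → (Fin 2 → D) → D) i) := by
    intro i
    fin_cases i
    · exact hcan'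
    · exact Can.proj X.G ∅ 1
  have key := X.val_comp (n := 1) (m := 1) hC hcan hK hKc
  have e : (fun x : Fin 2 → D => bin h (fun i =>
      (![bin h', fun x => x 1] : Fin 2 → (Fin 2 → D) → D) i x)) = bin (bmul h h') := rfl
  rw [e] at key
  rw [key]
  obtain hv | hv : X.val 1 (bin h) = 0 ∨ X.val 1 (bin h) = 1 := by
    generalize X.val 1 (bin h) = v
    fin_cases v
    · exact Or.inl rfl
    · exact Or.inr rfl
  · rw [hv]
    constructor
    · exact fun h => ⟨rfl, h⟩
    · exact fun h => h.2
  · rw [hv]
    have h1 : X.val 1 ((![bin h', fun x => x 1] : Fin 2 → (Fin 2 → D) → D) 1) = 1 := hid 1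
    rw [h1]
    constructor
    · intro h
      exact absurd h (by decide)
    · intro h
      exact absurd h.1 (by decide)

/-- A canonical binary operation is determined up to types by the family `h(s, a)`, `a ∈ A`:
for `x : Fin 2 → Fin m → D` use `hlo` to pass to `Fin r`-subtuples; by `hA` some `g ∈ G` maps
the second components `x 1 (q k)` into `A`; then `h (x 0 (q k), x 1 (q k)) ~
h (x 0 (q k), g (x 1 (q k)))` by canonicity, which is a subfamily of the family on `A`. -/
theorem orb_of_feq {r : ℕ} (hlo : LO X.G r) {A : Finset D} (hA : Rich X.G r A)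
    {h h' : D → D → D} (hcan : Can X.G ∅ ∅ (bin h)) (hcan' : Can X.G ∅ ∅ (bin h'))
    (he : FEq X.G (fam h (inc A)) (fam h' (inc A))) (m : ℕ) (x : Fin 2 → Fin m → D) :
    Orb X.G ∅ (fun l => bin h (fun j => x j l)) (fun l => bin h' (fun j => x j l)) := by
  apply hlo
  intro q
  obtain ⟨g, hg, hgA⟩ := hA (fun k => x 1 (q k))
  have h0 : Orb X.G ∅ (fun k => x 1 (q k)) (fun k => g (x 1 (q k))) :=
    Orb.of_mem (by rw [st_empty]; exact hg) _
  have key : ∀ h : D → D → D, Can X.G ∅ ∅ (bin h) →
      Orb X.G ∅ (fun k => bin h (fun j => x j (q k)))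
        (fun k => h (x 0 (q k)) (g (x 1 (q k)))) := by
    intro h hc
    have := hc.fin (α := Fin r) ![fun k => x 0 (q k), fun k => x 1 (q k)]
      ![fun k => x 0 (q k), fun k => g (x 1 (q k))] (by
        intro j
        fin_cases j
        · exact Orb.refl _
        · exact h0)
    exact this
  have h3 := (he.fin (fun k => x 0 (q k))).comp
    (fun k : Fin r => (k, (⟨g (x 1 (q k)), hgA k⟩ : {a // a ∈ A})))
  exact ((key h hcan).trans h3).trans (key h' hcan').symm

/-- For canonical `h` and a copy `e` of `A` the families `h(s, e a)` and `h(s, a)` have the same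
types. -/
theorem cls_copy {A : Finset D} {h : D → D → D} (hC : bin h ∈ X.C 2)
    (hcan : Can X.G ∅ ∅ (bin h)) {e : {a // a ∈ A} → D} (he : IsCopy X.G A e) :
    cls X.G (fam h e) = cls X.G (fam h (inc A)) := by
  have hE := EE.of_can hC hcan
  obtain ⟨g, hg, hge⟩ := he
  rw [cls_eq (hE.sc _ e) (hE.sc _ (inc A))]
  intro m s
  have := hcan.fin (α := Fin m × {a // a ∈ A}) ![fun p => s p.1, fun p => e p.2]
    ![fun p => s p.1, fun p => inc A p.2] (by
      intro j
      fin_cases j
      · exact Orb.refl _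
      · refine Orb.symm ⟨g, by rw [st_empty]; exact hg, fun p => ?_⟩
        exact (hge p.2).symm)
  exact this

/-- Existence of `J`. In the finite monoid `FamM X.G {a // a ∈ A}` (`finite_famM`) let `S` be the
submonoid of the classes of `fam h (inc A)` for `bin h ∈ X.C 2` canonical of value `0`: it contains
`1` (the projection `h s t = s`, value `0`) and is closed under multiplication (`val_bmul`,
`cls_mul`; `fam (bmul h h') (inc A) = fcomp (fam h (inc A)) (fam h' (inc A))`). Apply
`exists_idem_dom`. -/
theorem exists_J (X : Ctx D) {r : ℕ} (hlo : LO X.G r) {A : Finset D} (hA : Rich X.G r A) :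
    ∃ J, IsJ X r A J := by
  have hfin : Finite (FamM X.G {a // a ∈ A}) := finite_famM X.hO hlo hA
  have hid : ∀ i : Fin 2, X.val 1 (fun x : Fin 2 → D => x i) = i := fun i =>
    X.val_emb_proj (u := fun a => a) (c₀ := ∅) (c := ∅)
      (fun _ => ⟨1, X.G.one_mem, fun _ _ => rfl⟩) (fun _ _ _ h => h) i
  let S : Submonoid (FamM X.G {a // a ∈ A}) :=
    { carrier := {x | ∃ h : D → D → D, bin h ∈ X.C 2 ∧ Can X.G ∅ ∅ (bin h) ∧
        X.val 1 (bin h) = 0 ∧ cls X.G (fam h (inc A)) = x}
      mul_mem' := by
        rintro x y ⟨h, h1, h2, h3, rfl⟩ ⟨h', h1', h2', h3', rfl⟩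
        have hE := EE.of_can h1 h2
        have hE' := EE.of_can h1' h2'
        refine ⟨bmul h h', (hE.mul hE').mem, can_bmul h2 h2',
          (val_bmul h1 h2 h1' h2').2 ⟨h3, h3'⟩, ?_⟩
        exact cls_mul (hE.sc _ _) (hE'.sc _ _)
      one_mem' := ⟨fun s _ => s, X.hC.proj 2 0, Can.proj X.G ∅ 0, hid 0, cls_one⟩ }
  obtain ⟨e, ⟨J, h1, h2, h3, rfl⟩, he, hmax⟩ := exists_idem_dom S
  exact ⟨J, hlo, hA, h1, h2, h3, he, fun h h1 h2 h3 => hmax _ ⟨h, h1, h2, h3, rfl⟩⟩

end

end Pool.Agent.MP_f99268_lc
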