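import Pool.Agent.Lib.MP_f99268_lc_X.Jop2

/-!
# Limits of closed sets of copies
-/

namespace Pool.Agent.MP_f99268_lc

open Equiv Classical

variable {D : Type} [Countable D] {X : Ctx D} {r : ℕ} {A : Finset D} {J : D → D → D}

omit [Countable D] in
private theorem bin_curry (F : (Fin 2 → D) → D) : bin (fun s t => F ![s, t]) = F := by
  funext x
  show F ![x 0, x 1] = F x
  congr 1
  funext j
  fin_cases j <;> rfl

/-- Limits without constants. Let `P`, `Q` be sets of copies, such that for every finite `S` some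
`f ∈ 𝔼` has `P e → e ∈ U(f)` and `Q e → e ∉ U(f)` for the copies `e` inside `S`. Then some `f ∈ 𝔼`
has these properties for all copies.

Proof. Take an exhaustion `B n` (`exists_exhaustion`), the finite sets `S n = piFinset (B n)` of
pairs (as in `Ctx.real_step` of `Cont.lean`), and apply `compactness` to functions
`F : (Fin 2 → D) → D`, the group `X.G` and
`Pr n F := ∃ f, EE X f ∧ (∀ e, IsCopy X.G A e → (∀ a, e a ∈ B n) → (P e → e ∈ U f) ∧
  (Q e → e ∉ U f)) ∧ ∃ η ∈ X.G, ∀ x, (∀ j, x j ∈ B n) → F x = η (bin f x)`.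
All the hypotheses are immediate. Let `F` be the limit, `f' s t = F ![s, t]` (so `bin f' = F`).
`EE X f'`: membership in `X.C 2` by `X.hC.closed` (`X.hC.aut_comp`); for `SCan` note that a tuple
`t : α → D` with `α` finite and tuples `s, s' : Fin m → D` have all their values in some `B n`, so
`f'` is `η f` on them, and `f ∈ 𝔼`. For a copy `e` choose `n` such that `B n` contains `A` and the
values of `e`: then `f' = η f` on `B n`, and `hJ.congr` gives `e ∈ U(f') ↔ e ∈ U(f)`. -/
theorem IsJ.exists_lim₀ (hJ : IsJ X r A J) (P Q : ({a // a ∈ A} → D) → Prop)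
    (h : ∀ S : Finset D, ∃ f, EE X f ∧ ∀ e, IsCopy X.G A e → (∀ a, e a ∈ S) →
      (P e → e ∈ US X A J f) ∧ (Q e → e ∉ US X A J f)) :
    ∃ f, EE X f ∧ ∀ e, IsCopy X.G A e →
      (P e → e ∈ US X A J f) ∧ (Q e → e ∉ US X A J f) := by
  obtain ⟨B, hB1, hB2⟩ := exists_exhaustion D
  obtain ⟨F, hF⟩ := compactness (fun n => Fintype.piFinset fun _ : Fin 2 => B n)
    (fun n x hx => by
      rw [Fintype.mem_piFinset] at hx ⊢
      exact fun i => hB1 n (hx i))
    (fun x => by
      obtain ⟨n, hn⟩ := hB2 (Finset.univ.image x)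
      refine ⟨n, ?_⟩
      rw [Fintype.mem_piFinset]
      exact fun i => hn (Finset.mem_image_of_mem _ (Finset.mem_univ _)))
    X.G X.hO
    (fun n (F : (Fin 2 → D) → D) => ∃ f, EE X f ∧
      (∀ e, IsCopy X.G A e → (∀ a, e a ∈ B n) →
        (P e → e ∈ US X A J f) ∧ (Q e → e ∉ US X A J f)) ∧
      ∃ η ∈ X.G, ∀ x : Fin 2 → D, (∀ j, x j ∈ B n) → F x = η (bin f x))
    (by
      rintro n F F' hFF' ⟨f, hf, hfe, η, hη, h1⟩
      refine ⟨f, hf, hfe, η, hη, fun x hx => ?_⟩
      rw [← hFF' x (by rw [Fintype.mem_piFinset]; exact hx)]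
      exact h1 x hx)
    (by
      rintro n F ⟨f, hf, hfe, η, hη, h1⟩
      exact ⟨f, hf, fun e he hea => hfe e he (fun a => hB1 n (hea a)), η, hη,
        fun x hx => h1 x (fun j => hB1 n (hx j))⟩)
    (by
      rintro n F g hg ⟨f, hf, hfe, η, hη, h1⟩
      exact ⟨f, hf, hfe, g * η, X.G.mul_mem hg hη, fun x hx => congrArg g (h1 x hx)⟩)
    (by
      intro n
      obtain ⟨f, hf, hfe⟩ := h (B n)
      exact ⟨bin f, f, hf, hfe, 1, X.G.one_mem, fun x _ => rfl⟩)
  have hEE : EE X (fun s t => F ![s, t]) := by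
    refine ⟨?_, ?_⟩
    · rw [bin_curry]
      apply X.hC.closed
      intro A'
      obtain ⟨n, hn⟩ := hB2 A'
      obtain ⟨f, hf, -, η, hη, h1⟩ := hF n
      exact ⟨_, X.hC.aut_comp hf.mem hη, fun x hx => h1 x (fun j => hn (hx j))⟩
    · intro α _ t m s s' hs
      obtain ⟨n, hn⟩ := hB2 ((Set.finite_range s).toFinset ∪ (Set.finite_range s').toFinset ∪
        (Set.finite_range t).toFinset)
      obtain ⟨f, hf, -, η, hη, h1⟩ := hF n
      have e1 : (fun p : Fin m × α => fam (fun s t => F ![s, t]) t (s p.1) p.2) =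
          fun p => η (fam f t (s p.1) p.2) := by
        funext p
        refine h1 ![s p.1, t p.2] (fun j => ?_)
        fin_cases j
        · exact hn (by simp)
        · exact hn (by simp)
      have e2 : (fun p : Fin m × α => fam (fun s t => F ![s, t]) t (s' p.1) p.2) =
          fun p => η (fam f t (s' p.1) p.2) := by
        funext p
        refine h1 ![s' p.1, t p.2] (fun j => ?_)
        fin_cases j
        · exact hn (by simp)
        · exact hn (by simp)
      rw [e1, e2]
      have hη' : η ∈ st X.G ∅ := by rw [st_empty]; exact hη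
      exact ((Orb.of_mem hη' _).symm.trans (hf.sc α t m s s' hs)).trans (Orb.of_mem hη' _)
  refine ⟨_, hEE, fun e he => ?_⟩
  obtain ⟨n, hn⟩ := hB2 (A ∪ (Set.finite_range e).toFinset)
  obtain ⟨f, hf, hfe, η, hη, h1⟩ := hF n
  have hη' : η ∈ st X.G ∅ := by rw [st_empty]; exact hη
  have key : e ∈ US X A J (fun s t => F ![s, t]) ↔ e ∈ US X A J f := by
    apply hJ.congr hEE hf
    have e1 : (fun p : {a // a ∈ A} × {a // a ∈ A} => F ![(p.1 : D), e p.2]) =
        fun p => η (f p.1 (e p.2)) := by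
      funext p
      refine h1 ![(p.1 : D), e p.2] (fun j => ?_)
      fin_cases j
      · exact hn (Finset.mem_union_left _ p.1.2)
      · exact hn (by simp)
    show Orb X.G ∅ (fun p : {a // a ∈ A} × {a // a ∈ A} => F ![(p.1 : D), e p.2]) _
    rw [e1]
    exact (Orb.of_mem hη' _).symm
  rw [key]
  exact hfe e he (fun a => hn (by simp))

/-- Canonisation over a finite set `c` of an operation `f ∈ 𝔼`. Let `F` be the result of
`canonise_one X.hR X.hO c ∅ (bin f)`, `f' s t = F ![s, t]`. For finite `B` there are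
`β 0, β 1 ∈ st X.G c` and `η ∈ G` with `f' s t = η (f (β 0 s) (β 1 t))` for `s, t ∈ B`. Hence
`bin f' ∈ X.C 2` (`X.hC.local`), and `EE X f'`: the families `f' (s_l, t_a)` and `f' (s'_l, t_a)`
have the types of `f (β 0 s_l, β 1 t_a)` and `f (β 0 s'_l, β 1 t_a)`, and `f ∈ 𝔼`. For the last
statement take the finite set `B` that contains `A` and `S`, and let `β = β 1`: for a copy `e`
inside `S` the family `f' (s, e a)`, `s ∈ A`, has the type of `f (β 0 s, β 1 (e a))`, which is the
type of `f (s, β 1 (e a))` as `f ∈ 𝔼` (`hf.sc` with the constants `β 1 ∘ e` and the tuples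
`s ∈ A` and `β 0 s`); `hJ.congr`. -/
theorem IsJ.exists_canon (hJ : IsJ X r A J) (c : Finset D) {f : D → D → D} (hf : EE X f) :
    ∃ f', EE X f' ∧ Can X.G c ∅ (bin f') ∧ ∀ S : Finset D, ∃ β ∈ st X.G c,
      ∀ e : {a // a ∈ A} → D, (∀ a, e a ∈ S) →
        (e ∈ US X A J f' ↔ (fun a => β (e a)) ∈ US X A J f) := by
  obtain ⟨F, hF1, hF2⟩ := canonise_one X.hR X.hO c ∅ (bin f)
  have hEE : EE X (fun s t => F ![s, t]) := by
    refine ⟨?_, ?_⟩
    · rw [bin_curry]
      apply X.hC.local hf.mem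
      intro A'
      obtain ⟨β, hβ, η, hη, h1⟩ := hF1 A'
      exact ⟨β, fun j => st_le (hβ j), η, st_le hη, h1⟩
    · intro α _ t m s s' hs
      obtain ⟨β, hβ, η, hη, h1⟩ := hF1 ((Set.finite_range s).toFinset ∪
        (Set.finite_range s').toFinset ∪ (Set.finite_range t).toFinset)
      have e1 : (fun p : Fin m × α => fam (fun s t => F ![s, t]) t (s p.1) p.2) =
          fun p => η (fam f (fun a => β 1 (t a)) (β 0 (s p.1)) p.2) := by
        funext p
        refine h1 ![s p.1, t p.2] (fun j => ?_)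
        fin_cases j
        · simp
        · simp
      have e2 : (fun p : Fin m × α => fam (fun s t => F ![s, t]) t (s' p.1) p.2) =
          fun p => η (fam f (fun a => β 1 (t a)) (β 0 (s' p.1)) p.2) := by
        funext p
        refine h1 ![s' p.1, t p.2] (fun j => ?_)
        fin_cases j
        · simp
        · simp
      rw [e1, e2]
      have hβ0 : β 0 ∈ st X.G ∅ := by rw [st_empty]; exact st_le (hβ 0)
      have h2 : Orb X.G ∅ (fun l => β 0 (s l)) (fun l => β 0 (s' l)) :=
        ((Orb.of_mem hβ0 _).symm.trans hs).trans (Orb.of_mem hβ0 _)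
      exact ((Orb.of_mem hη _).symm.trans (hf.sc α _ m _ _ h2)).trans (Orb.of_mem hη _)
  refine ⟨_, hEE, ?_, fun S => ?_⟩
  · rw [bin_curry]
    exact hF2
  · obtain ⟨β, hβ, η, hη, h1⟩ := hF1 (A ∪ S)
    refine ⟨β 1, hβ 1, fun e he => ?_⟩
    apply hJ.congr hEE hf
    have e1 : (fun p : {a // a ∈ A} × {a // a ∈ A} => F ![(p.1 : D), e p.2]) =
        fun p => η (f (β 0 p.1) (β 1 (e p.2))) := by
      funext p
      refine h1 ![(p.1 : D), e p.2] (fun j => ?_)
      fin_cases j
      · exact Finset.mem_union_left _ p.1.2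
      · exact Finset.mem_union_right _ (he p.2)
    show Orb X.G ∅ (fun p : {a // a ∈ A} × {a // a ∈ A} => F ![(p.1 : D), e p.2]) _
    rw [e1]
    have hβ0 : β 0 ∈ st X.G ∅ := by rw [st_empty]; exact st_le (hβ 0)
    have h3 := (hf.sc {a // a ∈ A} (fun a => β 1 (e a))).fin
      (fun s : {a // a ∈ A} => β 0 s) (fun s => s) (Orb.of_mem hβ0 _).symm
    exact (Orb.of_mem hη _).symm.trans h3

/-- Limits that are canonical over `c`, for conditions `P`, `Q` that are invariant under `G_c`: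
combine the two theorems. -/
theorem IsJ.exists_lim (hJ : IsJ X r A J) (c : Finset D) (P Q : ({a // a ∈ A} → D) → Prop)
    (hP : ∀ β ∈ st X.G c, ∀ e, P e → P (fun a => β (e a)))
    (hQ : ∀ β ∈ st X.G c, ∀ e, Q e → Q (fun a => β (e a)))
    (h : ∀ S : Finset D, ∃ f, EE X f ∧ ∀ e, IsCopy X.G A e → (∀ a, e a ∈ S) →
      (P e → e ∈ US X A J f) ∧ (Q e → e ∉ US X A J f)) :
    ∃ f, EE X f ∧ Can X.G c ∅ (bin f) ∧ ∀ e, IsCopy X.G A e →
      (P e → e ∈ US X A J f) ∧ (Q e → e ∉ US X A J f) := by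
  obtain ⟨f, hf, hfe⟩ := hJ.exists_lim₀ P Q h
  obtain ⟨f', hf', hcan, h'⟩ := hJ.exists_canon c hf
  refine ⟨f', hf', hcan, fun e he => ?_⟩
  obtain ⟨β, hβ, h1⟩ := h' (Set.finite_range e).toFinset
  have hβe : IsCopy X.G A (fun a => β (e a)) := by
    obtain ⟨g, hg, hge⟩ := he
    exact ⟨β * g, X.G.mul_mem (st_le hβ) hg, fun a => congrArg β (hge a)⟩
  rw [h1 e (fun a => by simp)]
  exact ⟨fun hp => (hfe _ hβe).1 (hP β hβ e hp), fun hq => (hfe _ hβe).2 (hQ β hβ e hq)⟩

/-- Finite intersections of the sets `U(f)` are of the form `U(f)` on copies (induction on the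
list, `IsJ.mul`; for the empty list take the projection `f s t = s`: it is canonical of value `0`,
`IsJ.can_iff`). -/
theorem IsJ.exists_list (hJ : IsJ X r A J) (l : List (D → D → D)) (hl : ∀ f ∈ l, EE X f) :
    ∃ f, EE X f ∧ ∀ e, IsCopy X.G A e → (e ∈ US X A J f ↔ ∀ f' ∈ l, e ∈ US X A J f') := by
  induction l with
  | nil =>
    have hC : bin (fun s _ : D => s) ∈ X.C 2 := X.hC.proj 2 0
    have hcan : Can X.G ∅ ∅ (bin (fun s _ : D => s)) := Can.proj X.G ∅ 0
    refine ⟨fun s _ => s, EE.of_can hC hcan, fun e he => ?_⟩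
    rw [hJ.can_iff hC hcan he]
    simp only [List.not_mem_nil, false_implies, implies_true, iff_true]
    exact X.val_emb_proj (u := fun a => a) (c₀ := ∅) (c := ∅)
      (fun _ => ⟨1, X.G.one_mem, fun _ _ => rfl⟩) (fun _ _ _ h => h) (0 : Fin 2)
  | cons f l ih =>
    obtain ⟨g, hg, hge⟩ := ih (fun f' hf' => hl f' (List.mem_cons_of_mem _ hf'))
    have hf : EE X f := hl f List.mem_cons_self
    refine ⟨bmul f (bmul J g), hf.mul ((EE.of_can hJ.mem hJ.can).mul hg), fun e he => ?_⟩
    rw [hJ.mul hf hg he, hge e he]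
    simp

end Pool.Agent.MP_f99268_lc
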