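import Pool.Agent.Lib.MP_f99268_lc_X.ChainA

/-!
# Locality of the canonical position
-/

namespace Pool.Agent.MP_f99268_lc

open Equiv Classical

variable {D : Type} [Countable D] {G : Subgroup (Perm D)}

/-- The entry in `V` of an element of a sum. -/
private def LocA_c {β : Type} {V : Finset D} (z : β ⊕ {v // v ∈ V}) : Option {v // v ∈ V} :=
  Sum.elim (fun _ => none) some z

/-- The step KEY of `loc_finite`. -/
private theorem LocA_key {s : ℕ} {A V : Finset D}
    (hV : ∀ V' ⊆ V, V'.card ≤ s → KK G A V') {c : Fin s → Option {v // v ∈ V}}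
    {a a' : Fin s → D} (ha : ∀ i, c i = none → a i ∈ A) (ha' : ∀ i, c i = none → a' i ∈ A)
    (h : Orb G ∅ (fun i : {i // c i = none} => a i.1) (fun i => a' i.1)) :
    Orb G ∅ (fun i => (c i).elim (a i) Subtype.val)
      (fun i => (c i).elim (a' i) Subtype.val) := by
  obtain ⟨u, -, hu, huA⟩ := hV
    (Finset.univ.biUnion fun i => (c i).elim ∅ fun v => {v.1}) (by
      intro v hv
      rw [Finset.mem_biUnion] at hv
      obtain ⟨i, -, hi⟩ := hv
      rcases hc : c i with _ | w
      · rw [hc] at hi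
        simp at hi
      · rw [hc] at hi
        simp only [Option.elim_some, Finset.mem_singleton] at hi
        rw [hi]
        exact w.2) (by
      refine Finset.card_biUnion_le.trans ((Finset.sum_le_card_nsmul _ _ 1 fun i _ => ?_).trans
        (by simp))
      rcases c i with _ | w <;> simp)
  obtain ⟨g, hg, hgx⟩ := hu.fin _ _ h
  refine ⟨g, st_mono (Finset.empty_subset _) hg, fun i => ?_⟩
  show g ((c i).elim (a i) Subtype.val) = (c i).elim (a' i) Subtype.val
  rcases hc : c i with _ | w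
  · have h1 := hgx ⟨i, hc⟩
    simp only at h1
    rw [huA _ (ha i hc), huA _ (ha' i hc)] at h1
    exact h1
  · show g w.1 = w.1
    refine (mem_st.1 hg).2 _ (Finset.mem_biUnion.2 ⟨i, Finset.mem_univ _, ?_⟩)
    rw [hc]
    exact Finset.mem_singleton_self _

/-- From `s`-tuples to all tuples. -/
private theorem LocA_ext {r s : ℕ} (hrs : r ≤ s) (hlo : LO G r) {M : Type} {f₀ : M → D}
    {τ : (Fin s → M) → Fin s → D} (hf₀ : ∀ p : Fin s → M, Orb G ∅ (fun i => f₀ (p i)) (τ p))
    {α : Type} [Finite α] (y : α → M) (t : α → D)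
    (h : ∀ p : Fin s → α, Orb G ∅ (τ fun i => y (p i)) (fun i => t (p i))) :
    Orb G ∅ (fun a => f₀ (y a)) t := by
  apply hlo
  intro q
  rcases Nat.eq_zero_or_pos r with hr | hr
  · subst hr
    exact ⟨1, Subgroup.one_mem _, fun i => i.elim0⟩
  · let σ : Fin s → Fin r := fun j => ⟨min j.1 (r - 1), by omega⟩
    have hσ : ∀ k : Fin r, σ (Fin.castLE hrs k) = k := by
      intro k
      apply Fin.ext
      show min k.1 (r - 1) = k.1
      have := k.2
      omega
    have h1 := ((hf₀ fun i => y (q (σ i))).trans (h fun i => q (σ i))).comp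
      (fun k : Fin r => Fin.castLE hrs k)
    simpa only [hσ] using h1

/-- Finite part: let `V` be finite, suppose that `A` is canonical over all `V' ⊆ V` with at most
`s` points. Then for every finite set `E` there is `f : D → D` with
(1) `(f x) ~ (x)` over `∅` for tuples in `E`, (2) `(f x) ~ (f x')` over `V` for tuples `x ~ x'` in
`E`, (3) `(f x) ~ (x)` over `V` for tuples `x` in `E ∩ A`.

Proof. If `D` is empty everything is trivial; let `d₀ : D`. Let `M = {x // x ∈ E} ⊕ {v // v ∈ V}`.
For `p : Fin s → M` let `x_p i = x` if `p i = inl x`, and `d₀` if `p i ∈ V`; choose `g_p ∈ G` with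
`g_p (x_p i) ∈ A` for all `i` (`hA`), and let `τ p i = g_p x` if `p i = inl x`, `τ p i = v` if
`p i = inr v`.
KEY: if `p, p' : Fin s → M` are such that `p i = inr v ↔ p' i = inr v` and the tuples of the `E`
entries (index set the `i` for which `p i` is in the left part) have the same type over `∅`, then
`τ p ~ τ p'` over `∅`: let `V'` be the set of the `v` that occur, at most `s` points, and `u` an
embedding canonical over `V'`, the identity on `A`. The tuples `(g_p x_i)` and `(g_p' x'_i)` of
points of `A` (over the left indices) have the same type over `∅`, so their images under `u`, that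
is, they themselves, have the same type over `V'`.
The assignment `τ` is consistent: `τ (p ∘ σ)` and `τ p ∘ σ` have the same entries in `V`, and on the
other entries both are images of the same points of `E` under elements of `G` with values in `A`
(same argument as KEY; entries of `σ` may repeat). So by `hFB` there is `f₀ : M → D` with
`f₀ ∘ p ~ τ p` for all `p : Fin s → M`. For `p` with values in `V`: `τ p = p`; by `hlo` (with
`r ≤ s`: every `r`-tuple is contained in an `s`-tuple, if `s = 0` or the tuple is empty take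
care) there is `g ∈ G` with `g (f₀ (inr v)) = v` for `v ∈ V`. Let `f x = g (f₀ (inl x))` for
`x ∈ E` (and `f x = x` otherwise). (1), (2), (3) follow from `hlo`: in (2), (3) one has to compare
the tuples `(f x, v)` and `(f x', v)` or `(x, v)`, `v` listing `V`, over `∅`; an `r`-subtuple is
`g ∘ f₀ ∘ p ~ τ p`, and KEY (for (3): `τ p ~ (x, v)` by the same argument, as the points `x` are in
`A`). -/
theorem loc_finite {r s : ℕ} (hrs : r ≤ s) (hlo : LO G r) (hFB : FB G s) {A : Finset D}
    (hA : Rich G s A) {V : Finset D} (hV : ∀ V' ⊆ V, V'.card ≤ s → KK G A V') (E : Finset D) :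
    ∃ f : D → D, (∀ (α : Type) [Finite α] (x : α → D), (∀ a, x a ∈ E) →
        Orb G ∅ (fun a => f (x a)) x) ∧
      (∀ (α : Type) [Finite α] (x x' : α → D), (∀ a, x a ∈ E) → (∀ a, x' a ∈ E) →
        Orb G ∅ x x' → Orb G V (fun a => f (x a)) (fun a => f (x' a))) ∧
      ∀ (α : Type) [Finite α] (x : α → D), (∀ a, x a ∈ E) → (∀ a, x a ∈ A) →
        Orb G V (fun a => f (x a)) x := by
  rcases isEmpty_or_nonempty D with hD | ⟨⟨d₀⟩⟩
  · refine ⟨fun x => x, fun α _ x _ => Orb.refl _, fun α _ x x' _ _ h => ?_,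
      fun α _ x _ _ => Orb.refl _⟩
    have hVe : V = ∅ := Finset.eq_empty_of_isEmpty V
    subst hVe
    exact h
  -- the assignment
  let X : (Fin s → {x // x ∈ E} ⊕ {v // v ∈ V}) → Fin s → D :=
    fun p i => Sum.elim Subtype.val (fun _ => d₀) (p i)
  choose gp hgp hgpA using fun p : Fin s → {x // x ∈ E} ⊕ {v // v ∈ V} => hA (X p)
  have hgpo : ∀ p, Orb G ∅ (X p) fun i => gp p (X p i) := fun p =>
    Orb.of_mem (by rw [st_empty]; exact hgp p) _
  let τ : (Fin s → {x // x ∈ E} ⊕ {v // v ∈ V}) → Fin s → D :=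
    fun p i => (LocA_c (p i)).elim (gp p (X p i)) Subtype.val
  have hcons : ∀ (p : Fin s → {x // x ∈ E} ⊕ {v // v ∈ V}) (σ : Fin s → Fin s),
      Orb G ∅ (τ fun i => p (σ i)) (fun i => τ p (σ i)) := by
    intro p σ
    refine LocA_key hV (c := fun i => LocA_c (p (σ i)))
      (a := fun i => gp (fun i => p (σ i)) (X (fun i => p (σ i)) i))
      (a' := fun i => gp p (X p (σ i))) (fun i _ => hgpA _ i) (fun i _ => hgpA _ (σ i)) ?_
    exact (((hgpo fun i => p (σ i)).symm.trans ((hgpo p).comp σ))).comp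
      (fun i : {i // LocA_c (p (σ i)) = none} => i.1)
  obtain ⟨f₀, hf₀⟩ := hFB _ τ hcons
  have hext := fun {α : Type} [Finite α] (y : α → {x // x ∈ E} ⊕ {v // v ∈ V}) (t : α → D)
    (h : ∀ p : Fin s → α, Orb G ∅ (τ fun i => y (p i)) (fun i => t (p i))) =>
    LocA_ext hrs hlo hf₀ y t h
  -- normalise on `V`
  obtain ⟨g, hg, hgV⟩ := hext (fun v : {v // v ∈ V} => Sum.inr v) Subtype.val
    (fun p => Orb.refl _)
  rw [st_empty] at hg
  let f : D → D := fun x => if h : x ∈ E then g (f₀ (Sum.inl ⟨x, h⟩)) else x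
  have hf : ∀ x (h : x ∈ E), f x = g (f₀ (Sum.inl ⟨x, h⟩)) := fun x h => dif_pos h
  refine ⟨f, ?_, ?_, ?_⟩
  · intro α _ x hx
    have h1 : Orb G ∅ (fun a => f₀ (Sum.inl ⟨x a, hx a⟩)) x :=
      hext (fun a => Sum.inl ⟨x a, hx a⟩) x
        (fun p => (hgpo fun i => Sum.inl ⟨x (p i), hx (p i)⟩).symm)
    have h2 : (fun a => f (x a)) = fun a => g (f₀ (Sum.inl ⟨x a, hx a⟩)) := by
      funext a
      exact hf _ (hx a)
    rw [h2]
    exact (Orb.of_mem (by rw [st_empty]; exact hg) _).symm.trans h1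
  · intro α _ x x' hx hx' hxx
    obtain ⟨l, hl, hlx⟩ := hxx
    have h1 : Orb G ∅ (fun z : α ⊕ {v // v ∈ V} => f₀ (Sum.map (fun a => ⟨x a, hx a⟩) id z))
        (fun z => f₀ (Sum.map (fun a => ⟨x' a, hx' a⟩) id z)) := by
      refine hext (fun z : α ⊕ {v // v ∈ V} => Sum.map (fun a => ⟨x a, hx a⟩) id z) _ fun p => ?_
      let P : Fin s → {x // x ∈ E} ⊕ {v // v ∈ V} :=
        fun i => Sum.map (fun a => ⟨x a, hx a⟩) id (p i)
      let P' : Fin s → {x // x ∈ E} ⊕ {v // v ∈ V} :=
        fun i => Sum.map (fun a => ⟨x' a, hx' a⟩) id (p i)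
      show Orb G ∅ (τ P) (fun i => f₀ (P' i))
      refine Orb.trans ?_ (hf₀ P').symm
      have hc : ∀ i, LocA_c (P i) = LocA_c (P' i) := by
        intro i
        show LocA_c (Sum.map (fun a => (⟨x a, hx a⟩ : {x // x ∈ E})) id (p i)) =
          LocA_c (Sum.map (fun a => (⟨x' a, hx' a⟩ : {x // x ∈ E})) id (p i))
        rcases p i with a | v <;> rfl
      have h2 : Orb G ∅ (fun i => (LocA_c (P' i)).elim (gp P (X P i)) Subtype.val)
          (fun i => (LocA_c (P' i)).elim (gp P' (X P' i)) Subtype.val) := by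
        refine LocA_key hV (c := fun i => LocA_c (P' i)) (a := fun i => gp P (X P i))
          (a' := fun i => gp P' (X P' i)) (fun i _ => hgpA P i) (fun i _ => hgpA P' i) ?_
        refine ((hgpo P).comp _).symm.trans (Orb.trans ?_ ((hgpo P').comp _))
        refine ⟨l, hl, fun i => ?_⟩
        obtain ⟨i, hi⟩ := i
        show l (Sum.elim Subtype.val (fun _ => d₀)
            (Sum.map (fun a => (⟨x a, hx a⟩ : {x // x ∈ E})) id (p i))) =
          Sum.elim Subtype.val (fun _ => d₀)
            (Sum.map (fun a => (⟨x' a, hx' a⟩ : {x // x ∈ E})) id (p i))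
        have hi' : LocA_c (Sum.map (fun a => (⟨x' a, hx' a⟩ : {x // x ∈ E})) id (p i)) =
          none := hi
        rcases hp : p i with a | v
        · exact hlx a
        · rw [hp] at hi'
          exact absurd hi' (Option.some_ne_none v)
      have h3 : τ P = fun i => (LocA_c (P' i)).elim (gp P (X P i)) Subtype.val := by
        funext i
        show (LocA_c (P i)).elim _ _ = _
        rw [hc i]
      rw [h3]
      exact h2
    obtain ⟨k, hk, hkx⟩ := h1
    rw [st_empty] at hk
    refine ⟨g * k * g⁻¹, mem_st.2 ⟨G.mul_mem (G.mul_mem hg hk) (G.inv_mem hg), fun v hv => ?_⟩,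
      fun a => ?_⟩
    · have h2 := hkx (Sum.inr ⟨v, hv⟩)
      have h3 : g (f₀ (Sum.inr ⟨v, hv⟩)) = v := hgV ⟨v, hv⟩
      have h4 : g⁻¹ v = f₀ (Sum.inr ⟨v, hv⟩) := by
        rw [Perm.inv_eq_iff_eq]
        exact h3.symm
      rw [Perm.mul_apply, Perm.mul_apply, h4]
      have h5 : k (f₀ (Sum.inr ⟨v, hv⟩)) = f₀ (Sum.inr ⟨v, hv⟩) := h2
      rw [h5, h3]
    · show (g * k * g⁻¹) (f (x a)) = f (x' a)
      rw [hf _ (hx a), hf _ (hx' a), Perm.mul_apply, Perm.mul_apply, Perm.inv_def,
        Equiv.symm_apply_apply]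
      have h5 : k (f₀ (Sum.inl ⟨x a, hx a⟩)) = f₀ (Sum.inl ⟨x' a, hx' a⟩) := hkx (Sum.inl a)
      rw [h5]
  · intro α _ x hx hxA
    have h1 : Orb G ∅ (fun z : α ⊕ {v // v ∈ V} => f₀ (Sum.map (fun a => ⟨x a, hx a⟩) id z))
        (fun z => Sum.elim x Subtype.val z) := by
      refine hext (fun z : α ⊕ {v // v ∈ V} => Sum.map (fun a => ⟨x a, hx a⟩) id z) _ fun p => ?_
      let P : Fin s → {x // x ∈ E} ⊕ {v // v ∈ V} :=
        fun i => Sum.map (fun a => ⟨x a, hx a⟩) id (p i)
      have h2 : Orb G ∅ (fun i => (LocA_c (P i)).elim (gp P (X P i)) Subtype.val)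
          (fun i => (LocA_c (P i)).elim (X P i) Subtype.val) := by
        refine LocA_key hV (c := fun i => LocA_c (P i)) (a := fun i => gp P (X P i))
          (a' := fun i => X P i) (fun i _ => hgpA P i) ?_ (((hgpo P).comp _).symm)
        intro i hi
        have hi' : LocA_c (Sum.map (fun a => (⟨x a, hx a⟩ : {x // x ∈ E})) id (p i)) =
          none := hi
        show Sum.elim Subtype.val (fun _ => d₀)
          (Sum.map (fun a => (⟨x a, hx a⟩ : {x // x ∈ E})) id (p i)) ∈ A
        rcases hp : p i with a | v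
        · exact hxA a
        · rw [hp] at hi'
          exact absurd hi' (Option.some_ne_none v)
      refine h2.trans ?_
      have h3 : (fun i => (LocA_c (P i)).elim (X P i) Subtype.val) =
          fun i => Sum.elim x Subtype.val (p i) := by
        funext i
        show (LocA_c (Sum.map (fun a => (⟨x a, hx a⟩ : {x // x ∈ E})) id (p i))).elim
          (Sum.elim Subtype.val (fun _ => d₀)
            (Sum.map (fun a => (⟨x a, hx a⟩ : {x // x ∈ E})) id (p i))) Subtype.val = _
        rcases p i with a | v <;> rfl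
      rw [h3]
      exact Orb.refl _
    obtain ⟨k, hk, hkx⟩ := h1
    rw [st_empty] at hk
    refine ⟨k * g⁻¹, mem_st.2 ⟨G.mul_mem hk (G.inv_mem hg), fun v hv => ?_⟩, fun a => ?_⟩
    · have h2 := hkx (Sum.inr ⟨v, hv⟩)
      have h3 : g (f₀ (Sum.inr ⟨v, hv⟩)) = v := hgV ⟨v, hv⟩
      have h4 : g⁻¹ v = f₀ (Sum.inr ⟨v, hv⟩) := by
        rw [Perm.inv_eq_iff_eq]
        exact h3.symm
      rw [Perm.mul_apply, h4]
      exact h2
    · show (k * g⁻¹) (f (x a)) = x a
      rw [hf _ (hx a), Perm.mul_apply, Perm.inv_def, Equiv.symm_apply_apply]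
      exact hkx (Sum.inl a)

end Pool.Agent.MP_f99268_lc
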