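import Pool.Agent.Lib.MP_f99268_lc_X.HomX
import Pool.Agent.Lib.MP_f99268_lc_X.C2D

/-!
# Reduction of continuity to the bad situation for binary operations
-/

namespace Pool.Agent.MP_f99268_lc

open Equiv Classical Filter

variable {D : Type} [Countable D] {X : Ctx D}

/-- If the value is not continuous then the bad situation occurs. Let `v ≠ val H` be the value of
`K B` for almost all `B` (`uf_exists_val`); so for every `B` there is `B' ⊇ B` with
`val (K B') = v` (`uf_superset`). Let `u B` be an embedding with `CanU B B' (u B)`, the identity on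
`B` (`exists_emb` with `1`), and `η B ∈ G` with `H x = η B (K B' x)` for `x` with values in `B'`.
Let `H' s t = H z`, where `z i = s` for `i = val H` and `z i = t` otherwise, and
`K' B s t = η B (K B' (fun i => u B (z i)))`. Then `Bad X H' K'`: values by `X.val_comp` (the inner
operations are the projections, or `x ↦ u B (x j)`, canonical from `B` to `B'`) and
`X.val_emb_proj`, `X.val_congr` for the composition with `η B` (same types). -/
theorem contH_of (h : ∀ H K, ¬ Bad X H K) : ContH X := by
  intro k H hH hcan K hK hKcan hη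
  obtain ⟨v, hv⟩ := uf_exists_val fun B => X.val k (K B)
  by_cases hvv : v = X.val k H
  · subst hvv
    exact hv
  exfalso
  have h1 : ∀ B : Finset D, ∃ B' : Finset D, B ⊆ B' ∧ X.val k (K B') = v := fun B => by
    obtain ⟨B', h1, h2⟩ := ((uf_superset B).and hv).exists
    exact ⟨B', h1, h2⟩
  choose B' hB' hval using h1
  have h2 : ∀ B : Finset D, ∃ u : D → D, Emb X.G u ∧ CanU X.G B (B' B) u ∧ ∀ a ∈ B, u a = a := by
    intro B
    obtain ⟨u, h1, h2, h3⟩ := exists_emb X.hR X.hO B (B' B) 1 X.G.one_mem
      (fun a ha => by simpa using hB' B ha)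
    exact ⟨u, h1, h2, fun a ha => by simpa using h3 a ha⟩
  choose u hu1 hu2 hu3 using h2
  choose η hηG hηe using hη
  obtain ⟨idx, hidx⟩ : ∃ idx : Fin (k + 1) → Fin 2, idx = fun i => if i = X.val k H then 0 else 1 :=
    ⟨_, rfl⟩
  have hi0 : idx (X.val k H) = 0 := by rw [hidx]; exact if_pos rfl
  have hi1 : idx v = 1 := by rw [hidx]; exact if_neg hvv
  have hvec : ∀ x : Fin 2 → D, (fun i => (![x 0, x 1] : Fin 2 → D) (idx i)) =
      fun i => x (idx i) := by
    intro x
    funext i
    generalize idx i = j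
    fin_cases j <;> rfl
  have hbH : bin (fun s t => H (fun i => (![s, t] : Fin 2 → D) (idx i))) =
      fun x => H (fun i => x (idx i)) := by
    funext x
    exact congrArg H (hvec x)
  have hbK : ∀ B, bin (fun s t => η (B' B) (K (B' B)
      (fun i => u B ((![s, t] : Fin 2 → D) (idx i))))) =
      fun x => η (B' B) (K (B' B) (fun i => u B (x (idx i)))) := by
    intro B
    funext x
    exact congrArg (fun z : Fin (k + 1) → D => η (B' B) (K (B' B) (fun i => u B (z i)))) (hvec x)
  have hEη : ∀ B, Emb X.G (η (B' B)) := fun B A => ⟨η (B' B), hηG _, fun _ _ => rfl⟩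
  have memK0 : ∀ B, (fun x : Fin 2 → D => K (B' B) (fun i => u B (x (idx i)))) ∈ X.C 2 := fun B =>
    X.hC.comp (k + 1) 2 (K (B' B)) (fun i x => u B (x (idx i))) (hK _)
      (fun i => X.hC.emb_comp (X.hC.proj 2 (idx i)) (hu1 B))
  have canK0 : ∀ B, Can X.G B ∅ (fun x : Fin 2 → D => K (B' B) (fun i => u B (x (idx i)))) :=
    fun B => (hKcan (B' B)).comp_can (K := fun i x => u B (x (idx i)))
      (fun i => (hu2 B).can (idx i))
  have canη : ∀ B, Can X.G B ∅ (fun x : Fin 2 → D => η (B' B)
      (K (B' B) (fun i => u B (x (idx i))))) := by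
    intro B m x y hxy
    have e := canK0 B m x y hxy
    have e1 : ∀ z : Fin m → D, Orb X.G ∅ z (fun l => η (B' B) (z l)) := fun z =>
      Orb.of_mem (by rw [st_empty]; exact hηG _) z
    exact ((e1 _).symm.trans e).trans (e1 _)
  refine h (fun s t => H (fun i => (![s, t] : Fin 2 → D) (idx i)))
    (fun B s t => η (B' B) (K (B' B) (fun i => u B ((![s, t] : Fin 2 → D) (idx i)))))
    ⟨?_, ?_, ?_, ?_, ?_, ?_, ?_⟩
  · rw [hbH]
    exact X.hC.comp (k + 1) 2 H (fun i x => x (idx i)) hH (fun i => X.hC.proj 2 (idx i))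
  · rw [hbH]
    exact hcan.comp_can (K := fun i x => x (idx i)) (fun i => Can.proj X.G ∅ (idx i))
  · rw [hbH]
    have e := X.val_comp (m := 1) (K := fun i x => x (idx i)) hH hcan
      (fun i => X.hC.proj 2 (idx i)) (fun i => Can.proj X.G ∅ (idx i))
    refine e.trans ?_
    rw [hi0]
    exact X.val_emb_proj (u := fun a => a) (c₀ := ∅) (c := ∅)
      (fun A => ⟨1, X.G.one_mem, fun _ _ => rfl⟩) (fun m x y h => h) 0
  · intro B
    rw [hbK]
    exact X.hC.emb_comp (memK0 B) (hEη B)
  · intro B
    rw [hbK]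
    exact canη B
  · intro B x hx y hy
    have hz : ∀ i, (![x, y] : Fin 2 → D) (idx i) ∈ B := by
      intro i
      generalize idx i = j
      fin_cases j
      · exact hx
      · exact hy
    have e : (fun i => u B ((![x, y] : Fin 2 → D) (idx i))) =
        fun i => (![x, y] : Fin 2 → D) (idx i) := by
      funext i
      exact hu3 B _ (hz i)
    change η (B' B) (K (B' B) (fun i => u B ((![x, y] : Fin 2 → D) (idx i)))) = _
    rw [e]
    exact (hηe (B' B) _ (fun i => hB' B (hz i))).symm
  · intro B
    rw [hbK]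
    have e1 : X.val 1 (fun x : Fin 2 → D => η (B' B) (K (B' B) (fun i => u B (x (idx i))))) =
        X.val 1 (fun x : Fin 2 → D => K (B' B) (fun i => u B (x (idx i)))) := by
      refine X.val_congr (X.hC.emb_comp (memK0 B) (hEη B)) (memK0 B) (canη B) (canK0 B) ?_
      intro m x
      exact (Orb.of_mem (by rw [st_empty]; exact hηG _) _).symm
    have e2 := X.val_comp (m := 1) (K := fun i x => u B (x (idx i))) (hK (B' B)) (hKcan (B' B))
      (fun i => X.hC.emb_comp (X.hC.proj 2 (idx i)) (hu1 B)) (fun i => (hu2 B).can (idx i))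
    rw [e1]
    refine e2.trans ?_
    rw [hval B]
    rw [hi1]
    exact X.val_emb_proj (hu1 B) (hu2 B) 1

end Pool.Agent.MP_f99268_lc
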