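import Pool.Agent.Lib.MP_f99268_lc_X.Jop

/-!
# Invariant total preorders on the copies
-/

namespace Pool.Agent.MP_f99268_lc

open Equiv Classical Filter

variable {D : Type} [Countable D] {X : Ctx D} {r : ℕ} {A : Finset D} {J : D → D → D}

/-- The function `ρ` defines a total preorder on the copies inside `S` whose upper sets are traces
of sets `U(f)`, `f ∈ 𝔼`, and which is not trivial on the copies inside `h B`, for all `h ∈ G` with
`h B ⊆ S`. -/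
structure Rk (X : Ctx D) (A : Finset D) (J : D → D → D) (B S : Finset D)
    (ρ : ({a // a ∈ A} → D) → ℕ) : Prop where
  up : ∀ i, ∃ f, EE X f ∧ ∀ e, IsCopy X.G A e → (∀ a, e a ∈ S) → (e ∈ US X A J f ↔ i < ρ e)
  nc : ∀ h ∈ X.G, (∀ b ∈ B, h b ∈ S) → ∃ e e', IsCopy X.G A e ∧ IsCopy X.G A e' ∧
    (∀ a, e a ∈ B.image h) ∧ (∀ a, e' a ∈ B.image h) ∧ ρ e < ρ e'

/-- The preorder depends on the types of pairs of copies only. -/
def RkHom (X : Ctx D) (A S : Finset D) (ρ : ({a // a ∈ A} → D) → ℕ) : Prop :=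
  ∀ e₁ e₂ e₁' e₂', IsCopy X.G A e₁ → IsCopy X.G A e₂ → IsCopy X.G A e₁' → IsCopy X.G A e₂' →
    (∀ a, e₁ a ∈ S) → (∀ a, e₂ a ∈ S) → (∀ a, e₁' a ∈ S) → (∀ a, e₂' a ∈ S) →
    Orb X.G ∅ (Sum.elim e₁ e₂) (Sum.elim e₁' e₂') → (ρ e₁ < ρ e₂ ↔ ρ e₁' < ρ e₂')

/-- A `G`-invariant strict weak order on the copies, not empty, whose upper sets are locally
traces of sets `U(f)`, `f ∈ 𝔼`. -/
structure InvOrd (X : Ctx D) (A : Finset D) (J : D → D → D)
    (R : ({a // a ∈ A} → D) → ({a // a ∈ A} → D) → Prop) : Prop where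
  inv : ∀ e e', IsCopy X.G A e → IsCopy X.G A e' → ∀ g ∈ X.G, R e e' →
    R (fun a => g (e a)) (fun a => g (e' a))
  asymm : ∀ e e', IsCopy X.G A e → IsCopy X.G A e' → R e e' → ¬ R e' e
  ntrans : ∀ e e' e'', IsCopy X.G A e → IsCopy X.G A e' → IsCopy X.G A e'' → R e e'' →
    R e e' ∨ R e' e''
  ex : ∃ e e', IsCopy X.G A e ∧ IsCopy X.G A e' ∧ R e e'
  up : ∀ o, IsCopy X.G A o → ∀ S : Finset D, ∃ f, EE X f ∧ ∀ e, IsCopy X.G A e →
    (∀ a, e a ∈ S) → (e ∈ US X A J f ↔ R o e)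

/-- The failure of T2 for the finite set `S`: a list `l` of members of `𝔼`, every `U(f)`, `f ∈ l`,
contains a copy inside `h B` for every `h ∈ G` with `h B ⊆ S`, no copy inside `S` is in all
`U(f)`. -/
def NoT2 (X : Ctx D) (A : Finset D) (J : D → D → D) (B S : Finset D) : Prop :=
  ∃ l : List (D → D → D), (∀ f ∈ l, EE X f) ∧
    (∀ f ∈ l, ∀ h ∈ X.G, (∀ b ∈ B, h b ∈ S) → ∃ e, IsCopy X.G A e ∧ (∀ a, e a ∈ B.image h) ∧
      e ∈ US X A J f) ∧
    ∀ e, IsCopy X.G A e → (∀ a, e a ∈ S) → ∃ f ∈ l, e ∉ US X A J f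

end Pool.Agent.MP_f99268_lc
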