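import Pool.Agent.Lib.MP_f99268_lc_X.Defs

/-!
# Ramsey type lemmas
-/

namespace Pool.Agent.MP_f99268_lc

open Equiv Classical

variable {D : Type}

/-- Induction on the finite set of families. -/
private theorem TestA_aux {G : Subgroup (Perm D)} (hR : FR G Bool) (α : Type) [Fintype α]
    (κ : Type) [Finite κ] (Q : Finset (α → D)) : ∀ B : Finset D, ∃ C : Finset D,
      ∀ χ : (α → D) → κ, ∃ h ∈ G, (∀ b ∈ B, h b ∈ C) ∧
        ∀ x ∈ Q, ∀ g ∈ G, ∀ g' ∈ G, (∀ a, g (x a) ∈ B) → (∀ a, g' (x a) ∈ B) →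
          χ (fun a => h (g (x a))) = χ (fun a => h (g' (x a))) := by
  induction Q using Finset.induction_on with
  | empty =>
    intro B
    refine ⟨B, fun χ => ⟨1, G.one_mem, fun b hb => hb, ?_⟩⟩
    intro x hx
    simp at hx
  | insert x₀ Q _ ih =>
    intro B
    obtain ⟨C₁, hC₁⟩ := hR.of_bool κ (Finset.univ.image x₀) B
    obtain ⟨C₂, hC₂⟩ := ih C₁
    refine ⟨C₂, fun χ => ?_⟩
    obtain ⟨h₂, hh₂, hB₂, hχ₂⟩ := hC₂ χ
    obtain ⟨h₁, hh₁, hB₁, hχ₁⟩ := hC₁ (fun φ => χ (fun a => h₂ (φ ⟨x₀ a,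
      Finset.mem_image_of_mem _ (Finset.mem_univ _)⟩)))
    refine ⟨h₂ * h₁, G.mul_mem hh₂ hh₁, fun b hb => hB₂ _ (hB₁ b hb), ?_⟩
    intro x hx g hg g' hg' hgB hg'B
    rw [Finset.mem_insert] at hx
    rcases hx with rfl | hx
    · refine hχ₁ (h₁ * g) (G.mul_mem hh₁ hg) (h₁ * g') (G.mul_mem hh₁ hg') ?_ ?_
      · intro a ha
        obtain ⟨i, -, rfl⟩ := Finset.mem_image.1 ha
        exact ⟨_, hgB i, rfl⟩
      · intro a ha
        obtain ⟨i, -, rfl⟩ := Finset.mem_image.1 ha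
        exact ⟨_, hg'B i, rfl⟩
    · exact hχ₂ x hx (h₁ * g) (G.mul_mem hh₁ hg) (h₁ * g') (G.mul_mem hh₁ hg')
        (fun a => hB₁ _ (hgB a)) (fun a => hB₁ _ (hg'B a))

/-- Ramsey property for colourings of finite families of points. Let `Q` be a finite set of
families `x : α → D` with values in `B`; by induction on `Q` (for all `B` at the same time) one
gets `C` such that for every colouring `χ` some `h ∈ G` maps `B` into `C` and
`χ (h ∘ g ∘ x) = χ (h ∘ g' ∘ x)` for all `x ∈ Q` and `g, g' ∈ G` for which `g ∘ x`, `g' ∘ x` have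
values in `B`. Step: for the new family `x₀` apply `hR.of_bool κ` to the finite set
`x₀ '' α` and `B`, getting `C₁`; apply the induction hypothesis to `C₁` instead of `B`, getting
`C₂`; given `χ` take `h₂` for `C₁ → C₂` and then `h₁` for the colouring
`φ ↦ χ (a ↦ h₂ (φ (x₀ a)))` of the maps from `x₀ '' α`; let `h = h₂ * h₁` (compare `FR.prod`).
At the end take for `Q` all families with values in `B` (`Fintype.piFinset`). -/
theorem ramsey_maps {G : Subgroup (Perm D)} (hR : FR G Bool) (α : Type) [Finite α] (κ : Type)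
    [Finite κ] (B : Finset D) : ∃ C : Finset D, ∀ χ : (α → D) → κ, ∃ h ∈ G,
      (∀ b ∈ B, h b ∈ C) ∧ ∀ x y : α → D, (∀ a, x a ∈ B) → (∀ a, y a ∈ B) → Orb G ∅ x y →
        χ (fun a => h (x a)) = χ (fun a => h (y a)) := by
  have : Fintype α := Fintype.ofFinite α
  obtain ⟨C, hC⟩ := TestA_aux hR α κ (Fintype.piFinset fun _ => B) B
  refine ⟨C, fun χ => ?_⟩
  obtain ⟨h, hh, hB, hχ⟩ := hC χ
  refine ⟨h, hh, hB, fun x y hx hy hxy => ?_⟩
  obtain ⟨g, hg, hgxy⟩ := hxy
  have h1 := hχ x (Fintype.mem_piFinset.2 hx) 1 G.one_mem g (st_le hg) hx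
    (fun a => by rw [hgxy a]; exact hy a)
  simpa [hgxy] using h1

variable [Countable D]

/-- A `G × G`-invariant position. Apply `canonisation hR hO ∅ ∅ (Fin 2) 2` to the two projections
`F i x = x i`. For finite `B` there are `β 0, β 1 ∈ G`, `η ∈ G` with `K i x = η (β i (x i))` for
`x` with values in `B`. Let `p a = K 0 (fun _ => a)`, `q a = K 1 (fun _ => a)`; then
`K 0 x = p (x 0)`, `K 1 x = q (x 1)`. For the last statement take a common exponent: pass to the
index set `α ⊕ β` for both tuples (repeat one of the values or use `Option`; the empty cases are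
easy), as in `Can.fin`. -/
theorem exists_pq {G : Subgroup (Perm D)} (hR : FR G Bool) (hO : Olig G) :
    ∃ p q : D → D, Emb G p ∧ Emb G q ∧
      ∀ (α β : Type) [Finite α] [Finite β] (x x' : α → D) (y y' : β → D),
        Orb G ∅ x x' → Orb G ∅ y y' →
        Orb G ∅ (Sum.elim (fun a => p (x a)) fun b => q (y b))
          (Sum.elim (fun a => p (x' a)) fun b => q (y' b)) := by
  obtain ⟨K, hK1, hK2⟩ := canonisation hR hO ∅ ∅ (Fin 2) 2
    (fun (i : Fin 2) (x : Fin 2 → D) => x i)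
  have hp : ∀ (i : Fin 2) (x : Fin 2 → D), K i x = K i (fun _ => x i) := by
    intro i x
    obtain ⟨β, -, η, -, h⟩ := hK1 (Finset.univ.image x)
    rw [h i x (fun j => Finset.mem_image_of_mem _ (Finset.mem_univ _)),
      h i (fun _ => x i) (fun j => Finset.mem_image_of_mem _ (Finset.mem_univ _))]
  have hemb : ∀ i : Fin 2, Emb G (fun a => K i (fun _ => a)) := by
    intro i A
    obtain ⟨β, hβ, η, hη, h⟩ := hK1 A
    refine ⟨η * β i, G.mul_mem (st_le hη) (st_le (hβ i)), fun a ha => ?_⟩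
    exact h i (fun _ => a) (fun _ => ha)
  refine ⟨fun a => K 0 (fun _ => a), fun a => K 1 (fun _ => a), hemb 0, hemb 1, ?_⟩
  intro α β _ _ x x' y y' hx hy
  rcases isEmpty_or_nonempty α with hα | ⟨⟨a₀⟩⟩
  · obtain ⟨g, hg, h⟩ := (((hemb 1).orb y).symm.trans hy).trans ((hemb 1).orb y')
    refine ⟨g, hg, ?_⟩
    rintro (a | b)
    · exact hα.elim a
    · exact h b
  rcases isEmpty_or_nonempty β with hβ | ⟨⟨b₀⟩⟩
  · obtain ⟨g, hg, h⟩ := (((hemb 0).orb x).symm.trans hx).trans ((hemb 0).orb x')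
    refine ⟨g, hg, ?_⟩
    rintro (a | b)
    · exact h a
    · exact hβ.elim b
  obtain ⟨n, ⟨e⟩⟩ := Finite.exists_equiv_fin (α × β)
  have h1 := hK2 n
    (fun j l => if j = 0 then x (e.symm l).1 else y (e.symm l).2)
    (fun j l => if j = 0 then x' (e.symm l).1 else y' (e.symm l).2) (by
      intro j
      by_cases hj : j = 0
      · simp only [hj, if_true]
        exact hx.comp (fun l => (e.symm l).1)
      · simp only [hj, if_false]
        exact hy.comp (fun l => (e.symm l).2))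
  have h2 := h1.comp (fun s : α ⊕ β => Sum.elim (fun a => ((0 : Fin 2), e (a, b₀)))
    (fun b => ((1 : Fin 2), e (a₀, b))) s)
  obtain ⟨g, hg, h⟩ := h2
  refine ⟨g, hg, ?_⟩
  rintro (a | b)
  · have h3 := h (Sum.inl a)
    simp only [Sum.elim_inl] at h3 ⊢
    rw [hp 0 (fun j => if j = 0 then x (e.symm (e (a, b₀))).1 else y (e.symm (e (a, b₀))).2),
      hp 0 (fun j => if j = 0 then x' (e.symm (e (a, b₀))).1 else y' (e.symm (e (a, b₀))).2)] at h3
    simpa using h3
  · have h3 := h (Sum.inr b)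
    simp only [Sum.elim_inr] at h3 ⊢
    rw [hp 1 (fun j => if j = 0 then x (e.symm (e (a₀, b))).1 else y (e.symm (e (a₀, b))).2),
      hp 1 (fun j => if j = 0 then x' (e.symm (e (a₀, b))).1 else y' (e.symm (e (a₀, b))).2)] at h3
    simpa using h3

/-- The two embeddings are canonical over each other (fix the values `y` of `q` on a finite set
and use `exists_pq` with `y' = y`). -/
theorem exists_pq' {G : Subgroup (Perm D)} (hR : FR G Bool) (hO : Olig G) :
    ∃ p q : D → D, Emb G p ∧ Emb G q ∧ (∀ B : Finset D, CanU G ∅ (B.image q) p) ∧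
      ∀ B : Finset D, CanU G ∅ (B.image p) q := by
  obtain ⟨p, q, hp, hq, h⟩ := exists_pq hR hO
  refine ⟨p, q, hp, hq, ?_, ?_⟩
  · intro B m x y hxy
    obtain ⟨g, hg, h1⟩ := h (Fin m) {b // b ∈ B} x y Subtype.val Subtype.val hxy (Orb.refl _)
    refine ⟨g, ?_, fun i => h1 (Sum.inl i)⟩
    rw [mem_st]
    refine ⟨st_le hg, fun a ha => ?_⟩
    obtain ⟨b, hb, rfl⟩ := Finset.mem_image.1 ha
    exact h1 (Sum.inr ⟨b, hb⟩)
  · intro B m x y hxy
    obtain ⟨g, hg, h1⟩ := h {b // b ∈ B} (Fin m) Subtype.val Subtype.val x y (Orb.refl _) hxy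
    refine ⟨g, ?_, fun i => h1 (Sum.inr i)⟩
    rw [mem_st]
    refine ⟨st_le hg, fun a ha => ?_⟩
    obtain ⟨b, hb, rfl⟩ := Finset.mem_image.1 ha
    exact h1 (Sum.inl ⟨b, hb⟩)

end Pool.Agent.MP_f99268_lc
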