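import Pool.Agent.Lib.MP_f99268_lc_X.Rho
import Pool.Agent.Lib.MP_f99268_lc_X.Lim
import Pool.Agent.Lib.MP_f99268_lc_X.TestA

/-!
# Invariant total preorders on the copies: finite sets
-/

namespace Pool.Agent.MP_f99268_lc

open Equiv Classical Filter

variable {D : Type} [Countable D] {X : Ctx D} {r : ℕ} {A : Finset D} {J : D → D → D}

/-- Let `A ⊆ S` (so that `inc A` is a copy inside `S` and `l` is not empty). Let `ρ e` be the index
of the first `f` in the list `l` with `e ∉ U(f)` (`List.findIdx`). `up`: `i < ρ e` iff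
`e ∈ U(f)` for all `f` in `l.take (i + 1)` (also if `i ≥ l.length`, as then both sides are false
for copies inside `S`); `IsJ.exists_list`. `nc`: let `h B ⊆ S`. As `l` is not empty there is a
copy inside `h B`. If there are no copies `e`, `e'` inside `h B` with `ρ e < ρ e'` then `ρ` is
constant, say `j`, on the copies inside `h B`, and `j < l.length`; none of them is in `U(l[j])`,
contradiction. -/
theorem IsJ.exists_rk (hJ : IsJ X r A J) {B S : Finset D} (hAS : A ⊆ S) (h : NoT2 X A J B S) :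
    ∃ ρ, Rk X A J B S ρ := by
  obtain ⟨l, hl, hB, hS⟩ := h
  have hlt : ∀ e, IsCopy X.G A e → (∀ a, e a ∈ S) →
      l.findIdx (fun f => decide (e ∉ US X A J f)) < l.length := by
    intro e he heS
    obtain ⟨f, hf, hfe⟩ := hS e he heS
    exact List.findIdx_lt_length.2 ⟨f, hf, by simpa using hfe⟩
  refine ⟨fun e => l.findIdx (fun f => decide (e ∉ US X A J f)), fun i => ?_, fun g hg hgS => ?_⟩
  · obtain ⟨f, hf, hfe⟩ := hJ.exists_list (l.take (i + 1))
      (fun f hf => hl f (List.mem_of_mem_take hf))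
    refine ⟨f, hf, fun e he heS => ?_⟩
    rw [hfe e he]
    constructor
    · intro h1
      by_contra h2
      push Not at h2
      have h3 := List.findIdx_getElem (w := hlt e he heS)
      rw [decide_eq_true_eq] at h3
      apply h3
      apply h1
      rw [List.mem_take_iff_getElem]
      exact ⟨_, by have := hlt e he heS; omega, rfl⟩
    · intro h1 f' hf'
      obtain ⟨j, hj, rfl⟩ := List.mem_take_iff_getElem.1 hf'
      have h2 := List.not_of_lt_findIdx (p := fun f => decide (e ∉ US X A J f)) (xs := l) (i := j)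
        (by omega)
      simpa using h2
  · obtain ⟨f₀, hf₀, -⟩ := hS (inc A) ⟨1, X.G.one_mem, fun _ => rfl⟩ (fun a => hAS a.2)
    have himS : ∀ e : {a // a ∈ A} → D, (∀ a, e a ∈ B.image g) → ∀ a, e a ∈ S := by
      intro e he a
      obtain ⟨b, hb, hbe⟩ := Finset.mem_image.1 (he a)
      rw [← hbe]
      exact hgS b hb
    obtain ⟨e₀, he₀, he₀B, -⟩ := hB f₀ hf₀ g hg hgS
    by_contra hcon
    push Not at hcon
    have hj := hlt e₀ he₀ (himS e₀ he₀B)
    obtain ⟨e₁, he₁, he₁B, he₁U⟩ := hB _ (List.getElem_mem hj) g hg hgS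
    have h1 := hcon e₀ e₁ he₀ he₁ he₀B he₁B
    have h2 := hcon e₁ e₀ he₁ he₀ he₁B he₀B
    have h3 : l.findIdx (fun f => decide (e₁ ∉ US X A J f)) =
        l.findIdx (fun f => decide (e₀ ∉ US X A J f)) := le_antisymm h1 h2
    have h4 := List.findIdx_getElem (w := hlt e₁ he₁ (himS e₁ he₁B))
    rw [decide_eq_true_eq] at h4
    apply h4
    simp only [h3]
    exact he₁U

/-- Ramsey argument. Apply `ramsey_maps X.hR` to `α = {a // a ∈ A} ⊕ {a // a ∈ A}`, `κ = Bool` and
the set `S`, getting `C`, and let `ρ'` be as in `exists_rk` for the set `C ∪ A` (note that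
`NoT2` is assumed for all sets), `χ x = decide (ρ' (x ∘ inl) < ρ' (x ∘ inr))`, `h` the element of
`G` for `χ`, and `ρ e = ρ' (h ∘ e)`. `up`: if `f` is the operation for `ρ'` and `i`, take
`fun s t => f s (h t)` (`EE.shift`, `US_shift`). `nc`: if `g B ⊆ S` then `(h * g) B ⊆ C ∪ A`; take
`h⁻¹ ∘ e`, `h⁻¹ ∘ e'` for the copies `e`, `e'` of `nc` for `ρ'`. -/
theorem IsJ.exists_rkHom (hJ : IsJ X r A J) {B : Finset D} (h : ∀ S, NoT2 X A J B S)
    (S : Finset D) : ∃ ρ, Rk X A J B S ρ ∧ RkHom X A S ρ := by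
  obtain ⟨C, hC⟩ := ramsey_maps X.hR ({a // a ∈ A} ⊕ {a // a ∈ A}) Bool S
  obtain ⟨ρ', hρ'⟩ := hJ.exists_rk (S := C ∪ A) Finset.subset_union_right (h (C ∪ A))
  obtain ⟨k, hk, hkS, hkχ⟩ := hC (fun x => decide (ρ' (fun a => x (Sum.inl a)) <
    ρ' (fun a => x (Sum.inr a))))
  have hcopy : ∀ (g : Perm D), g ∈ X.G → ∀ e : {a // a ∈ A} → D, IsCopy X.G A e →
      IsCopy X.G A (fun a => g (e a)) := by
    rintro g hg e ⟨g', hg', he⟩
    exact ⟨g * g', X.G.mul_mem hg hg', fun a => by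
      show g (e a) = g (g' a)
      rw [he a]⟩
  have hkC : ∀ s ∈ S, k s ∈ C ∪ A := fun s hs => Finset.mem_union_left _ (hkS s hs)
  refine ⟨fun e => ρ' (fun a => k (e a)), ⟨?_, ?_⟩, ?_⟩
  · intro i
    obtain ⟨f, hf, hfe⟩ := hρ'.up i
    refine ⟨fun s t => f s (k t), hf.shift hk, fun e he heS => ?_⟩
    rw [US_shift]
    exact hfe _ (hcopy k hk e he) (fun a => hkC _ (heS a))
  · intro g hg hgB
    obtain ⟨e, e', he, he', heB, heB', hlt⟩ := hρ'.nc (k * g) (X.G.mul_mem hk hg)
      (fun b hb => hkC _ (hgB b hb))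
    have hk' : k⁻¹ ∈ X.G := X.G.inv_mem hk
    refine ⟨fun a => k⁻¹ (e a), fun a => k⁻¹ (e' a), hcopy _ hk' e he,
      hcopy _ hk' e' he', ?_, ?_, ?_⟩
    · intro a
      obtain ⟨b, hb, hbe⟩ := Finset.mem_image.1 (heB a)
      refine Finset.mem_image.2 ⟨b, hb, ?_⟩
      show g b = k⁻¹ (_)
      rw [← hbe]
      simp
    · intro a
      obtain ⟨b, hb, hbe⟩ := Finset.mem_image.1 (heB' a)
      refine Finset.mem_image.2 ⟨b, hb, ?_⟩
      show g b = k⁻¹ (_)
      rw [← hbe]
      simp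
    · simpa using hlt
  · intro e₁ e₂ e₁' e₂' _ _ _ _ h1 h2 h1' h2' ho
    have h3 := hkχ (Sum.elim e₁ e₂) (Sum.elim e₁' e₂') (by
      rintro (a | a)
      · exact h1 a
      · exact h2 a) (by
      rintro (a | a)
      · exact h1' a
      · exact h2' a) ho
    simpa using h3

end Pool.Agent.MP_f99268_lc
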