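import Pool.Agent.Lib.MP_f99268_lc_X.RhoA

/-!
# Invariant total preorders on the copies: the limit
-/

namespace Pool.Agent.MP_f99268_lc

open Equiv Classical Filter

variable {D : Type} [Countable D] {X : Ctx D} {r : ℕ} {A : Finset D} {J : D → D → D}

private theorem RhoB_copy_mul {e : {a // a ∈ A} → D} (he : IsCopy X.G A e) {g : Perm D}
    (hg : g ∈ X.G) : IsCopy X.G A (fun a => g (e a)) := by
  obtain ⟨k, hk, h⟩ := he
  exact ⟨g * k, X.G.mul_mem hg hk, fun a => congrArg g (h a)⟩

omit [Countable D] in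
private theorem RhoB_inside (e : {a // a ∈ A} → D) :
    ∀ᶠ S in (uf D : Filter (Finset D)), ∀ a, e a ∈ S := by
  filter_upwards [uf_superset (rng e)] with S hS a
  exact hS (Finset.mem_image_of_mem _ (Finset.mem_univ a))

/-- Limit along the ultrafilter `uf D`: `R e e'` iff `ρ S e < ρ S e'` for almost all `S`.
`inv`: `RkHom` for the sets `S` that contain the values of `e`, `e'`, `g ∘ e`, `g ∘ e'`
(`uf_superset`). `asymm`, `ntrans`: clear (`Ultrafilter.eventually_or`). `ex`: for almost all `S`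
we have `B ⊆ S`, and `nc` for `h = 1` gives copies `e`, `e'` inside `B` with `ρ S e < ρ S e'`;
there are finitely many such pairs, so one pair works for almost all `S`. `up`: for the finitely
many copies `e` inside the finite set `S₀` we have, for almost all `S`,
`ρ S o < ρ S e ↔ R o e`; take such an `S` that contains `S₀`, and `up` for `i = ρ S o`. -/
theorem IsJ.exists_invOrd (hJ : IsJ X r A J) {B : Finset D} (h : ∀ S, NoT2 X A J B S) :
    ∃ R, InvOrd X A J R := by
  choose ρ hρ hρ' using fun S => hJ.exists_rkHom h S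
  have hiff : ∀ e e', ∀ᶠ S in (uf D : Filter (Finset D)), (ρ S e < ρ S e' ↔
      ∀ᶠ S in (uf D : Filter (Finset D)), ρ S e < ρ S e') := by
    intro e e'
    by_cases hR : ∀ᶠ S in (uf D : Filter (Finset D)), ρ S e < ρ S e'
    · filter_upwards [hR] with S hS
      exact iff_of_true hS hR
    · have h1 := (Ultrafilter.eventually_not (f := uf D)).2 hR
      filter_upwards [h1] with S hS
      exact iff_of_false hS hR
  refine ⟨fun e e' => ∀ᶠ S in (uf D : Filter (Finset D)), ρ S e < ρ S e', ?_, ?_, ?_, ?_, ?_⟩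
  · intro e e' he he' g hg hR
    filter_upwards [hR, RhoB_inside e, RhoB_inside e', RhoB_inside (fun a => g (e a)),
      RhoB_inside (fun a => g (e' a))] with S h1 h2 h3 h4 h5
    refine (hρ' S e e' _ _ he he' (RhoB_copy_mul he hg) (RhoB_copy_mul he' hg) h2 h3 h4 h5 ?_).1 h1
    refine ⟨g, by rw [st_empty]; exact hg, ?_⟩
    rintro (a | a) <;> rfl
  · intro e e' _ _ h1 h2
    obtain ⟨S, h3, h4⟩ := (h1.and h2).exists
    exact absurd h3 (by omega)
  · intro e e' e'' _ _ _ h1
    rw [← Ultrafilter.eventually_or]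
    filter_upwards [h1] with S hS
    omega
  · have h1 : ∀ᶠ S in (uf D : Filter (Finset D)),
        ∃ p : ({a // a ∈ A} → {b // b ∈ B}) × ({a // a ∈ A} → {b // b ∈ B}),
          IsCopy X.G A (fun a => (p.1 a : D)) ∧ IsCopy X.G A (fun a => (p.2 a : D)) ∧
            ρ S (fun a => (p.1 a : D)) < ρ S (fun a => (p.2 a : D)) := by
      filter_upwards [uf_superset B] with S hS
      obtain ⟨e, e', he, he', h2, h3, h4⟩ := (hρ S).nc 1 X.G.one_mem (fun b hb => hS hb)
      have h5 : ∀ a, e a ∈ B := fun a => by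
        obtain ⟨b, hb, hb'⟩ := Finset.mem_image.1 (h2 a)
        rw [← hb']
        exact hb
      have h6 : ∀ a, e' a ∈ B := fun a => by
        obtain ⟨b, hb, hb'⟩ := Finset.mem_image.1 (h3 a)
        rw [← hb']
        exact hb
      exact ⟨(fun a => ⟨e a, h5 a⟩, fun a => ⟨e' a, h6 a⟩), he, he', h4⟩
    rw [Ultrafilter.eventually_exists_iff] at h1
    obtain ⟨p, hp⟩ := h1
    obtain ⟨S, hS⟩ := hp.exists
    exact ⟨_, _, hS.1, hS.2.1, hp.mono fun S hS => hS.2.2⟩
  · intro o ho S₀
    have h1 : ∀ᶠ S in (uf D : Filter (Finset D)), ∀ e : {a // a ∈ A} → {b // b ∈ S₀},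
        (ρ S o < ρ S (fun a => (e a : D)) ↔
          ∀ᶠ S in (uf D : Filter (Finset D)), ρ S o < ρ S (fun a => (e a : D))) := by
      rw [eventually_all]
      exact fun e => hiff _ _
    obtain ⟨S, hS, hS₀⟩ := (h1.and (uf_superset S₀)).exists
    obtain ⟨f, hf, hf'⟩ := (hρ S).up (ρ S o)
    refine ⟨f, hf, fun e he heS => ?_⟩
    rw [hf' e he (fun a => hS₀ (heS a))]
    exact hS (fun a => ⟨e a, heS a⟩)

end Pool.Agent.MP_f99268_lc
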