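import Pool.Agent.Lib.MP_f99268_lc_X.RhoB

/-!
# The density theorem for closed sets of copies
-/

namespace Pool.Agent.MP_f99268_lc

open Equiv Classical Filter

variable {D : Type} [Countable D] {X : Ctx D} {r : ℕ} {A : Finset D} {J : D → D → D}
  {R : ({a // a ∈ A} → D) → ({a // a ∈ A} → D) → Prop}

omit [Countable D] in
private theorem T2_copy_comp {G : Subgroup (Perm D)} {e : {a // a ∈ A} → D}
    (he : IsCopy G A e) {g : Perm D} (hg : g ∈ G) : IsCopy G A (fun a => g (e a)) := by
  obtain ⟨k, hk, h⟩ := he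
  refine ⟨g * k, G.mul_mem hg hk, fun a => ?_⟩
  rw [Perm.coe_mul, Function.comp_apply, ← h a]

private theorem T2_inv_iff (hR : InvOrd X A J R) {e e' : {a // a ∈ A} → D}
    (he : IsCopy X.G A e) (he' : IsCopy X.G A e') {g : Perm D} (hg : g ∈ X.G) :
    R (fun a => g (e a)) (fun a => g (e' a)) ↔ R e e' := by
  constructor
  · intro h
    have h1 := hR.inv _ _ (T2_copy_comp he hg) (T2_copy_comp he' hg) g⁻¹ (X.G.inv_mem hg) h
    simpa using h1
  · exact hR.inv e e' he he' g hg

omit [Countable D] in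
private theorem T2_fix {G : Subgroup (Perm D)} {o : {a // a ∈ A} → D} {β : Perm D}
    (hβ : β ∈ st G (rng o)) : (fun a => β (o a)) = o := by
  rw [mem_st] at hβ
  funext a
  apply hβ.2
  exact Finset.mem_image_of_mem o (Finset.mem_univ a)

/-- Let `o` be a copy. `IsJ.exists_lim` for `c = rng o`, `P e = R o e`, `Q e = ¬ R o e` (invariant
under `G_c` by `InvOrd.inv` for `β` and `β⁻¹`, as `β ∘ o = o`) on copies gives `f ∈ 𝔼` canonical
over `rng o` with `e ∈ U(f) ↔ R o e` for all copies `e` (include `IsCopy` into `P` and `Q`).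
`IsJ.far_iff` gives `R o e ↔ val f = 0` for `e` in canonical position over `rng o`. -/
theorem InvOrd.canC_iff (hJ : IsJ X r A J) (hR : InvOrd X A J R) {o e e' : {a // a ∈ A} → D}
    (ho : IsCopy X.G A o) (he : CanC X.G A (rng o) e) (he' : CanC X.G A (rng o) e') :
    R o e ↔ R o e' := by
  have key : ∀ β ∈ st X.G (rng o), ∀ e : {a // a ∈ A} → D, IsCopy X.G A e →
      (R o (fun a => β (e a)) ↔ R o e) := by
    intro β hβ e he
    have h1 := T2_inv_iff hR ho he (st_le hβ)
    rwa [T2_fix hβ] at h1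
  obtain ⟨f, hf, hcan, hPQ⟩ := hJ.exists_lim (rng o) (fun e => IsCopy X.G A e ∧ R o e)
    (fun e => IsCopy X.G A e ∧ ¬ R o e)
    (fun β hβ e h => ⟨T2_copy_comp h.1 (st_le hβ), (key β hβ e h.1).2 h.2⟩)
    (fun β hβ e h => ⟨T2_copy_comp h.1 (st_le hβ), fun h' => h.2 ((key β hβ e h.1).1 h')⟩)
    (fun S => by
      obtain ⟨f, hf, h⟩ := hR.up o ho S
      exact ⟨f, hf, fun e he hS => ⟨fun hP => (h e he hS).2 hP.2,
        fun hQ hU => hQ.2 ((h e he hS).1 hU)⟩⟩)
  have main : ∀ e : {a // a ∈ A} → D, CanC X.G A (rng o) e → (R o e ↔ X.val 1 (bin f) = 0) := by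
    intro e he
    rw [← hJ.far_iff hf hcan he]
    constructor
    · intro h
      exact (hPQ e he.copy).1 ⟨he.copy, h⟩
    · intro h
      by_contra hcon
      exact (hPQ e he.copy).2 ⟨he.copy, hcon⟩ h
  rw [main e he, main e' he']

/-- There is no such order. Let `p`, `q` be as in `exists_pq'`, `o = q|A`, `V = R o (p|A)`.
(1) For all copies `o'` and all `e ∈ CanC (rng o')`: `R o' e ↔ V`: there is `g ∈ G` with
`g ∘ o = o'` (both are copies), `g ∘ (p|A)` is in canonical position over `rng o'` (`CanC.move`),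
`canC_iff`, and `InvOrd.inv`. (2) Let `R e e'` (`InvOrd.ex`). Then `R (p ∘ e) (p ∘ e')` (`p` agrees
with an element of `G` on the finite set of values of `e`, `e'`). The copy `p ∘ e` is in canonical
position over `rng o`, and `o` is in canonical position over `rng (p ∘ e)`; same for `e'`. By (1)
`R o (p ∘ e) ↔ V` and `R (p ∘ e) o ↔ V`; by `asymm` `V` is false, hence neither `R (p ∘ e) o` nor
`R o (p ∘ e')`, in contradiction to `ntrans`. -/
theorem InvOrd.false (hJ : IsJ X r A J) (hR : InvOrd X A J R) : False := by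
  obtain ⟨p, q, hp, hq, hpc, hqc⟩ := exists_pq' X.hR X.hO
  obtain ⟨o, ho⟩ : ∃ o : {a // a ∈ A} → D, o = fun a => q (inc A a) := ⟨_, rfl⟩
  obtain ⟨pA, hpA⟩ : ∃ o : {a // a ∈ A} → D, o = fun a => p (inc A a) := ⟨_, rfl⟩
  -- copies under self-embeddings
  have hcopy : ∀ (u : D → D), Emb X.G u → ∀ e : {a // a ∈ A} → D, IsCopy X.G A e →
      IsCopy X.G A (fun a => u (e a)) := by
    intro u hu e he
    obtain ⟨g, hg, h⟩ := hu (rng e)
    have h1 : (fun a => u (e a)) = fun a => g (e a) := by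
      funext a
      exact h (e a) (Finset.mem_image_of_mem e (Finset.mem_univ a))
    rw [h1]
    exact T2_copy_comp he hg
  have hinc : IsCopy X.G A (inc A) := ⟨1, X.G.one_mem, fun a => rfl⟩
  have hoC : IsCopy X.G A o := by
    rw [ho]
    exact hcopy q hq (inc A) hinc
  -- `p ∘ e` is in canonical position over the sets `q B`
  have hpe : ∀ (B : Finset D) (e : {a // a ∈ A} → D), IsCopy X.G A e →
      CanC X.G A (B.image q) (fun a => p (e a)) := by
    intro B e he
    obtain ⟨k, hk, h⟩ := he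
    refine ⟨fun x => p (k x), ?_, ?_, fun a => ?_⟩
    · intro S
      obtain ⟨g, hg, hS⟩ := hp (S.image k)
      exact ⟨g * k, X.G.mul_mem hg hk, fun a ha => hS _ (Finset.mem_image_of_mem _ ha)⟩
    · intro m x y hxy
      apply hpc B m (fun l => k (x l)) (fun l => k (y l))
      have hk' : k ∈ st X.G ∅ := by rwa [st_empty]
      exact ((Orb.of_mem hk' x).symm.trans hxy).trans (Orb.of_mem hk' y)
    · show p (e a) = p (k a)
      rw [h a]
  have hrngo : rng o = A.image q := by
    ext x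
    simp only [rng, ho, Finset.mem_image, Finset.mem_univ, true_and]
    constructor
    · rintro ⟨a, rfl⟩
      exact ⟨a, a.2, rfl⟩
    · rintro ⟨a, ha, rfl⟩
      exact ⟨⟨a, ha⟩, rfl⟩
  have hpo : ∀ e : {a // a ∈ A} → D, IsCopy X.G A e → CanC X.G A (rng o) (fun a => p (e a)) := by
    intro e he
    rw [hrngo]
    exact hpe A e he
  have hpAC : CanC X.G A (rng o) pA := by
    rw [hpA]
    exact hpo (inc A) hinc
  -- (1)
  have h1 : ∀ o' : {a // a ∈ A} → D, IsCopy X.G A o' → ∀ e : {a // a ∈ A} → D,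
      CanC X.G A (rng o') e → (R o' e ↔ R o pA) := by
    intro o' ho' e he
    obtain ⟨g₁, hg₁, hg₁o⟩ := hoC
    obtain ⟨g₂, hg₂, hg₂o⟩ := ho'
    have hgG : g₂ * g₁⁻¹ ∈ X.G := X.G.mul_mem hg₂ (X.G.inv_mem hg₁)
    obtain ⟨g, hg⟩ : ∃ g : Perm D, g = g₂ * g₁⁻¹ := ⟨_, rfl⟩
    rw [← hg] at hgG
    have hgo : (fun a => g (o a)) = o' := by
      funext a
      rw [hg₁o a, hg₂o a, hg]
      simp
    have hmove := hpAC.move hgG
    have himg : (rng o).image g = rng o' := by
      rw [← hgo]
      unfold rng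
      rw [Finset.image_image]
      rfl
    rw [himg] at hmove
    have h2 := InvOrd.canC_iff hJ hR ⟨g₂, hg₂, hg₂o⟩ he hmove
    have h3 := T2_inv_iff hR ⟨g₁, hg₁, hg₁o⟩ hpAC.copy hgG
    rw [hgo] at h3
    exact h2.trans h3
  -- (2)
  obtain ⟨e, e', he, he', hee⟩ := hR.ex
  have hpe' : IsCopy X.G A (fun a => p (e a)) := hcopy p hp e he
  have hpe'' : IsCopy X.G A (fun a => p (e' a)) := hcopy p hp e' he'
  have h2 : R (fun a => p (e a)) (fun a => p (e' a)) := by
    obtain ⟨g, hg, h⟩ := hp (rng e ∪ rng e')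
    have e1 : (fun a => p (e a)) = fun a => g (e a) := by
      funext a
      exact h (e a) (Finset.mem_union_left _ (Finset.mem_image_of_mem e (Finset.mem_univ a)))
    have e2 : (fun a => p (e' a)) = fun a => g (e' a) := by
      funext a
      exact h (e' a) (Finset.mem_union_right _ (Finset.mem_image_of_mem e' (Finset.mem_univ a)))
    rw [e1, e2]
    exact hR.inv e e' he he' g hg hee
  have h3 : R o (fun a => p (e a)) ↔ R o pA := h1 o hoC _ (hpo e he)
  have h4 : R o (fun a => p (e' a)) ↔ R o pA := h1 o hoC _ (hpo e' he')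
  have h5 : R (fun a => p (e a)) o ↔ R o pA := by
    apply h1 _ hpe'
    refine ⟨q, hq, ?_, fun a => by rw [ho]; rfl⟩
    have himg : rng (fun a => p (e a)) = (rng e).image p := by
      unfold rng
      rw [Finset.image_image]
      rfl
    rw [himg]
    exact hqc (rng e)
  have hV : ¬ R o pA := by
    intro hV
    exact hR.asymm _ _ hoC hpe' (h3.2 hV) (h5.2 hV)
  rcases hR.ntrans _ o _ hpe' hoC hpe'' h2 with h | h
  · exact hV (h5.1 h)
  · exact hV (h4.1 h)

/-- T2: for every finite `B` there is a finite `S` such that `U(f)`, `f ∈ l`, have a common element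
inside `S` as soon as each of them contains a copy inside `h B` whenever `h B ⊆ S`. -/
theorem IsJ.T2 (hJ : IsJ X r A J) (B : Finset D) : ∃ S, ¬ NoT2 X A J B S := by
  by_contra hcon
  push Not at hcon
  obtain ⟨R, hR⟩ := hJ.exists_invOrd hcon
  exact hR.false hJ

end Pool.Agent.MP_f99268_lc
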